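import Pool.Agent.Helper17.OZ.ClDef

/-! Block OZ-L2-D1. -/

namespace Pool.Helper17.OZ

open Pool.Helper49.FK

/-- The Lindley recursion, run downwards from `N`. -/
private def w86 (b : ℤ → ℕ) (N : ℤ) : ℕ → ℤ
  | 0 => 0
  | n + 1 => max 0 (w86 b N n + 3 * (b (N - n) : ℤ) - 1)

private theorem w86_nonneg (b : ℤ → ℕ) (N : ℤ) (n : ℕ) : 0 ≤ w86 b N n := by
  cases n with
  | zero => simp [w86]
  | succ n => exact le_max_left _ _

private theorem w86_ge (b : ℤ → ℕ) (N : ℤ) (n : ℕ) :
    ∀ l : ℕ, 1 ≤ l → l ≤ n →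
      3 * ∑ j ∈ Finset.Icc (N - n + 1) (N - n + l), (b j : ℤ) - l ≤ w86 b N n := by
  induction n with
  | zero =>
    intro l h1 h2
    omega
  | succ n ih =>
    intro l h1 h2
    have hstep : w86 b N n + 3 * (b (N - n) : ℤ) - 1 ≤ w86 b N (n + 1) := le_max_right _ _
    have hsplit : Finset.Icc (N - ((n + 1 : ℕ) : ℤ) + 1) (N - ((n + 1 : ℕ) : ℤ) + l) =
        insert (N - (n : ℤ)) (Finset.Icc (N - (n : ℤ) + 1) (N - (n : ℤ) + ((l - 1 : ℕ) : ℤ))) := by
      ext x
      simp only [Finset.mem_insert, Finset.mem_Icc]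
      push_cast
      omega
    have hnot : (N - (n : ℤ)) ∉
        Finset.Icc (N - (n : ℤ) + 1) (N - (n : ℤ) + ((l - 1 : ℕ) : ℤ)) := by
      simp only [Finset.mem_Icc]
      omega
    rw [hsplit, Finset.sum_insert hnot]
    rcases Nat.lt_or_ge 1 l with hl | hl
    · have := ih (l - 1) (by omega) (by omega)
      have hcast : ((l - 1 : ℕ) : ℤ) = l - 1 := by omega
      rw [hcast] at this ⊢
      linarith
    · have hl1 : l = 1 := by omega
      subst hl1
      have hw := w86_nonneg b N n
      have hemp : Finset.Icc (N - (n : ℤ) + 1) (N - (n : ℤ) + ((1 - 1 : ℕ) : ℤ)) = ∅ := by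
        apply Finset.Icc_eq_empty
        simp
      rw [hemp, Finset.sum_empty]
      push_cast
      linarith

private theorem w86_sum {b : ℤ → ℕ} {N : ℤ} (hN : ∀ j, N < j → b j = 0) (I : Finset ℤ)
    (hI : ∀ i ∈ I, ∃ l : ℤ, 1 ≤ l ∧ l < 3 * ∑ j ∈ Finset.Icc (i + 1) (i + l), (b j : ℤ))
    (n : ℕ) :
    w86 b N n + ((I.filter fun i => N - n ≤ i ∧ i < N).card : ℤ) ≤
      3 * ∑ j ∈ Finset.Icc (N - n + 1) N, (b j : ℤ) := by
  induction n with
  | zero =>
    have h1 : (I.filter fun i => N - ((0 : ℕ) : ℤ) ≤ i ∧ i < N) = ∅ := by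
      apply Finset.filter_false_of_mem
      intro i _
      push_cast
      omega
    rw [h1]
    simp [w86]
  | succ n ih =>
    have hsplit : Finset.Icc (N - ((n + 1 : ℕ) : ℤ) + 1) N =
        insert (N - (n : ℤ)) (Finset.Icc (N - (n : ℤ) + 1) N) := by
      ext x
      simp only [Finset.mem_insert, Finset.mem_Icc]
      push_cast
      omega
    have hnot : (N - (n : ℤ)) ∉ Finset.Icc (N - (n : ℤ) + 1) N := by
      simp only [Finset.mem_Icc]
      omega
    rw [hsplit, Finset.sum_insert hnot]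
    by_cases hmem : (N - ((n + 1 : ℕ) : ℤ)) ∈ I
    · -- the strip is bad
      have hfil : (I.filter fun i => N - ((n + 1 : ℕ) : ℤ) ≤ i ∧ i < N) =
          insert (N - ((n + 1 : ℕ) : ℤ)) (I.filter fun i => N - (n : ℤ) ≤ i ∧ i < N) := by
        ext x
        simp only [Finset.mem_filter, Finset.mem_insert]
        constructor
        · rintro ⟨hx, h1, h2⟩
          by_cases hxe : x = N - ((n + 1 : ℕ) : ℤ)
          · exact Or.inl hxe
          · refine Or.inr ⟨hx, ?_, h2⟩
            push_cast at h1 hxe ⊢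
            omega
        · rintro (hx | ⟨hx, h1, h2⟩)
          · subst hx
            refine ⟨hmem, le_rfl, ?_⟩
            push_cast
            omega
          · refine ⟨hx, ?_, h2⟩
            push_cast
            omega
      have hcard : ((I.filter fun i => N - ((n + 1 : ℕ) : ℤ) ≤ i ∧ i < N).card : ℤ) ≤
          ((I.filter fun i => N - (n : ℤ) ≤ i ∧ i < N).card : ℤ) + 1 := by
        rw [hfil]
        exact_mod_cast Finset.card_insert_le _ _
      have hpos : 1 ≤ w86 b N (n + 1) := by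
        obtain ⟨l, hl1, hl2⟩ := hI _ hmem
        by_cases hln : l ≤ ((n + 1 : ℕ) : ℤ)
        · have h3 := w86_ge b N (n + 1) l.toNat (by omega) (by omega)
          have hlc : ((l.toNat : ℕ) : ℤ) = l := Int.toNat_of_nonneg (by omega)
          rw [hlc] at h3
          linarith
        · have h3 := w86_ge b N (n + 1) (n + 1) (by omega) le_rfl
          have hsum : ∑ j ∈ Finset.Icc (N - ((n + 1 : ℕ) : ℤ) + 1) (N - ((n + 1 : ℕ) : ℤ) + l),
              (b j : ℤ) = ∑ j ∈ Finset.Icc (N - ((n + 1 : ℕ) : ℤ) + 1)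
                (N - ((n + 1 : ℕ) : ℤ) + ((n + 1 : ℕ) : ℤ)), (b j : ℤ) := by
            symm
            apply Finset.sum_subset
            · intro x hx
              simp only [Finset.mem_Icc] at hx ⊢
              omega
            · intro x hx hx2
              simp only [Finset.mem_Icc] at hx hx2
              have : b x = 0 := hN x (by omega)
              simp [this]
          rw [hsum] at hl2
          linarith
      have hw : w86 b N (n + 1) = w86 b N n + 3 * (b (N - n) : ℤ) - 1 := by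
        have hdef : w86 b N (n + 1) = max 0 (w86 b N n + 3 * (b (N - n) : ℤ) - 1) := rfl
        rw [hdef] at hpos ⊢
        rcases le_total (w86 b N n + 3 * (b (N - n) : ℤ) - 1) 0 with h | h
        · rw [max_eq_left h] at hpos
          omega
        · exact max_eq_right h
      rw [hw]
      linarith
    · have hfil : (I.filter fun i => N - ((n + 1 : ℕ) : ℤ) ≤ i ∧ i < N) =
          (I.filter fun i => N - (n : ℤ) ≤ i ∧ i < N) := by
        ext x
        simp only [Finset.mem_filter]
        constructor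
        · rintro ⟨hx, h1, h2⟩
          refine ⟨hx, ?_, h2⟩
          have hxe : x ≠ N - ((n + 1 : ℕ) : ℤ) := by
            rintro rfl
            exact hmem hx
          push_cast at h1 hxe ⊢
          omega
        · rintro ⟨hx, h1, h2⟩
          refine ⟨hx, ?_, h2⟩
          push_cast
          omega
      have hw : w86 b N (n + 1) ≤ w86 b N n + 3 * (b (N - n) : ℤ) := by
        have hdef : w86 b N (n + 1) = max 0 (w86 b N n + 3 * (b (N - n) : ℤ) - 1) := rfl
        rw [hdef]
        have h0 := w86_nonneg b N n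
        exact max_le (by positivity) (by linarith)
      rw [hfil]
      linarith

/-- (D1) Queue lemma. Proof: let `W i = max 0 (max over l of ∑_{j = i+1}^{i+l} (3 b j - 1))`; `W (i-1) = max 0 (W i + 3 b i - 1)`;
sum over `i`: `0 ≤ ∑_{i-1 bad} (3 b i - 1)`, so the number of bad `i` is at most `3 ∑ b`. (Alternatively: induction on `∑ b`.) -/
theorem queue {b : ℤ → ℕ} {L : ℤ} (hb : ∀ j, j < -L ∨ L < j → b j = 0) (I : Finset ℤ)
    (hI : ∀ i ∈ I, ∃ l : ℤ, 1 ≤ l ∧ l < 3 * ∑ j ∈ Finset.Icc (i + 1) (i + l), (b j : ℤ)) :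
    (I.card : ℤ) ≤ 3 * ∑ j ∈ Finset.Icc (-L) L, (b j : ℤ) := by
  let N : ℤ := |L| + 1 + ∑ i ∈ I, |i|
  have hNL : |L| + 1 ≤ N := by
    have : 0 ≤ ∑ i ∈ I, |i| := Finset.sum_nonneg fun i _ => abs_nonneg i
    show |L| + 1 ≤ |L| + 1 + ∑ i ∈ I, |i|
    linarith
  have hNI : ∀ i ∈ I, |i| + 1 ≤ N := by
    intro i hi
    have h1 : |i| ≤ ∑ i ∈ I, |i| :=
      Finset.single_le_sum (f := fun i : ℤ => |i|) (fun j _ => abs_nonneg j) hi
    have h2 : 0 ≤ |L| := abs_nonneg L
    show |i| + 1 ≤ |L| + 1 + ∑ i ∈ I, |i|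
    linarith
  have hL1 : L ≤ |L| := le_abs_self L
  have hL2 : -L ≤ |L| := neg_le_abs L
  have hN0 : 0 ≤ N := by
    have := abs_nonneg L
    linarith
  have key := w86_sum (b := b) (N := N) (fun j hj => hb j (Or.inr (by linarith))) I hI
    (2 * N).toNat
  have hcast : (((2 * N).toNat : ℕ) : ℤ) = 2 * N := Int.toNat_of_nonneg (by linarith)
  rw [hcast] at key
  have hfil : (I.filter fun i => N - 2 * N ≤ i ∧ i < N) = I := by
    apply Finset.filter_true_of_mem
    intro i hi
    have h1 := hNI i hi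
    have h2 := le_abs_self i
    have h3 := neg_le_abs i
    constructor <;> linarith
  rw [hfil] at key
  have hw := w86_nonneg b N (2 * N).toNat
  have hsum : ∑ j ∈ Finset.Icc (N - 2 * N + 1) N, (b j : ℤ) =
      ∑ j ∈ Finset.Icc (-L) L, (b j : ℤ) := by
    symm
    apply Finset.sum_subset
    · intro x hx
      simp only [Finset.mem_Icc] at hx ⊢
      constructor <;> linarith
    · intro x _ hx2
      simp only [Finset.mem_Icc, not_and_or, not_le] at hx2
      have : b x = 0 := hb x hx2
      simp [this]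
  rw [hsum] at key
  linarith

/-- (D2) Number of clean strips. Proof: D1 for `b` and for `j ↦ b (-j)`, and at most `∑ b` strips with `b j ≠ 0`. -/
theorem clean_card {b : ℤ → ℕ} {L J : ℤ} (hb : ∀ j, j < -L ∨ L < j → b j = 0) (hJ : 0 ≤ J)
    (I : Finset ℤ) (hI : ∀ i ∈ Finset.Icc 0 J, CleanI b i → i ∈ I) :
    J + 1 - 7 * ∑ j ∈ Finset.Icc (-L) L, (b j : ℤ) ≤ I.card := by
  classical
  let Z : Finset ℤ := (Finset.Icc 0 J).filter fun i => b i ≠ 0
  let F : Finset ℤ := (Finset.Icc 0 J).filter fun i =>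
    ∃ l : ℤ, 1 ≤ l ∧ l < 3 * ∑ j ∈ Finset.Icc (i + 1) (i + l), (b j : ℤ)
  let R : Finset ℤ := (Finset.Icc 0 J).filter fun i =>
    ∃ l : ℤ, 1 ≤ l ∧ l < 3 * ∑ j ∈ Finset.Icc (i - l) (i - 1), (b j : ℤ)
  have hcover : Finset.Icc 0 J ⊆ ((I ∪ Z) ∪ F) ∪ R := by
    intro i hi
    simp only [Finset.mem_union]
    by_cases h1 : b i = 0
    · by_cases h2 : ∃ l : ℤ, 1 ≤ l ∧ l < 3 * ∑ j ∈ Finset.Icc (i + 1) (i + l), (b j : ℤ)
      · exact Or.inl (Or.inr (Finset.mem_filter.2 ⟨hi, h2⟩))
      · by_cases h3 : ∃ l : ℤ, 1 ≤ l ∧ l < 3 * ∑ j ∈ Finset.Icc (i - l) (i - 1), (b j : ℤ)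
        · exact Or.inr (Finset.mem_filter.2 ⟨hi, h3⟩)
        · refine Or.inl (Or.inl (Or.inl (hI i hi ⟨h1, ?_, ?_⟩)))
          · intro l hl
            by_contra hcon
            exact h2 ⟨l, hl, not_le.1 hcon⟩
          · intro l hl
            by_contra hcon
            exact h3 ⟨l, hl, not_le.1 hcon⟩
    · exact Or.inl (Or.inl (Or.inr (Finset.mem_filter.2 ⟨hi, h1⟩)))
  have hcard : (Finset.Icc 0 J).card ≤ I.card + Z.card + F.card + R.card := by
    refine (Finset.card_le_card hcover).trans ?_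
    refine (Finset.card_union_le _ _).trans ?_
    refine Nat.add_le_add_right ?_ _
    refine (Finset.card_union_le _ _).trans ?_
    exact Nat.add_le_add_right (Finset.card_union_le _ _) _
  have hJc : ((Finset.Icc 0 J).card : ℤ) = J + 1 := by
    rw [Int.card_Icc, Int.toNat_of_nonneg (by linarith)]
    ring
  have hZ : (Z.card : ℤ) ≤ ∑ j ∈ Finset.Icc (-L) L, (b j : ℤ) := by
    have h1 : (Z.card : ℤ) ≤ ∑ j ∈ Z, (b j : ℤ) := by
      rw [Finset.card_eq_sum_ones]
      push_cast
      refine Finset.sum_le_sum fun j hj => ?_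
      have := (Finset.mem_filter.1 hj).2
      have h2 : 1 ≤ b j := Nat.one_le_iff_ne_zero.2 this
      exact_mod_cast h2
    refine h1.trans (Finset.sum_le_sum_of_subset_of_nonneg ?_ (fun j _ _ => by positivity))
    intro j hj
    have hne := (Finset.mem_filter.1 hj).2
    rw [Finset.mem_Icc]
    by_contra hcon
    rw [not_and_or, not_le, not_le] at hcon
    exact hne (hb j hcon)
  have hF : (F.card : ℤ) ≤ 3 * ∑ j ∈ Finset.Icc (-L) L, (b j : ℤ) :=
    queue hb F fun i hi => (Finset.mem_filter.1 hi).2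
  have hR : (R.card : ℤ) ≤ 3 * ∑ j ∈ Finset.Icc (-L) L, (b j : ℤ) := by
    have h1 := queue (b := fun j => b (-j)) (L := L)
      (fun j hj => hb (-j) (by rcases hj with h | h; exact Or.inr (by linarith); exact Or.inl (by linarith)))
      (R.image fun i => -i) (by
        intro i hi
        obtain ⟨i', hi', rfl⟩ := Finset.mem_image.1 hi
        obtain ⟨l, hl1, hl2⟩ := (Finset.mem_filter.1 hi').2
        refine ⟨l, hl1, ?_⟩
        have hs : ∑ j ∈ Finset.Icc (-i' + 1) (-i' + l), (b (-j) : ℤ) =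
            ∑ j ∈ Finset.Icc (i' - l) (i' - 1), (b j : ℤ) := by
          refine Finset.sum_nbij' (fun j => -j) (fun j => -j) ?_ ?_ ?_ ?_ ?_
          · intro j hj
            simp only [Finset.mem_Icc] at hj ⊢
            omega
          · intro j hj
            simp only [Finset.mem_Icc] at hj ⊢
            omega
          · intro j _
            simp
          · intro j _
            simp
          · intro j _
            rfl
        rw [hs]
        exact hl2)
    have h2 : (R.image fun i => -i).card = R.card :=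
      Finset.card_image_of_injective _ neg_injective
    have h3 : ∑ j ∈ Finset.Icc (-L) L, (b (-j) : ℤ) = ∑ j ∈ Finset.Icc (-L) L, (b j : ℤ) := by
      refine Finset.sum_nbij' (fun j => -j) (fun j => -j) ?_ ?_ ?_ ?_ ?_
      · intro j hj
        simp only [Finset.mem_Icc] at hj ⊢
        omega
      · intro j hj
        simp only [Finset.mem_Icc] at hj ⊢
        omega
      · intro j _
        simp
      · intro j _
        simp
      · intro j _
        rfl
    rw [h2, h3] at h1
    exact h1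
  have hcard' : ((Finset.Icc 0 J).card : ℤ) ≤ I.card + Z.card + F.card + R.card := by
    exact_mod_cast hcard
  rw [hJc] at hcard'
  linarith

end Pool.Helper17.OZ
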