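import Pool.Agent.Helper17.OZ.ClDef

/-! Block OZ-L2-D3. -/

namespace Pool.Helper17.OZ

open Pool.Helper49.FK

private lemma walk_of_rtg1 {S : Finset (ℤ × ℤ)} {R : ℤ × ℤ → ℤ × ℤ → Prop} {x y : ℤ × ℤ}
    (h : Relation.ReflTransGen (fun p p' => p ∈ S ∧ p' ∈ S ∧ R p p') x y) :
    ∃ (n : ℕ) (f : ℕ → ℤ × ℤ), f 0 = x ∧ f n = y ∧ ∀ k < n, f k ∈ S ∧ f (k + 1) ∈ S ∧ R (f k) (f (k + 1)) := by
  induction h with
  | refl => exact ⟨0, fun _ => x, rfl, rfl, fun k hk => absurd hk (Nat.not_lt_zero k)⟩
  | @tail b c _ hbc ih =>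
    obtain ⟨n, f, h0, hn, hs⟩ := ih
    refine ⟨n + 1, fun k => if k ≤ n then f k else c, by simp [h0], by simp, fun k hk => ?_⟩
    rcases Nat.lt_or_ge k n with h1 | h1
    · have := hs k h1
      simp only [show k ≤ n by omega, show k + 1 ≤ n by omega, if_true]
      exact this
    · have h2 : k = n := by omega
      subst h2
      simp only [le_refl, if_true, show ¬ k + 1 ≤ k by omega, if_false, hn]
      exact hbc

/-- (D3) Short paths in a strip structure. `σ` is the strip index, `t` is the only point of its strip. Proof: let `l = σ z - σ t` and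
let `j* > σ z` be the first index with `b j* = 0`; by `fwd` with length `j* - 1 - σ t` it exists and `j* - σ t ≤ 3 l / 2 + 1`. A simple path
in `S` from `z` to `t` (take one of minimal length) cannot jump over an index, cannot pass index `j*` (at most one point there, it would be
visited twice) and reaches index `σ t` only in `t`; so before `t` it stays in the indices `σ t + 1, ..., j*`, which contain at most
`(j* - σ t) + ∑ b ≤ (j* - σ t) + (j* - 1 - σ t) / 3 ≤ 2 l + 1` points. -/
theorem path_short {S : Finset (ℤ × ℤ)} {R : ℤ × ℤ → ℤ × ℤ → Prop} {σ : ℤ × ℤ → ℤ}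
    (hstep : ∀ x y, R x y → |σ x - σ y| ≤ 1)
    (hconn : ∀ x ∈ S, ∀ y ∈ S, Relation.ReflTransGen (fun p p' => p ∈ S ∧ p' ∈ S ∧ R p p') x y)
    {t : ℤ × ℤ} (ht : t ∈ S) (hone : ∀ z ∈ S, σ z = σ t → z = t) {b : ℤ → ℕ}
    (hb : ∀ j, σ t < j → (S.filter fun x => σ x = j).card ≤ b j + 1)
    (fwd : ∀ l : ℤ, 1 ≤ l → 3 * ∑ j ∈ Finset.Icc (σ t + 1) (σ t + l), (b j : ℤ) ≤ l)
    {z : ℤ × ℤ} (hz : z ∈ S) (hzt : σ t < σ z) :
    ∃ (n : ℕ) (f : ℕ → ℤ × ℤ), (n : ℤ) ≤ 2 * (σ z - σ t) + 1 ∧ f 0 = z ∧ f n = t ∧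
      ∀ k < n, f k ∈ S ∧ f (k + 1) ∈ S ∧ R (f k) (f (k + 1)) := by
  classical
  have hex : ∃ n : ℕ, ∃ f : ℕ → ℤ × ℤ, f 0 = z ∧ f n = t ∧ ∀ k < n, f k ∈ S ∧ f (k + 1) ∈ S ∧ R (f k) (f (k + 1)) :=
    walk_of_rtg1 (hconn z hz t ht)
  set n := Nat.find hex with hndef
  obtain ⟨f, hf0, hfn, hs⟩ := Nat.find_spec hex
  rw [← hndef] at hfn hs
  have hmin : ∀ m < n, ¬ ∃ f : ℕ → ℤ × ℤ, f 0 = z ∧ f m = t ∧ ∀ k < m, f k ∈ S ∧ f (k + 1) ∈ S ∧ R (f k) (f (k + 1)) :=
    fun m hm => Nat.find_min hex hm
  clear_value n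
  have hmem : ∀ k, k ≤ n → f k ∈ S := by
    intro k hk
    rcases Nat.lt_or_ge k n with h1 | h1
    · exact (hs k h1).1
    · rw [show k = n by omega, hfn]
      exact ht
  -- injectivity
  have hinj : ∀ a c, a < c → c ≤ n → f a ≠ f c := by
    intro a c hac hcn heq
    apply hmin (n - (c - a)) (by omega)
    refine ⟨fun k => if k ≤ a then f k else f (k + (c - a)), by simp [hf0], ?_, fun k hk => ?_⟩
    · show (if n - (c - a) ≤ a then f (n - (c - a)) else f (n - (c - a) + (c - a))) = t
      split_ifs with h1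
      · have h2 : n = c := by omega
        rw [show n - (c - a) = a by omega, heq, ← h2, hfn]
      · rw [show n - (c - a) + (c - a) = n by omega, hfn]
    · rcases Nat.lt_or_ge k a with h1 | h1
      · simp only [show k ≤ a by omega, show k + 1 ≤ a by omega, if_true]
        exact hs k (by omega)
      · rcases Nat.eq_or_lt_of_le h1 with h2 | h2
        · subst h2
          simp only [le_refl, if_true, show ¬ a + 1 ≤ a by omega, if_false]
          have h3 := hs c (by omega)
          rw [← heq] at h3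
          rw [show a + 1 + (c - a) = c + 1 by omega]
          exact h3
        · simp only [show ¬ k ≤ a by omega, show ¬ k + 1 ≤ a by omega, if_false]
          have h3 := hs (k + (c - a)) (by omega)
          rw [show k + 1 + (c - a) = k + (c - a) + 1 by omega]
          exact h3
  have hst : ∀ k, k < n → σ (f k) ≤ σ (f (k + 1)) + 1 ∧ σ (f (k + 1)) ≤ σ (f k) + 1 := by
    intro k hk
    have h1 := hstep _ _ (hs k hk).2.2
    rw [abs_le] at h1
    omega
  -- above the strip of `t`
  have habove : ∀ k, k < n → σ t < σ (f k) := by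
    intro k
    induction k with
    | zero => intro _; rw [hf0]; exact hzt
    | succ k ih =>
      intro hk
      have h1 := ih (by omega)
      have h2 := hst k (by omega)
      by_contra h3
      have h4 : σ (f (k + 1)) = σ t := by omega
      have h5 := hone _ (hmem (k + 1) (by omega)) h4
      exact hinj (k + 1) n hk le_rfl (by rw [h5, hfn])
  -- the first index with `b = 0`
  set l := σ z - σ t with hl
  have hl1 : 1 ≤ l := by omega
  have hjex : ∃ i : ℕ, 1 ≤ i ∧ b (σ z + i) = 0 := by
    by_contra hcon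
    push Not at hcon
    have h1 := fwd (2 * l) (by omega)
    have h2 : (l : ℤ) ≤ ∑ j ∈ Finset.Icc (σ t + 1) (σ t + 2 * l), (b j : ℤ) := by
      have h3 : ∑ j ∈ Finset.Icc (σ z + 1) (σ z + l), (1 : ℤ) ≤ ∑ j ∈ Finset.Icc (σ z + 1) (σ z + l), (b j : ℤ) := by
        apply Finset.sum_le_sum
        intro j hj
        rw [Finset.mem_Icc] at hj
        have h4 := hcon (j - σ z).toNat (by omega)
        rw [Int.toNat_of_nonneg (by omega), show σ z + (j - σ z) = j by ring] at h4
        have : 0 < b j := Nat.pos_of_ne_zero h4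
        exact_mod_cast this
      have h5 : ∑ j ∈ Finset.Icc (σ z + 1) (σ z + l), (b j : ℤ) ≤ ∑ j ∈ Finset.Icc (σ t + 1) (σ t + 2 * l), (b j : ℤ) := by
        apply Finset.sum_le_sum_of_subset_of_nonneg
        · intro j hj
          rw [Finset.mem_Icc] at *
          omega
        · intro j _ _
          positivity
      rw [Finset.sum_const, Int.card_Icc, nsmul_eq_mul, mul_one] at h3
      rw [Int.toNat_of_nonneg (by omega)] at h3
      omega
    omega
  set i := Nat.find hjex with hi
  obtain ⟨hi1, hi2⟩ := Nat.find_spec hjex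
  rw [← hi] at hi1 hi2
  have himin : ∀ i' : ℕ, 1 ≤ i' → i' < i → 1 ≤ b (σ z + i') := by
    intro i' h1 h2
    have h3 := Nat.find_min hjex h2
    by_contra h4
    exact h3 ⟨h1, by omega⟩
  clear_value i
  set J : ℤ := σ z + i with hJ
  -- `J` is not far
  have hsumJ := fwd (J - 1 - σ t) (by omega)
  rw [show σ t + (J - 1 - σ t) = J - 1 by ring] at hsumJ
  have hlow : (i : ℤ) - 1 ≤ ∑ j ∈ Finset.Icc (σ t + 1) (J - 1), (b j : ℤ) := by
    have h3 : ∑ j ∈ Finset.Icc (σ z + 1) (J - 1), (1 : ℤ) ≤ ∑ j ∈ Finset.Icc (σ z + 1) (J - 1), (b j : ℤ) := by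
      apply Finset.sum_le_sum
      intro j hj
      rw [Finset.mem_Icc] at hj
      have h4 := himin (j - σ z).toNat (by omega) (by omega)
      rw [Int.toNat_of_nonneg (by omega), show σ z + (j - σ z) = j by ring] at h4
      exact_mod_cast h4
    have h5 : ∑ j ∈ Finset.Icc (σ z + 1) (J - 1), (b j : ℤ) ≤ ∑ j ∈ Finset.Icc (σ t + 1) (J - 1), (b j : ℤ) := by
      apply Finset.sum_le_sum_of_subset_of_nonneg
      · intro j hj
        rw [Finset.mem_Icc] at *
        omega
      · intro j _ _
        positivity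
    rw [Finset.sum_const, Int.card_Icc, nsmul_eq_mul, mul_one] at h3
    rw [Int.toNat_of_nonneg (by omega)] at h3
    omega
  -- the path stays below `J`
  have hbelow : ∀ k, k ≤ n → σ (f k) ≤ J := by
    by_contra hcon
    push Not at hcon
    set k1 := Nat.find hcon with hk1
    obtain ⟨h1, h2⟩ := Nat.find_spec hcon
    rw [← hk1] at h1 h2
    have h3 : ∀ k < k1, σ (f k) ≤ J := by
      intro k hk
      have h4 := Nat.find_min hcon hk
      push Not at h4
      exact h4 (by omega)
    clear_value k1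
    have hk0 : 0 < k1 := by
      by_contra h4
      have h5 : k1 = 0 := by omega
      rw [h5, hf0] at h2
      omega
    have h4 := hst (k1 - 1) (by omega)
    rw [show k1 - 1 + 1 = k1 by omega] at h4
    have h5 := h3 (k1 - 1) (by omega)
    have h6 : σ (f (k1 - 1)) = J := by omega
    have hcon2 : ∃ k, k1 < k ∧ k ≤ n ∧ σ (f k) ≤ J := by
      refine ⟨n, ?_, le_rfl, by rw [hfn]; omega⟩
      by_contra h7
      have h8 : k1 = n := by omega
      rw [h8, hfn] at h2
      omega
    set k2 := Nat.find hcon2 with hk2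
    obtain ⟨g1, g2, g3⟩ := Nat.find_spec hcon2
    rw [← hk2] at g1 g2 g3
    have g4 : ∀ k < k2, k1 < k → J < σ (f k) := by
      intro k hk hk'
      have g5 := Nat.find_min hcon2 hk
      push Not at g5
      exact g5 hk' (by omega)
    clear_value k2
    have g5 : J < σ (f (k2 - 1)) := by
      rcases Nat.eq_or_lt_of_le (show k1 ≤ k2 - 1 by omega) with g6 | g6
      · rw [← g6]
        exact h2
      · exact g4 (k2 - 1) (by omega) g6
    have g6 := hst (k2 - 1) (by omega)
    rw [show k2 - 1 + 1 = k2 by omega] at g6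
    have g7 : σ (f k2) = J := by omega
    have g8 := hb J (by omega)
    rw [hi2, zero_add, Finset.card_le_one] at g8
    have g9 := g8 (f (k1 - 1)) (Finset.mem_filter.2 ⟨hmem _ (by omega), h6⟩) (f k2)
      (Finset.mem_filter.2 ⟨hmem _ g2, g7⟩)
    exact hinj (k1 - 1) k2 (by omega) g2 g9
  -- counting
  have hcard : (n : ℤ) ≤ ∑ j ∈ Finset.Icc (σ t + 1) J, ((b j : ℤ) + 1) := by
    have h1 : (Finset.range n).card ≤ ((Finset.Icc (σ t + 1) J).biUnion (fun j => S.filter fun x => σ x = j)).card := by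
      apply Finset.card_le_card_of_injOn f
      · intro k hk
        rw [Finset.mem_coe, Finset.mem_range] at hk
        rw [Finset.mem_coe, Finset.mem_biUnion]
        refine ⟨σ (f k), ?_, ?_⟩
        · rw [Finset.mem_Icc]
          have h2 := habove k hk
          have h3 := hbelow k hk.le
          omega
        · rw [Finset.mem_filter]
          exact ⟨hmem k hk.le, rfl⟩
      · intro a ha c hc hac
        rw [Finset.mem_coe, Finset.mem_range] at ha hc
        rcases Nat.lt_trichotomy a c with h2 | h2 | h2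
        · exact absurd hac (hinj a c h2 hc.le)
        · exact h2
        · exact absurd hac.symm (hinj c a h2 ha.le)
    rw [Finset.card_range] at h1
    have h2 := h1.trans Finset.card_biUnion_le
    have h3 : ∑ j ∈ Finset.Icc (σ t + 1) J, (S.filter fun x => σ x = j).card ≤ ∑ j ∈ Finset.Icc (σ t + 1) J, (b j + 1) := by
      apply Finset.sum_le_sum
      intro j hj
      rw [Finset.mem_Icc] at hj
      exact hb j (by omega)
    have h4 : (n : ℤ) ≤ ((∑ j ∈ Finset.Icc (σ t + 1) J, (b j + 1) : ℕ) : ℤ) := by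
      exact_mod_cast h2.trans h3
    push_cast at h4
    exact h4
  have hsplit : ∑ j ∈ Finset.Icc (σ t + 1) J, ((b j : ℤ) + 1)
      = ∑ j ∈ Finset.Icc (σ t + 1) (J - 1), (b j : ℤ) + (J - σ t) := by
    have h1 : Finset.Icc (σ t + 1) J = insert J (Finset.Icc (σ t + 1) (J - 1)) := by
      ext j
      rw [Finset.mem_insert, Finset.mem_Icc, Finset.mem_Icc]
      omega
    rw [Finset.sum_add_distrib, Finset.sum_const, Int.card_Icc, nsmul_eq_mul, mul_one,
      Int.toNat_of_nonneg (by omega), h1, Finset.sum_insert (by rw [Finset.mem_Icc]; omega), hi2]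
    push_cast
    ring
  rw [hsplit] at hcard
  refine ⟨n, f, ?_, hf0, hfn, hs⟩
  omega

end Pool.Helper17.OZ
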