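import Pool.Agent.Helper17.OZ.ClB

/-! Block OZ-L2-D3b. -/

namespace Pool.Helper17.OZ

open Pool.Helper49.FK

/-- Steps of sup length `M` change the strip by at most one. -/
theorem st_step {a : ℤ} {M : ℕ} (hM : 1 ≤ M) {x y : ℤ × ℤ} (h : nd x y = M) :
    |st a M x - st a M y| ≤ 1 := by
  have hM' : (0 : ℤ) < M := by exact_mod_cast hM
  have h1 : |x.1 - y.1| ≤ M := h ▸ le_max_left _ _
  rw [abs_le] at h1 ⊢
  unfold st
  have key : ∀ u v : ℤ, u - v ≤ M → u / (M : ℤ) ≤ v / (M : ℤ) + 1 := by
    intro u v huv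
    have h2 : u ≤ v + 1 * (M : ℤ) := by linarith
    have h3 := Int.ediv_le_ediv hM' h2
    rwa [Int.add_mul_ediv_right _ _ hM'.ne'] at h3
  have h2 := key (x.1 - a) (y.1 - a) (by linarith [h1.2])
  have h3 := key (y.1 - a) (x.1 - a) (by linarith [h1.1])
  constructor <;> linarith

/-- The second coordinate along a path. -/
theorem path_snd {M : ℕ} {S : Finset (ℤ × ℤ)} (f : ℕ → ℤ × ℤ) : ∀ n : ℕ,
    (∀ k < n, f k ∈ S ∧ f (k + 1) ∈ S ∧ nd (f k) (f (k + 1)) = M) →
    |(f 0).2 - (f n).2| ≤ n * M := by
  intro n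
  induction n with
  | zero => intro _; simp
  | succ n ih =>
    intro h
    have h1 := ih fun k hk => h k (by omega)
    have h2 : |(f n).2 - (f (n + 1)).2| ≤ M := (h n (by omega)).2.2 ▸ le_max_right _ _
    have h3 := abs_sub_le (f 0).2 (f n).2 (f (n + 1)).2
    push_cast
    linarith

/-- The number of points of a strip. -/
theorem card_le_exc (a : ℤ) (M : ℕ) (J : ℤ) (S : Finset (ℤ × ℤ)) (j : ℤ) :
    (S.filter fun x => st a M x = j).card ≤ exc a M J S j + 1 := by
  unfold exc nst
  split_ifs <;> omega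

/-- (D3) The position of the other skeleton points seen from the point `t` of a clean strip (points to the right).
`path_short` with `σ = st a M` and `b = exc`. Hypotheses: `S` is connected by steps of sup length `M` (`hconn`: the step graph on `S`). Every step changes the second coordinate by at most `M`. -/
theorem right_bound {a : ℤ} {M : ℕ} (hM : 1 ≤ M) {J : ℤ} {S : Finset (ℤ × ℤ)}
    (hconn : ∀ x ∈ S, ∀ y ∈ S, Relation.ReflTransGen (fun p p' => p ∈ S ∧ p' ∈ S ∧ nd p p' = M) x y)
    {t : ℤ × ℤ} (ht : t ∈ S) (hi : 0 ≤ st a M t ∧ st a M t ≤ J)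
    (hone : ∀ z ∈ S, st a M z = st a M t → z = t) (hclean : CleanI (exc a M J S) (st a M t))
    {z : ℤ × ℤ} (hz : z ∈ S) (hzt : st a M t < st a M z) :
    |z.2 - t.2| ≤ (2 * (st a M z - st a M t) + 2) * M := by
  obtain ⟨n, f, hn, h0, h1, hf⟩ := path_short (S := S) (R := fun x y => nd x y = M)
    (σ := st a M) (fun x y h => st_step hM h) hconn ht hone (b := exc a M J S)
    (fun j _ => card_le_exc a M J S j) hclean.fwd hz hzt
  have h2 := path_snd f n hf
  rw [h0, h1] at h2
  refine h2.trans ?_
  have hM' : (0 : ℤ) ≤ M := by positivity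
  exact mul_le_mul_of_nonneg_right (by linarith) hM'

/-- (D3') The same for points to the left (`path_short` with `σ = - st a M` and `b j = exc (-j)`). -/
theorem left_bound {a : ℤ} {M : ℕ} (hM : 1 ≤ M) {J : ℤ} {S : Finset (ℤ × ℤ)}
    (hconn : ∀ x ∈ S, ∀ y ∈ S, Relation.ReflTransGen (fun p p' => p ∈ S ∧ p' ∈ S ∧ nd p p' = M) x y)
    {t : ℤ × ℤ} (ht : t ∈ S) (hi : 0 ≤ st a M t ∧ st a M t ≤ J)
    (hone : ∀ z ∈ S, st a M z = st a M t → z = t) (hclean : CleanI (exc a M J S) (st a M t))
    {z : ℤ × ℤ} (hz : z ∈ S) (hzt : st a M z < st a M t) :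
    |z.2 - t.2| ≤ (2 * (st a M t - st a M z) + 2) * M := by
  obtain ⟨n, f, hn, h0, h1, hf⟩ := path_short (S := S) (R := fun x y => nd x y = M)
    (σ := fun x => -st a M x) (fun x y h => by
      have := st_step (a := a) hM h
      rw [abs_le] at this ⊢
      constructor <;> linarith [this.1, this.2]) hconn ht
    (fun z hz h => hone z hz (neg_injective h)) (b := fun j => exc a M J S (-j))
    (fun j _ => by
      have h2 := card_le_exc a M J S (-j)
      have h3 : (S.filter fun x => -st a M x = j) = S.filter fun x => st a M x = -j := by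
        apply Finset.filter_congr
        intro x _
        exact neg_eq_iff_eq_neg
      rw [h3]
      exact h2) (fun l hl => by
      have h2 := hclean.bwd l hl
      have h3 : ∑ j ∈ Finset.Icc (-st a M t + 1) (-st a M t + l), (exc a M J S (-j) : ℤ) =
          ∑ j ∈ Finset.Icc (st a M t - l) (st a M t - 1), (exc a M J S j : ℤ) := by
        apply Finset.sum_nbij' (fun j => -j) (fun j => -j)
        · intro j hj
          rw [Finset.mem_Icc] at hj ⊢
          omega
        · intro j hj
          rw [Finset.mem_Icc] at hj ⊢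
          omega
        · intro j _
          exact neg_neg j
        · intro j _
          exact neg_neg j
        · intro j _
          rfl
      rw [h3]
      exact h2) hz (by simpa using hzt)
  have h2 := path_snd f n hf
  rw [h0, h1] at h2
  refine h2.trans ?_
  have hM' : (0 : ℤ) ≤ M := by positivity
  exact mul_le_mul_of_nonneg_right (by linarith) hM'

end Pool.Helper17.OZ
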