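import Pool.Agent.Helper17.OZ.ClC

/-! Block OZ-L2-D4. -/

namespace Pool.Helper17.OZ

open Pool.Helper49.FK

private theorem st_bounds13 {a : ℤ} {M : ℕ} (hM : 1 ≤ M) (x : ℤ × ℤ) :
    a + st a M x * M ≤ x.1 ∧ x.1 < a + st a M x * M + M := by
  have hM' : (0 : ℤ) < M := by exact_mod_cast hM
  unfold st
  have h1 := Int.ediv_mul_le (x.1 - a) hM'.ne'
  have h2 := Int.lt_ediv_add_one_mul_self (x.1 - a) hM'
  have h3 : ((x.1 - a) / (M : ℤ) + 1) * (M : ℤ) = (x.1 - a) / (M : ℤ) * M + M := by ring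
  rw [h3] at h2
  constructor <;> linarith

private theorem mem_Lam13 {x y : ℤ × ℤ} {K : ℕ} : y ∈ Lam x K ↔
    (x.1 - K ≤ y.1 ∧ y.1 ≤ x.1 + K) ∧ (x.2 - K ≤ y.2 ∧ y.2 ≤ x.2 + K) := by
  simp only [Lam, Finset.mem_product, Finset.mem_Icc]

private theorem nd_le13 {x y : ℤ × ℤ} {k : ℤ} (h : nd x y ≤ k) :
    (-k ≤ x.1 - y.1 ∧ x.1 - y.1 ≤ k) ∧ (-k ≤ x.2 - y.2 ∧ x.2 - y.2 ≤ k) :=
  ⟨abs_le.1 ((le_max_left _ _).trans h), abs_le.1 ((le_max_right _ _).trans h)⟩

/-- (D4) Cone condition for the cluster. `V` is within `2 M` of `S`. -/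
theorem clean_of_strip {a : ℤ} {M : ℕ} (hM : 1 ≤ M) {J : ℤ} {S V : Finset (ℤ × ℤ)}
    (hconn : ∀ x ∈ S, ∀ y ∈ S, Relation.ReflTransGen (fun p p' => p ∈ S ∧ p' ∈ S ∧ nd p p' = M) x y)
    (hSV : S ⊆ V) (hV : ∀ v ∈ V, ∃ z ∈ S, nd v z ≤ 2 * M)
    {t : ℤ × ℤ} (ht : t ∈ S) (hi : 0 ≤ st a M t ∧ st a M t ≤ J)
    (hone : ∀ z ∈ S, st a M z = st a M t → z = t) (hclean : CleanI (exc a M J S) (st a M t))
    {u w : ℤ × ℤ} (hu : u.1 = a) (hiu : 14 ≤ st a M t) (hiw : st a M t + 14 ≤ (w.1 - a) / M) :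
    Clean M V u w t := by
  have hm : (1 : ℤ) ≤ M := by exact_mod_cast hM
  have hm0 : (0 : ℤ) ≤ M := by linarith
  obtain ⟨t1, t2⟩ := st_bounds13 (a := a) hM t
  refine ⟨hSV ht, ?_, ?_, ?_⟩
  · intro v hv hvQ
    unfold Q at hvQ
    rw [mem_Lam13] at hvQ
    push_cast at hvQ
    obtain ⟨z, hz, hvz⟩ := hV v hv
    obtain ⟨⟨a1, a2⟩, a3, a4⟩ := nd_le13 hvz
    obtain ⟨z1, z2⟩ := st_bounds13 (a := a) hM z
    rcases lt_trichotomy (st a M z) (st a M t) with hlt | heq | hgt
    · -- to the left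
      have hb := left_bound hM hconn ht hi hone hclean hz hlt
      rw [abs_le] at hb
      obtain ⟨b1, b2⟩ := hb
      have e1 : (2 * (st a M t - st a M z) + 2) * (M : ℤ) =
          2 * (st a M t * M) - 2 * (st a M z * M) + 2 * M := by ring
      rw [e1] at b1 b2
      by_cases h5 : st a M z + 5 ≤ st a M t
      · right
        have h6 : 5 * (M : ℤ) ≤ st a M t * M - st a M z * M := by
          have := mul_le_mul_of_nonneg_right h5 hm0
          linarith
        unfold Y
        simp only [Prod.fst_sub, Prod.snd_sub]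
        rw [abs_le]
        constructor <;> linarith
      · exfalso
        have h6 : st a M t * (M : ℤ) - st a M z * M ≤ 4 * M := by
          have h7 : st a M t ≤ st a M z + 4 := by omega
          have := mul_le_mul_of_nonneg_right h7 hm0
          linarith
        have h7 : (M : ℤ) ≤ st a M t * M - st a M z * M := by
          have h8 : st a M z + 1 ≤ st a M t := by omega
          have := mul_le_mul_of_nonneg_right h8 hm0
          linarith
        apply hvQ
        refine ⟨⟨?_, ?_⟩, ?_, ?_⟩ <;> linarith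
    · exfalso
      have h1 := hone z hz heq
      subst h1
      apply hvQ
      refine ⟨⟨?_, ?_⟩, ?_, ?_⟩ <;> linarith
    · -- to the right
      have hb := right_bound hM hconn ht hi hone hclean hz hgt
      rw [abs_le] at hb
      obtain ⟨b1, b2⟩ := hb
      have e1 : (2 * (st a M z - st a M t) + 2) * (M : ℤ) =
          2 * (st a M z * M) - 2 * (st a M t * M) + 2 * M := by ring
      rw [e1] at b1 b2
      by_cases h5 : st a M t + 5 ≤ st a M z
      · left
        have h6 : 5 * (M : ℤ) ≤ st a M z * M - st a M t * M := by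
          have := mul_le_mul_of_nonneg_right h5 hm0
          linarith
        unfold Y
        simp only [Prod.fst_sub, Prod.snd_sub]
        rw [abs_le]
        constructor <;> linarith
      · exfalso
        have h6 : st a M z * (M : ℤ) - st a M t * M ≤ 4 * M := by
          have h7 : st a M z ≤ st a M t + 4 := by omega
          have := mul_le_mul_of_nonneg_right h7 hm0
          linarith
        have h7 : (M : ℤ) ≤ st a M z * M - st a M t * M := by
          have h8 : st a M t + 1 ≤ st a M z := by omega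
          have := mul_le_mul_of_nonneg_right h8 hm0
          linarith
        apply hvQ
        refine ⟨⟨?_, ?_⟩, ?_, ?_⟩ <;> linarith
  · have := mul_le_mul_of_nonneg_right hiu hm0
    linarith
  · have h1 := mul_le_mul_of_nonneg_right hiw hm0
    have h2 := Int.ediv_mul_le (w.1 - a) (show (M : ℤ) ≠ 0 by linarith)
    linarith

/-- (D5) Separation. -/
theorem sep_of_strip {a : ℤ} {M : ℕ} (hM : 1 ≤ M) {J : ℤ} {S : Finset (ℤ × ℤ)}
    (hconn : ∀ x ∈ S, ∀ y ∈ S, Relation.ReflTransGen (fun p p' => p ∈ S ∧ p' ∈ S ∧ nd p p' = M) x y)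
    {t t' : ℤ × ℤ} (ht : t ∈ S) (hi : 0 ≤ st a M t ∧ st a M t ≤ J)
    (hone : ∀ z ∈ S, st a M z = st a M t → z = t) (hclean : CleanI (exc a M J S) (st a M t))
    (ht' : t' ∈ S) (h : st a M t + 40 ≤ st a M t') : Sep M t t' := by
  have hm : (1 : ℤ) ≤ M := by exact_mod_cast hM
  have hm0 : (0 : ℤ) ≤ M := by linarith
  obtain ⟨t1, t2⟩ := st_bounds13 (a := a) hM t
  obtain ⟨z1, z2⟩ := st_bounds13 (a := a) hM t'
  have hb := right_bound hM hconn ht hi hone hclean ht' (by omega)
  rw [abs_le] at hb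
  obtain ⟨b1, b2⟩ := hb
  have e1 : (2 * (st a M t' - st a M t) + 2) * (M : ℤ) =
      2 * (st a M t' * M) - 2 * (st a M t * M) + 2 * M := by ring
  rw [e1] at b1 b2
  have h6 : 40 * (M : ℤ) ≤ st a M t' * M - st a M t * M := by
    have := mul_le_mul_of_nonneg_right h hm0
    linarith
  refine ⟨by linarith, ?_, ?_⟩
  · intro y hy
    unfold Q at hy
    rw [mem_Lam13] at hy
    push_cast at hy
    obtain ⟨⟨y1, y2⟩, y3, y4⟩ := hy
    unfold Y
    simp only [Prod.fst_sub, Prod.snd_sub]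
    rw [abs_le]
    constructor <;> linarith
  · intro y hy
    unfold Q at hy
    rw [mem_Lam13] at hy
    push_cast at hy
    obtain ⟨⟨y1, y2⟩, y3, y4⟩ := hy
    unfold Y
    simp only [Prod.fst_sub, Prod.snd_sub]
    rw [abs_le]
    constructor <;> linarith

end Pool.Helper17.OZ
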