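import Pool.Agent.Helper17.OZ.Defs

/-! Strips and clean strips. -/

namespace Pool.Helper17.OZ

open Pool.Helper49.FK

/-- The strip (of width `M`, starting with the column `a`) of a point. -/
def st (a : ℤ) (M : ℕ) (x : ℤ × ℤ) : ℤ := (x.1 - a) / M

/-- The points of `S` in strip `j`. -/
def nst (a : ℤ) (M : ℕ) (S : Finset (ℤ × ℤ)) (j : ℤ) : ℕ := (S.filter fun x => st a M x = j).card

/-- The excess in strip `j`, where the strips `0, ..., J` must be visited. -/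
def exc (a : ℤ) (M : ℕ) (J : ℤ) (S : Finset (ℤ × ℤ)) (j : ℤ) : ℕ :=
  if 0 ≤ j ∧ j ≤ J then nst a M S j - 1 else nst a M S j

/-- `i` is clean for the excess function `b`. -/
structure CleanI (b : ℤ → ℕ) (i : ℤ) : Prop where
  zero : b i = 0
  fwd : ∀ l : ℤ, 1 ≤ l → 3 * ∑ j ∈ Finset.Icc (i + 1) (i + l), (b j : ℤ) ≤ l
  bwd : ∀ l : ℤ, 1 ≤ l → 3 * ∑ j ∈ Finset.Icc (i - l) (i - 1), (b j : ℤ) ≤ l

end Pool.Helper17.OZ
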