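import Pool.Agent.Helper17.OZ.ClD
import Pool.Agent.Helper17.OZ.ClA

/-! Block OZ-L2-D6. -/

namespace Pool.Helper17.OZ

open Pool.Helper49.FK

private lemma cle_step6 {a : ℤ} {M : ℕ} (hM : 1 ≤ M) {x y : ℤ × ℤ} (h : nd x y ≤ M) :
    st a M y ≤ st a M x + 1 := by
  have h1 : |x.1 - y.1| ≤ M := (le_max_left _ _).trans h
  have h2 : y.1 - a ≤ (x.1 - a) + M := by
    have := (abs_le.1 h1).1
    linarith
  have hM0 : (0 : ℤ) < M := by exact_mod_cast hM
  have h3 : (y.1 - a) / M ≤ ((x.1 - a) + M) / M := Int.ediv_le_ediv hM0 h2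
  rw [Int.add_ediv_of_dvd_right (dvd_refl _), Int.ediv_self hM0.ne'] at h3
  exact h3

private lemma cle_ivt6 {S : Finset (ℤ × ℤ)} {R : ℤ × ℤ → ℤ × ℤ → Prop} {σ : ℤ × ℤ → ℤ}
    (hR : ∀ p p', R p p' → p' ∈ S ∧ σ p' ≤ σ p + 1) {x y : ℤ × ℤ} (hx : x ∈ S)
    (h : Relation.ReflTransGen R x y) : ∀ j : ℤ, σ x ≤ j → j ≤ σ y → ∃ p ∈ S, σ p = j := by
  induction h with
  | refl => exact fun j h1 h2 => ⟨x, hx, by omega⟩
  | tail _ hbc ih =>
    intro j h1 h2
    rename_i b c _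
    obtain ⟨h3, h4⟩ := hR _ _ hbc
    by_cases h5 : j ≤ σ b
    · exact ih j h1 h5
    · exact ⟨c, h3, by omega⟩

/-- (D6) Many clean separated points. `S` is the set of the skeleton points. Proof: the strips `0..J`, `J = (w.1 - u.1) / M - 2`,
are visited (steps do not jump over a strip, `u` is in strip `0`, a point of `S` is within `2 M` of `w`), the total excess is at most
`S.card - (J + 1) ≤ m / (14 M) + 2`; D2 and the pigeonhole principle for residues modulo `40`. -/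
theorem clean_points {M : ℕ} (hM : 1 ≤ M) {S V : Finset (ℤ × ℤ)}
    (hconn : ∀ x ∈ S, ∀ y ∈ S, Relation.ReflTransGen (fun p p' => p ∈ S ∧ p' ∈ S ∧ nd p p' = M) x y)
    (hSV : S ⊆ V) (hV : ∀ v ∈ V, ∃ z ∈ S, nd v z ≤ 2 * M) {u w : ℤ × ℤ} (hu : u ∈ S) (hw : w ∈ V)
    (huw : u.1 < w.1) (hcard : 14 * (S.card : ℤ) * M ≤ 15 * (w.1 - u.1)) :
    ∃ T : Finset (ℤ × ℤ), (∀ t ∈ T, Clean M V u w t) ∧ PS M T ∧
      w.1 - u.1 ≤ 100 * M * ((T.card : ℤ) + 2) := by
  classical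
  have hM0 : (0 : ℤ) < M := by exact_mod_cast hM
  by_cases hbig : w.1 - u.1 ≤ 200 * M
  · refine ⟨∅, by simp, ?_, ?_⟩
    · intro t ht
      simp at ht
    · simp only [Finset.card_empty, Nat.cast_zero, zero_add]
      linarith
  rw [not_le] at hbig
  obtain ⟨J, hJ⟩ : ∃ J : ℤ, J = (w.1 - u.1) / M - 2 := ⟨_, rfl⟩
  have hJlow : w.1 - u.1 < M * (J + 3) := by
    have h1 := Int.lt_ediv_add_one_mul_self (w.1 - u.1) hM0
    have h2 : (w.1 - u.1) / M + 1 = J + 3 := by omega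
    rw [h2] at h1
    linarith
  have hJ198 : 197 < J := by
    by_contra hcon
    have h1 : J + 3 ≤ 200 := by omega
    have h2 : (M : ℤ) * (J + 3) ≤ M * 200 := mul_le_mul_of_nonneg_left h1 hM0.le
    linarith
  have hu0 : st u.1 M u = 0 := by simp [st]
  -- all strips are visited
  have hvis : ∀ j : ℤ, 0 ≤ j → j ≤ J → ∃ p ∈ S, st u.1 M p = j := by
    obtain ⟨z, hz, hwz⟩ := hV w hw
    have h1 : w.1 - z.1 ≤ 2 * M := (le_abs_self _).trans ((le_max_left _ _).trans hwz)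
    have h2 : J ≤ st u.1 M z := by
      have h3 : (w.1 - u.1 - 2 * M) / M ≤ (z.1 - u.1) / M := Int.ediv_le_ediv hM0 (by linarith)
      have h4 : (w.1 - u.1 - 2 * M) / M = (w.1 - u.1) / M - 2 := Int.sub_mul_ediv_right _ _ hM0.ne'
      rw [st, hJ, ← h4]
      exact h3
    intro j hj0 hjJ
    exact cle_ivt6 (σ := st u.1 M) (fun p p' hpp => ⟨hpp.2.1, cle_step6 hM hpp.2.2.le⟩) hu
      (hconn u hu z hz) j (by rw [hu0]; exact hj0) (hjJ.trans h2)
  -- the excess
  obtain ⟨L, hL⟩ : ∃ L : ℤ, L = J + ∑ x ∈ S, |st u.1 M x| := ⟨_, rfl⟩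
  have hsum0 : 0 ≤ ∑ x ∈ S, |st u.1 M x| := Finset.sum_nonneg fun _ _ => abs_nonneg _
  have hle : ∀ x ∈ S, |st u.1 M x| ≤ L := by
    intro x hx
    have h1 := Finset.single_le_sum (f := fun x => |st u.1 M x|) (fun _ _ => abs_nonneg _) hx
    linarith
  have hb : ∀ j, j < -L ∨ L < j → exc u.1 M J S j = 0 := by
    intro j hj
    have h1 : ¬ (0 ≤ j ∧ j ≤ J) := by
      rintro ⟨h2, h3⟩
      rcases hj with h | h <;> linarith
    rw [exc, if_neg h1, nst, Finset.card_eq_zero, Finset.filter_eq_empty_iff]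
    intro x hx hxj
    have h2 := abs_le.1 (hle x hx)
    rcases hj with h | h <;> linarith
  have hnst : ∑ j ∈ Finset.Icc (-L) L, (nst u.1 M S j : ℤ) = S.card := by
    have h1 := Finset.card_eq_sum_card_fiberwise (s := S) (t := Finset.Icc (-L) L) (f := st u.1 M)
      (fun x hx => by
        rw [Finset.mem_coe, Finset.mem_Icc]
        exact abs_le.1 (hle x hx))
    rw [h1]
    push_cast
    rfl
  have hpos : ∀ j, 0 ≤ j → j ≤ J → 1 ≤ nst u.1 M S j := by
    intro j h1 h2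
    obtain ⟨p, hp, hpj⟩ := hvis j h1 h2
    rw [nst]
    exact Finset.card_pos.2 ⟨p, Finset.mem_filter.2 ⟨hp, hpj⟩⟩
  have hexc : ∑ j ∈ Finset.Icc (-L) L, (exc u.1 M J S j : ℤ) = S.card - (J + 1) := by
    have h1 : ∀ j ∈ Finset.Icc (-L) L, (exc u.1 M J S j : ℤ) =
        nst u.1 M S j - if j ∈ Finset.Icc 0 J then 1 else 0 := by
      intro j _
      by_cases h2 : 0 ≤ j ∧ j ≤ J
      · have h3 := hpos j h2.1 h2.2
        rw [exc, if_pos h2, if_pos (Finset.mem_Icc.2 h2)]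
        omega
      · rw [exc, if_neg h2, if_neg (fun h => h2 (Finset.mem_Icc.1 h))]
        simp
    rw [Finset.sum_congr rfl h1, Finset.sum_sub_distrib, hnst, Finset.sum_ite_mem]
    have h2 : Finset.Icc (-L) L ∩ Finset.Icc 0 J = Finset.Icc 0 J := by
      rw [Finset.inter_eq_right]
      intro j hj
      rw [Finset.mem_Icc] at hj ⊢
      constructor <;> linarith
    rw [h2]
    simp only [Finset.sum_const, Int.card_Icc, nsmul_eq_mul, mul_one, sub_zero]
    rw [Int.toNat_of_nonneg (by omega)]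
  -- clean strips
  set I := (Finset.Icc 0 J).filter fun i => CleanI (exc u.1 M J S) i with hI
  have hIcard := clean_card hb (by omega : (0 : ℤ) ≤ J) I
    (fun i hi hc => Finset.mem_filter.2 ⟨hi, hc⟩)
  rw [hexc] at hIcard
  set I' := I.filter fun i => 14 ≤ i ∧ i + 12 ≤ J with hI'
  have hI'card : (I.card : ℤ) ≤ I'.card + 26 := by
    have h1 : I ⊆ I' ∪ (Finset.Icc 0 13 ∪ Finset.Icc (J - 11) J) := by
      intro i hi
      have h2 := Finset.mem_Icc.1 (Finset.mem_filter.1 hi).1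
      rw [Finset.mem_union, Finset.mem_union, Finset.mem_Icc, Finset.mem_Icc, hI', Finset.mem_filter]
      by_cases h3 : 14 ≤ i
      · by_cases h4 : i + 12 ≤ J
        · exact Or.inl ⟨hi, h3, h4⟩
        · exact Or.inr (Or.inr ⟨by omega, h2.2⟩)
      · exact Or.inr (Or.inl ⟨h2.1, by omega⟩)
    have h2 := (Finset.card_le_card h1).trans (Finset.card_union_le _ _)
    have h3 := Finset.card_union_le (Finset.Icc (0 : ℤ) 13) (Finset.Icc (J - 11) J)
    have h4 : (Finset.Icc (0 : ℤ) 13).card = 14 := by simp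
    have h5 : (Finset.Icc (J - 11) J).card = 12 := by
      rw [Int.card_Icc]
      omega
    omega
  obtain ⟨ρ, -, hρ⟩ := Finset.exists_le_card_fiber_of_mul_le_card_of_maps_to (s := I')
    (t := Finset.Icc (0 : ℤ) 39) (f := fun i => i % 40) (n := I'.card / 40)
    (fun i _ => Finset.mem_Icc.2 ⟨Int.emod_nonneg _ (by norm_num), by
      have := Int.emod_lt_of_pos i (by norm_num : (0 : ℤ) < 40)
      omega⟩)
    ⟨0, by simp⟩ (by
      have : (Finset.Icc (0 : ℤ) 39).card = 40 := by simp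
      rw [this]
      exact Nat.mul_div_le _ _)
  have hone : ∀ i ∈ I, ∀ t ∈ S, st u.1 M t = i → ∀ z ∈ S, st u.1 M z = i → z = t := by
    intro i hi t ht hti z hz hzi
    obtain ⟨h1, h2⟩ := Finset.mem_filter.1 hi
    have h3 := Finset.mem_Icc.1 h1
    have h4 := h2.zero
    rw [exc, if_pos h3] at h4
    have h5 : (S.filter fun x => st u.1 M x = i).card ≤ 1 := by
      have : nst u.1 M S i ≤ 1 := by omega
      exact this
    exact Finset.card_le_one.1 h5 z (Finset.mem_filter.2 ⟨hz, hzi⟩) t (Finset.mem_filter.2 ⟨ht, hti⟩)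
  refine ⟨S.filter fun t => st u.1 M t ∈ I'.filter fun i => i % 40 = ρ, ?_, ?_, ?_⟩
  · intro t ht
    obtain ⟨htS, h1⟩ := Finset.mem_filter.1 ht
    obtain ⟨h2, -⟩ := Finset.mem_filter.1 h1
    obtain ⟨h3, h4, h5⟩ := Finset.mem_filter.1 h2
    obtain ⟨h6, h7⟩ := Finset.mem_filter.1 h3
    exact clean_of_strip hM hconn hSV hV htS (Finset.mem_Icc.1 h6)
      (fun z hz hzt => hone _ h3 t htS rfl z hz hzt) h7 rfl h4 (by omega)
  · intro t ht t' ht' hne
    obtain ⟨htS, h1⟩ := Finset.mem_filter.1 ht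
    obtain ⟨h2, hm⟩ := Finset.mem_filter.1 h1
    obtain ⟨h3, h4, h5⟩ := Finset.mem_filter.1 h2
    obtain ⟨h6, h7⟩ := Finset.mem_filter.1 h3
    obtain ⟨htS', h1'⟩ := Finset.mem_filter.1 ht'
    obtain ⟨h2', hm'⟩ := Finset.mem_filter.1 h1'
    obtain ⟨h3', h4', h5'⟩ := Finset.mem_filter.1 h2'
    obtain ⟨h6', h7'⟩ := Finset.mem_filter.1 h3'
    have hne' : st u.1 M t ≠ st u.1 M t' := fun h => hne (hone _ h3' t' htS' rfl t htS h)
    have h8 : st u.1 M t + 40 ≤ st u.1 M t' ∨ st u.1 M t' + 40 ≤ st u.1 M t := by omega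
    rcases h8 with h8 | h8
    · exact Or.inl (sep_of_strip hM hconn htS (Finset.mem_Icc.1 h6)
        (fun z hz hzt => hone _ h3 t htS rfl z hz hzt) h7 htS' h8)
    · exact Or.inr (sep_of_strip hM hconn htS' (Finset.mem_Icc.1 h6')
        (fun z hz hzt => hone _ h3' t' htS' rfl z hz hzt) h7' htS h8)
  · have h1 : I'.filter (fun i => i % 40 = ρ) ⊆
        (S.filter fun t => st u.1 M t ∈ I'.filter fun i => i % 40 = ρ).image (st u.1 M) := by
      intro i hi
      have h2 := Finset.mem_Icc.1 (Finset.mem_filter.1 (Finset.mem_filter.1 (Finset.mem_filter.1 hi).1).1).1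
      obtain ⟨p, hp, hpi⟩ := hvis i h2.1 h2.2
      exact Finset.mem_image.2 ⟨p, Finset.mem_filter.2 ⟨hp, by rw [hpi]; exact hi⟩, hpi⟩
    have h2 := (Finset.card_le_card h1).trans Finset.card_image_le
    set T := S.filter fun t => st u.1 M t ∈ I'.filter fun i => i % 40 = ρ
    have h3 : (I'.card : ℤ) ≤ 40 * T.card + 40 := by
      have : I'.card / 40 ≤ T.card := hρ.trans h2
      omega
    have h4 : 8 * (J + 1) - 7 * (S.card : ℤ) - 66 ≤ 40 * T.card := by linarith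
    have h5 : (M : ℤ) * (8 * (J + 1) - 7 * (S.card : ℤ) - 66) ≤ M * (40 * T.card) :=
      mul_le_mul_of_nonneg_left h4 hM0.le
    have h6 : 0 ≤ (M : ℤ) * T.card := by positivity
    nlinarith

end Pool.Helper17.OZ
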