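import Pool.Agent.Helper49.FK.Defs

/-!
Project OZ (MP_7e0861_pr), part L2 (mass gap). Definitions. Paper proof: /team-store/h17_L2_massgap.md.
-/

namespace Pool.Helper17.OZ

open Pool.Helper49.FK

/-- Sup distance. -/
def nd (x y : ℤ × ℤ) : ℤ := max |x.1 - y.1| |x.2 - y.2|

/-- The box of radius `K` around `x`. -/
noncomputable def Lam (x : ℤ × ℤ) (K : ℕ) : Finset (ℤ × ℤ) :=
  Finset.Icc (x.1 - K) (x.1 + K) ×ˢ Finset.Icc (x.2 - K) (x.2 + K)

/-- A rectangle. -/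
noncomputable def rect (a b c d : ℤ) : Finset (ℤ × ℤ) := Finset.Icc a b ×ˢ Finset.Icc c d

/-- `x` and `y` are connected by open edges with both ends in `B`. -/
def Cin (ω : Finset Edge) (B : Finset (ℤ × ℤ)) (x y : ℤ × ℤ) : Prop := Conn (ω ∩ edges B) x y

/-- Increasing event. -/
def Inc (A : Finset Edge → Prop) : Prop := ∀ ω ω' : Finset Edge, ω ⊆ ω' → A ω → A ω'

/-- For configurations in `D` the event depends only on the edges of `F`. -/
def Dep (D : Finset (ℤ × ℤ)) (F : Finset Edge) (A : Finset Edge → Prop) : Prop :=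
  ∀ ω ⊆ edges D, ∀ ω' ⊆ edges D, ω ∩ F = ω' ∩ F → (A ω ↔ A ω')

/-- The probability of `A` given that all edges of `F` are open. -/
noncomputable def prO (q : ℝ) (r : Edge → ℝ) (D : Finset (ℤ × ℤ)) (F : Finset Edge)
    (A : Finset Edge → Prop) : ℝ :=
  pr q r D (fun ω => F ⊆ ω ∧ A ω) / pr q r D (fun ω => F ⊆ ω)

/-- `x` is connected inside its box of radius `s` to a point at distance `s`. -/
def Arm (s : ℕ) (x : ℤ × ℤ) (ω : Finset Edge) : Prop := ∃ y, nd x y = s ∧ Cin ω (Lam x s) x y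

/-- Bound `κ s` for the arm event in the box of radius `s` with wired boundary condition. -/
def ExpWith (q r : ℝ) (κ : ℕ → ℝ) : Prop :=
  ∀ s : ℕ, 1 ≤ s → prO q (hom r) (Lam (0, 0) (s + 1))
    (edges (Lam (0, 0) (s + 1)) \ edges (Lam (0, 0) s)) (Arm s (0, 0)) ≤ κ s

/-- Exponential decay with wired boundary condition (hypothesis EXP). -/
def ExpW (q r : ℝ) : Prop :=
  ∃ c C : ℝ, 0 < c ∧ 0 < C ∧ ExpWith q r fun s => C * Real.exp (-c * s)

/-- The inverse correlation length in direction `e_1`. -/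
noncomputable def tau (q r : ℝ) : ℝ :=
  ⨅ n : ℕ, -Real.log (GI q r (0, 0) ((n : ℤ) + 1, 0)) / ((n : ℝ) + 1)

/-- The set around `x` used by the arm event of a skeleton point with earlier points `P`. -/
noncomputable def Bs (K s : ℕ) (P : Finset (ℤ × ℤ)) (x : ℤ × ℤ) : Finset (ℤ × ℤ) :=
  Lam x K \ P.biUnion fun p => Lam p (K + 2 * s)

/-- The larger set (disjoint for different skeleton points). -/
noncomputable def Bp (K s : ℕ) (P : Finset (ℤ × ℤ)) (x : ℤ × ℤ) : Finset (ℤ × ℤ) :=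
  Lam x (K + s) \ P.biUnion fun p => Lam p (K + s)

/-- The arm event of a skeleton point. -/
def Ex (K s : ℕ) (P : Finset (ℤ × ℤ)) (x : ℤ × ℤ) (ω : Finset Edge) : Prop :=
  ∃ y, nd x y = K ∧ Cin ω (Bs K s P x) x y

/-- The points `x 0, ..., x (i - 1)`. -/
def bef (x : ℕ → ℤ × ℤ) (i : ℕ) : Finset (ℤ × ℤ) := (Finset.range i).image x

/-- A chain of skeleton points `x 0, ..., x N` (`K' = K + 2 s + 1`) with the greedy rule: the next point is
the smallest (lexicographic order) of the later ones which are at distance `K'` from the earlier ones. -/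
structure Chain (K s : ℕ) (u : ℤ × ℤ) (N : ℕ) (x : ℕ → ℤ × ℤ) : Prop where
  zero : x 0 = u
  par : ∀ i, 1 ≤ i → i ≤ N → ∃ j < i, nd (x i) (x j) = K + 2 * s + 1
  far : ∀ i ≤ N, ∀ j < i, (K : ℤ) + 2 * s < nd (x i) (x j)
  greedy : ∀ i < N, ∀ j, i < j → j ≤ N → (∃ l ≤ i, nd (x j) (x l) = K + 2 * s + 1) →
    toLex (x (i + 1)) ≤ toLex (x j)

/-- The skeleton events. -/
def Sk (K s : ℕ) (N : ℕ) (x : ℕ → ℤ × ℤ) (ω : Finset Edge) : Prop :=
  ∀ i ≤ N, Ex K s (bef x i) (x i) ω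

/-- The cone. -/
def Y (x : ℤ × ℤ) : Prop := |x.2| ≤ 8 * x.1

/-- `V` is contained in the double cone with apex `t`. -/
def Dbl (V : Finset (ℤ × ℤ)) (t : ℤ × ℤ) : Prop := ∀ y ∈ V, Y (y - t) ∨ Y (t - y)

/-- `t` is a cone point of `V`. -/
def CP (V : Finset (ℤ × ℤ)) (t : ℤ × ℤ) : Prop := t ∈ V ∧ Dbl V t

/-- The box opened up by the surgery. -/
noncomputable def Q (M : ℕ) (t : ℤ × ℤ) : Finset (ℤ × ℤ) := Lam t (12 * M)

open Classical in
/-- The double cone inside `Q M t` and `D`. -/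
noncomputable def DC (M : ℕ) (D : Finset (ℤ × ℤ)) (t : ℤ × ℤ) : Finset (ℤ × ℤ) :=
  (Q M t ∩ D).filter fun y => Y (y - t) ∨ Y (t - y)

/-- `t` is a clean point of the vertex set `V` between `u` and `w` (`M` is the scale `K'`). -/
structure Clean (M : ℕ) (V : Finset (ℤ × ℤ)) (u w t : ℤ × ℤ) : Prop where
  mem : t ∈ V
  cone : ∀ y ∈ V, y ∉ Q M t → Y (y - t) ∨ Y (t - y)
  left : u.1 < t.1 - 12 * M
  right : t.1 + 12 * M < w.1

/-- Two clean points are well separated. -/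
def Sep (M : ℕ) (t t' : ℤ × ℤ) : Prop :=
  t.1 + 26 * M < t'.1 ∧ (∀ y ∈ Q M t', Y (y - t)) ∧ ∀ y ∈ Q M t, Y (t' - y)

/-- The points of `T` are pairwise well separated. -/
def PS (M : ℕ) (T : Finset (ℤ × ℤ)) : Prop := ∀ t ∈ T, ∀ t' ∈ T, t ≠ t' → Sep M t t' ∨ Sep M t' t

/-- `V` has no cone point strictly between the columns of `u` and `w`. -/
def NoCP (V : Finset (ℤ × ℤ)) (u w : ℤ × ℤ) : Prop := ∀ t, CP V t → u.1 < t.1 → ¬t.1 < w.1

open Classical in
/-- The configuration after the surgery at the points of `T` (`V` is the cluster). -/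
noncomputable def surg (M : ℕ) (D : Finset (ℤ × ℤ)) (V T : Finset (ℤ × ℤ)) (ω : Finset Edge) : Finset Edge :=
  (edges D).filter fun e =>
    if e.1 ∉ T.biUnion (Q M) ∧ tip e ∉ T.biUnion (Q M) then e ∈ ω
    else (∃ t ∈ T, e.1 ∈ DC M D t ∧ tip e ∈ DC M D t) ∨
      (e.1 ∈ V ∧ e.1 ∉ T.biUnion (Q M) ∧ tip e ∈ T.biUnion (Q M)) ∨
      (tip e ∈ V ∧ tip e ∉ T.biUnion (Q M) ∧ e.1 ∈ T.biUnion (Q M))

end Pool.Helper17.OZ
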