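import Pool.Agent.Helper17.OZ.TauA

/-! Block OZ-L2-A2. -/

namespace Pool.Helper17.OZ

open Pool.Helper49.FK

variable {q ρ : ℝ}

private theorem exit_card_Lam (x : ℤ × ℤ) (K : ℕ) : (Lam x K).card = (2 * K + 1) * (2 * K + 1) := by
  unfold Lam
  rw [Finset.card_product, Int.card_Icc, Int.card_Icc]
  congr 1 <;> omega

private theorem exit_mem {x y : ℤ × ℤ} {K : ℕ} (hK : 1 ≤ K) :
    y ∈ Lam x K \ Lam x (K - 1) ↔ nd x y = K := by
  unfold Lam nd
  simp only [Finset.mem_sdiff, Finset.mem_product, Finset.mem_Icc]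
  rcases abs_cases (x.1 - y.1) with ⟨h1, _⟩ | ⟨h1, _⟩ <;> rcases abs_cases (x.2 - y.2) with ⟨h2, _⟩ | ⟨h2, _⟩ <;>
    rcases max_cases |x.1 - y.1| |x.2 - y.2| with ⟨h3, _⟩ | ⟨h3, _⟩ <;> rw [h3] <;> omega

private theorem exit_card (x : ℤ × ℤ) {K : ℕ} (hK : 1 ≤ K) : (Lam x K \ Lam x (K - 1)).card = 8 * K := by
  have hsub : Lam x (K - 1) ⊆ Lam x K := by
    intro y hy
    unfold Lam at hy ⊢
    simp only [Finset.mem_product, Finset.mem_Icc] at hy ⊢
    omega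
  rw [Finset.card_sdiff_of_subset hsub, exit_card_Lam, exit_card_Lam]
  obtain ⟨k, rfl⟩ : ∃ k, K = k + 1 := ⟨K - 1, by omega⟩
  simp only [Nat.add_sub_cancel]
  have : (2 * (k + 1) + 1) * (2 * (k + 1) + 1) = 8 * (k + 1) + (2 * k + 1) * (2 * k + 1) := by ring
  omega

private theorem exit_gr_mono {ω ω' : Finset Edge} (h : ω ⊆ ω') {x y : ℤ × ℤ} (hc : Conn ω x y) : Conn ω' x y := by
  refine SimpleGraph.Reachable.mono ?_ hc
  rintro a b ⟨e, he, hab⟩
  exact ⟨e, h he, hab⟩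

private theorem exit_mem_of_conn {ω : Finset Edge} {U : Finset (ℤ × ℤ)} (h : ω ⊆ edges U) {x y : ℤ × ℤ}
    (hxy : x ≠ y) (hc : Conn ω x y) : x ∈ U := by
  obtain ⟨w⟩ := hc
  cases w with
  | nil => exact absurd rfl hxy
  | cons hadj _ =>
    obtain ⟨e, he, hab⟩ := hadj
    have h1 := h he
    unfold edges at h1
    simp only [Finset.mem_filter, Finset.mem_product, Finset.mem_univ, and_true] at h1
    rcases hab with ⟨h2, _⟩ | ⟨_, h2⟩
    · rw [← h2]; exact h1.1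
    · rw [← h2]; exact h1.2

/-- (A3) Leaving a box of radius `K` costs `tau K`. Proof: the event implies `x ∈ U` and `Conn ω x y` for one of
the `8 K` points `y` at distance `K`; union bound, FK6 and A2. -/
theorem exit_free (hq : 1 ≤ q) {r : Edge → ℝ} (h0 : ∀ e, 0 < r e) (hr : ∀ e, r e ≤ ρ) {K : ℕ} (hK : 1 ≤ K)
    (s : ℕ) (P U : Finset (ℤ × ℤ)) (x : ℤ × ℤ) :
    pr q r U (Ex K s P x) ≤ 8 * K * Real.exp (-tau q ρ * K) := by
  have hρ : 0 < ρ := (h0 ((0, 0), true)).trans_le (hr _)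
  have h1 : pr q r U (Ex K s P x) ≤
      ∑ y ∈ Lam x K \ Lam x (K - 1), pr q r U (fun ω => x ∈ U ∧ Conn ω x y) := by
    refine pr_union hq h0 _ ?_
    rintro ω hω ⟨y, hy, hc⟩
    refine ⟨y, (exit_mem hK).2 hy, ?_⟩
    have hc' : Conn ω x y := exit_gr_mono Finset.inter_subset_left hc
    refine ⟨exit_mem_of_conn hω ?_ hc', hc'⟩
    rintro rfl
    unfold nd at hy
    simp at hy
    omega
  refine h1.trans ?_
  have h2 : ∀ y ∈ Lam x K \ Lam x (K - 1), pr q r U (fun ω => x ∈ U ∧ Conn ω x y) ≤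
      Real.exp (-tau q ρ * K) := by
    intro y hy
    have hn : nd (0, 0) (y - x) = K := by
      rw [← (exit_mem hK).1 hy]
      unfold nd
      simp only [Prod.fst_sub, Prod.snd_sub, zero_sub, neg_sub]
    have h3 := (G_le_GI (D := U) hq h0 hr x y).trans (GI_le_tau hq hρ (y - x))
    rw [hn] at h3
    exact_mod_cast h3
  refine (Finset.sum_le_sum h2).trans ?_
  rw [Finset.sum_const, exit_card x hK, nsmul_eq_mul]
  push_cast
  exact le_rfl

end Pool.Helper17.OZ
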