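import Pool.Agent.Helper17.OZ.Defs
import Pool.Agent.Helper13.OZ.Sym

/-!
Facts on FK percolation needed for the mass gap (part L1). `q ≥ 1`, all odds ratios are positive.
-/

open Pool.Agent.Helper13.OZ (sq ind ind_pos ind_neg ind_mono ind_and ind_congr ind_nonneg ind_le_one conn_iff pr_eq
  mem_edges edges_mono wt_eq)
open scoped Classical

namespace Pool.Helper17.OZ

open Pool.Helper49.FK

variable {q : ℝ} {r : Edge → ℝ} {D : Finset (ℤ × ℤ)}

/-- (FK1) Domain monotonicity for increasing events. -/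
theorem pr_mono (hq : 1 ≤ q) {r' : Edge → ℝ} {D' : Finset (ℤ × ℤ)} (h0 : ∀ e, 0 < r e)
    (hr : ∀ e, r e ≤ r' e) (hD : D ⊆ D') {A : Finset Edge → Prop} (hA : Inc A) :
    pr q r D A ≤ pr q r' D' A := by
  rw [pr_eq (one_pos.trans_le hq), pr_eq (one_pos.trans_le hq)]
  exact sq.pr_mono_D hq (edges_mono hD) (fun e _ => (h0 e).le) (fun e _ => hr e)
    (fun e _ => (h0 e).le.trans (hr e)) fun a b hab h => hA a b hab h

/-- (FK2) FKG. -/
theorem fkg (hq : 1 ≤ q) (h0 : ∀ e, 0 < r e) {A B : Finset Edge → Prop} (hA : Inc A) (hB : Inc B) :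
    pr q r D A * pr q r D B ≤ pr q r D (fun ω => A ω ∧ B ω) := by
  have hq0 : 0 < q := one_pos.trans_le hq
  rw [pr_eq hq0, pr_eq hq0, pr_eq hq0]
  have := sq.fkg (D := edges D) (r := r) hq (fun e _ => (h0 e).le) (F := fun a => ind (A a)) (H := fun a => ind (B a))
    (fun a b hab _ => ind_mono (hA a b hab)) (fun a b hab _ => ind_mono (hB a b hab)) fun a _ => ind_nonneg _
  refine this.trans (le_of_eq ?_)
  unfold Pool.Agent.Helper13.OZ.Gr.pr
  exact sq.ex_congr fun a _ => (ind_and _ _).symm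

theorem prO_eq (hq : 1 ≤ q) (h0 : ∀ e, 0 < r e) {F : Finset Edge} (hF : F ⊆ edges D) (A : Finset Edge → Prop) :
    prO q r D F A = sq.exo q r (edges D) F (fun a => ind (A a)) := by
  have hq0 : 0 < q := one_pos.trans_le hq
  unfold prO
  rw [pr_eq hq0, pr_eq hq0]
  exact sq.exo_eq hq0 h0 hF A

/-- (FK3) An increasing event is most likely if the other edges are open: `A` increasing, `H` depends only
on `F`, all under the condition that the edges of `F₀` are open. -/
theorem prO_step (hq : 1 ≤ q) (h0 : ∀ e, 0 < r e) {F₀ F : Finset Edge} (hF₀ : F₀ ⊆ edges D)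
    (hF : F ⊆ edges D) {A H : Finset Edge → Prop} (hA : Inc A) (hH : Dep D F H) :
    prO q r D F₀ (fun ω => A ω ∧ H ω) ≤ prO q r D (F₀ ∪ F) A * prO q r D F₀ H := by
  rw [prO_eq hq h0 hF₀, prO_eq hq h0 hF₀, prO_eq hq h0 (Finset.union_subset hF₀ hF)]
  exact sq.open_step hq h0 hF₀ hF (fun a b hab h => hA a b hab h) fun a ha b hb hab => hH a ha b hb hab

/-- (FK3b) Opening more edges increases the probability of an increasing event. -/
theorem prO_mono (hq : 1 ≤ q) (h0 : ∀ e, 0 < r e) {F F' : Finset Edge} (hF : F ⊆ F')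
    (hF' : F' ⊆ edges D) {A : Finset Edge → Prop} (hA : Inc A) : prO q r D F A ≤ prO q r D F' A := by
  have h1 := prO_step (F₀ := F) (F := F') (H := fun _ => True) hq h0 (hF.trans hF') hF' hA
    (fun _ _ _ _ _ => Iff.rfl)
  rw [Finset.union_eq_right.2 hF] at h1
  have h2 : prO q r D F (fun ω => A ω ∧ True) = prO q r D F A := by simp only [and_true]
  have h3 : prO q r D F (fun _ => True) = 1 := by
    rw [prO_eq hq h0 (hF.trans hF')]
    unfold Pool.Agent.Helper13.OZ.Gr.exo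
    simp only [ind_pos trivial, mul_one]
    exact div_self (sq.sum_w_pos (one_pos.trans_le hq) h0 _ _).ne'
  rw [h2, h3, mul_one] at h1
  exact h1

/-- (FK6) The two-point function in a finite domain is at most the homogeneous infinite-volume one. -/
theorem G_le_GI (hq : 1 ≤ q) {ρ : ℝ} (h0 : ∀ e, 0 < r e) (hr : ∀ e, r e ≤ ρ) (x y : ℤ × ℤ) :
    pr q r D (fun ω => x ∈ D ∧ Conn ω x y) ≤ GI q ρ (0, 0) (y - x) := by
  have hq0 : 0 < q := one_pos.trans_le hq
  refine le_trans ?_ (Pool.Agent.Helper13.OZ.G_le_GI (D := D) hq (fun e => (h0 e).le) hr x y)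
  rw [Pool.Agent.Helper13.OZ.G_eq hq0, pr_eq hq0]
  exact sq.pr_mono hq0 (fun e _ => (h0 e).le) fun a _ h => (conn_iff a x y).1 h.2

/-- (FK7) The infinite-volume two-point function is supermultiplicative. -/
theorem GI_mul (hq : 1 ≤ q) {ρ : ℝ} (h0 : 0 < ρ) (x y : ℤ × ℤ) :
    GI q ρ (0, 0) x * GI q ρ (0, 0) y ≤ GI q ρ (0, 0) (x + y) :=
  Pool.Agent.Helper13.OZ.GI_mul hq h0.le x y

/-- (FK8) Symmetries of the two-point function. -/
theorem GI_symm (hq : 1 ≤ q) {ρ : ℝ} (h0 : 0 < ρ) (a b : ℤ) :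
    GI q ρ (0, 0) (a, -b) = GI q ρ (0, 0) (a, b) ∧ GI q ρ (0, 0) (-a, b) = GI q ρ (0, 0) (a, b) ∧
      GI q ρ (0, 0) (b, a) = GI q ρ (0, 0) (a, b) := Pool.Agent.Helper13.OZ.GI_symm hq ρ a b

/-- In the box all vertices are connected if all edges are open. -/
theorem box_conn {N : ℕ} {x : ℤ × ℤ} (hx : x ∈ box N) : sq.Cn (edges (box N)) (0, 0) x := by
  have hor : ∀ k : ℕ, (k : ℤ) ≤ N → sq.Cn (edges (box N)) (0, 0) ((k : ℤ), 0) ∧
      sq.Cn (edges (box N)) (0, 0) (-(k : ℤ), 0) := by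
    intro k
    induction k with
    | zero => intro _; exact ⟨by simpa using sq.cn_refl _ _, by simpa using sq.cn_refl _ _⟩
    | succ k ih =>
      intro hk
      have hk' : (k : ℤ) ≤ N := by push_cast at hk; linarith
      obtain ⟨i1, i2⟩ := ih hk'
      have hkk : (k : ℤ) + 1 ≤ N := by push_cast at hk; linarith
      have hk0 : (0 : ℤ) ≤ k := Int.natCast_nonneg k
      constructor
      · have he : (((k : ℤ), (0 : ℤ)), true) ∈ edges (box N) := by
          rw [mem_edges, Pool.Agent.Helper13.OZ.mem_box, Pool.Agent.Helper13.OZ.mem_box]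
          simp only [tip, if_true, abs_zero]
          rw [abs_of_nonneg hk0, abs_of_nonneg (by linarith : (0 : ℤ) ≤ (k : ℤ) + 1)]
          exact ⟨⟨hk', by linarith⟩, hkk, by linarith⟩
        have := sq.cn_edge he
        have e2 : sq.t (((k : ℤ), (0 : ℤ)), true) = (((k + 1 : ℕ) : ℤ), 0) := by
          change tip (((k : ℤ), (0 : ℤ)), true) = _
          simp [tip]
        rw [e2] at this
        exact sq.cn_trans i1 this
      · have he : ((-(k : ℤ) - 1, (0 : ℤ)), true) ∈ edges (box N) := by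
          rw [mem_edges, Pool.Agent.Helper13.OZ.mem_box, Pool.Agent.Helper13.OZ.mem_box]
          simp only [tip, if_true, abs_zero]
          have e3 : -(k : ℤ) - 1 = -((k : ℤ) + 1) := by ring
          have e4 : -(k : ℤ) - 1 + 1 = -(k : ℤ) := by ring
          rw [e4, e3, abs_neg, abs_neg, abs_of_nonneg hk0, abs_of_nonneg (by linarith : (0 : ℤ) ≤ (k : ℤ) + 1)]
          exact ⟨⟨hkk, by linarith⟩, hk', by linarith⟩
        have := sq.cn_edge he
        have e2 : sq.t ((-(k : ℤ) - 1, (0 : ℤ)), true) = (-(k : ℤ), 0) := by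
          change tip ((-(k : ℤ) - 1, (0 : ℤ)), true) = _
          simp [tip]
        have e5 : sq.s ((-(k : ℤ) - 1, (0 : ℤ)), true) = (-((k + 1 : ℕ) : ℤ), 0) := by
          change ((-(k : ℤ) - 1, (0 : ℤ)) : ℤ × ℤ) = _
          push_cast
          ext
          · simp; ring
          · rfl
        rw [e2, e5] at this
        exact sq.cn_trans i2 (sq.cn_symm this)
  have ver : ∀ a : ℤ, |a| ≤ N → ∀ k : ℕ, (k : ℤ) ≤ N → sq.Cn (edges (box N)) (a, 0) (a, (k : ℤ)) ∧
      sq.Cn (edges (box N)) (a, 0) (a, -(k : ℤ)) := by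
    intro a ha k
    induction k with
    | zero => intro _; exact ⟨by simpa using sq.cn_refl _ _, by simpa using sq.cn_refl _ _⟩
    | succ k ih =>
      intro hk
      have hk' : (k : ℤ) ≤ N := by push_cast at hk; linarith
      obtain ⟨i1, i2⟩ := ih hk'
      have hkk : (k : ℤ) + 1 ≤ N := by push_cast at hk; linarith
      have hk0 : (0 : ℤ) ≤ k := Int.natCast_nonneg k
      constructor
      · have he : ((a, (k : ℤ)), false) ∈ edges (box N) := by
          rw [mem_edges, Pool.Agent.Helper13.OZ.mem_box, Pool.Agent.Helper13.OZ.mem_box]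
          simp only [tip, Bool.false_eq_true, if_false]
          rw [abs_of_nonneg hk0, abs_of_nonneg (by linarith : (0 : ℤ) ≤ (k : ℤ) + 1)]
          exact ⟨⟨ha, hk'⟩, ha, hkk⟩
        have := sq.cn_edge he
        have e2 : sq.t ((a, (k : ℤ)), false) = (a, ((k + 1 : ℕ) : ℤ)) := by
          change tip ((a, (k : ℤ)), false) = _
          simp [tip]
        rw [e2] at this
        exact sq.cn_trans i1 this
      · have he : ((a, -(k : ℤ) - 1), false) ∈ edges (box N) := by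
          rw [mem_edges, Pool.Agent.Helper13.OZ.mem_box, Pool.Agent.Helper13.OZ.mem_box]
          simp only [tip, Bool.false_eq_true, if_false]
          have e3 : -(k : ℤ) - 1 = -((k : ℤ) + 1) := by ring
          have e4 : -(k : ℤ) - 1 + 1 = -(k : ℤ) := by ring
          rw [e4, e3, abs_neg, abs_neg, abs_of_nonneg hk0, abs_of_nonneg (by linarith : (0 : ℤ) ≤ (k : ℤ) + 1)]
          exact ⟨⟨ha, hkk⟩, ha, hk'⟩
        have := sq.cn_edge he
        have e2 : sq.t ((a, -(k : ℤ) - 1), false) = (a, -(k : ℤ)) := by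
          change tip ((a, -(k : ℤ) - 1), false) = _
          simp [tip]
        have e5 : sq.s ((a, -(k : ℤ) - 1), false) = (a, -((k + 1 : ℕ) : ℤ)) := by
          change ((a, -(k : ℤ) - 1) : ℤ × ℤ) = _
          push_cast
          ext
          · rfl
          · simp; ring
        rw [e2, e5] at this
        exact sq.cn_trans i2 (sq.cn_symm this)
  rw [Pool.Agent.Helper13.OZ.mem_box] at hx
  obtain ⟨a, b⟩ := x
  have h1 : sq.Cn (edges (box N)) (0, 0) (a, 0) := by
    have := hor a.natAbs (by rw [Int.natCast_natAbs]; exact hx.1)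
    rw [Int.natCast_natAbs] at this
    rcases abs_choice a with h | h
    · rw [h] at this; exact this.1
    · rw [h, neg_neg] at this; exact this.2
  have h2 : sq.Cn (edges (box N)) (a, 0) (a, b) := by
    have := ver a hx.1 b.natAbs (by rw [Int.natCast_natAbs]; exact hx.2)
    rw [Int.natCast_natAbs] at this
    rcases abs_choice b with h | h
    · rw [h] at this; exact this.1
    · rw [h, neg_neg] at this; exact this.2
  exact sq.cn_trans h1 h2

/-- (FK9) The infinite-volume two-point function is positive and at most one. -/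
theorem GI_pos (hq : 1 ≤ q) {ρ : ℝ} (h0 : 0 < ρ) (x : ℤ × ℤ) :
    0 < GI q ρ (0, 0) x ∧ GI q ρ (0, 0) x ≤ 1 := by
  have hq0 : 0 < q := one_pos.trans_le hq
  constructor
  · obtain ⟨N, hN⟩ := Pool.Agent.Helper13.OZ.sub_box {x}
    refine lt_of_lt_of_le ?_ (Pool.Agent.Helper13.OZ.G_le_sup hq h0.le N _ _)
    rw [Pool.Agent.Helper13.OZ.G_eq hq0, sq.pr_eq]
    refine div_pos ?_ (sq.Z_pos q _ hq0 fun e _ => h0.le)
    refine Finset.sum_pos' (fun a _ => mul_nonneg (sq.w_pos q _ hq0 fun e _ => h0).le (ind_nonneg _)) ?_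
    refine ⟨edges (box N), Finset.mem_powerset.2 (Finset.Subset.refl _), ?_⟩
    rw [ind_pos (box_conn (hN (Finset.mem_singleton_self x))), mul_one]
    exact sq.w_pos q _ hq0 fun e _ => h0
  · exact Pool.Agent.Helper13.OZ.GI_le fun N => Pool.Agent.Helper13.OZ.G_le_one hq (fun _ => h0.le) _ _

/-- (FK10) Finite energy: changing at most `k` edges. -/
theorem wt_energy (hq : 1 ≤ q) {a b : ℝ} (ha : 0 < a) (hab : ∀ e, a ≤ r e ∧ r e ≤ b)
    {ω ω' : Finset Edge} (h : ω ⊆ edges D) (h' : ω' ⊆ edges D) {k : ℕ}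
    (hk : (ω \ ω' ∪ ω' \ ω).card ≤ k) :
    (min 1 (min (a / q) (1 / b))) ^ k * wt q r D ω ≤ wt q r D ω' := by
  have hq0 : 0 < q := one_pos.trans_le hq
  have hb : 0 < b := (ha.trans_le (hab ((0, 0), true)).1).trans_le (hab ((0, 0), true)).2
  rw [wt_eq hq0 h, wt_eq hq0 h']
  have := sq.w_energy_pow hq ha hb hab k ω ω' hk
  calc _ = q ^ D.card * ((min 1 (min (a / q) (1 / b))) ^ k * sq.w q r ω) := by ring
    _ ≤ _ := mul_le_mul_of_nonneg_left this (pow_nonneg hq0.le _)

/-- (FK11) Probabilities are nonnegative, monotone and subadditive. -/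
theorem pr_union (hq : 1 ≤ q) (h0 : ∀ e, 0 < r e) {ι : Type*} (I : Finset ι) {A : Finset Edge → Prop}
    {B : ι → Finset Edge → Prop} (h : ∀ ω ⊆ edges D, A ω → ∃ i ∈ I, B i ω) :
    pr q r D A ≤ ∑ i ∈ I, pr q r D (B i) := by
  have hq0 : 0 < q := one_pos.trans_le hq
  rw [pr_eq hq0, Finset.sum_congr rfl fun i _ => pr_eq hq0 (B i)]
  unfold Pool.Agent.Helper13.OZ.Gr.pr Pool.Agent.Helper13.OZ.Gr.ex
  rw [← Finset.sum_div]
  refine div_le_div_of_nonneg_right ?_ (sq.Z_pos q _ hq0 fun e _ => (h0 e).le).le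
  rw [Finset.sum_comm]
  refine Finset.sum_le_sum fun a ha => ?_
  rw [← Finset.mul_sum]
  refine mul_le_mul_of_nonneg_left ?_ (sq.w_pos q _ hq0 fun e _ => h0 e).le
  beta_reduce
  by_cases hA : A a
  · obtain ⟨i, hi, hB⟩ := h a (Finset.mem_powerset.1 ha) hA
    calc _ ≤ (1 : ℝ) := ind_le_one _
      _ = ind (B i a) := (ind_pos hB).symm
      _ ≤ _ := Finset.single_le_sum (f := fun i => ind (B i a)) (fun i _ => ind_nonneg _) hi
  · rw [ind_neg hA]; exact Finset.sum_nonneg fun i _ => ind_nonneg _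

/-- Horizontal lines. -/
theorem hline {ω : Finset Edge} {a b c : ℤ} (h : ∀ j, a ≤ j → j < b → ((j, c), true) ∈ ω) (i : ℤ)
    (hi : a ≤ i) (hi' : i ≤ b) : sq.Cn ω (a, c) (i, c) := by
  induction i, hi using Int.leInduction with
  | base => exact sq.cn_refl _ _
  | succ k hk ih =>
    have h1 := ih (by linarith)
    have h2 := sq.cn_edge (h k hk (by linarith))
    have e2 : sq.t ((k, c), true) = (k + 1, c) := by
      change tip ((k, c), true) = _
      simp [tip]
    rw [e2] at h2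
    exact sq.cn_trans h1 h2

/-- Vertical lines. -/
theorem vline {ω : Finset Edge} {a b c : ℤ} (h : ∀ j, a ≤ j → j < b → ((c, j), false) ∈ ω) (i : ℤ)
    (hi : a ≤ i) (hi' : i ≤ b) : sq.Cn ω (c, a) (c, i) := by
  induction i, hi using Int.leInduction with
  | base => exact sq.cn_refl _ _
  | succ k hk ih =>
    have h1 := ih (by linarith)
    have h2 := sq.cn_edge (h k hk (by linarith))
    have e2 : sq.t ((c, k), false) = (c, k + 1) := by
      change tip ((c, k), false) = _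
      simp [tip]
    rw [e2] at h2
    exact sq.cn_trans h1 h2

theorem mem_Lam {x y : ℤ × ℤ} {K : ℕ} : y ∈ Lam x K ↔
    x.1 - K ≤ y.1 ∧ y.1 ≤ x.1 + K ∧ x.2 - K ≤ y.2 ∧ y.2 ≤ x.2 + K := by
  unfold Lam
  rw [Finset.mem_product, Finset.mem_Icc, Finset.mem_Icc, and_assoc]

/-- The ring around a box is connected outside the box. -/
theorem ring_conn (x : ℤ × ℤ) (s : ℕ) {v : ℤ × ℤ} (hv : v ∈ Lam x (s + 1)) (hv' : v ∉ Lam x s) :
    sq.Cn (edges (Lam x (s + 1)) \ edges (Lam x s)) (x.1 + (s + 1), x.2 + (s + 1)) v := by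
  set ω := edges (Lam x (s + 1)) \ edges (Lam x s) with hω
  have hs : (0 : ℤ) ≤ s := Int.natCast_nonneg s
  have mem : ∀ e : Edge, e.1 ∈ Lam x (s + 1) → tip e ∈ Lam x (s + 1) → e.1 ∉ Lam x s → e ∈ ω := by
    intro e h1 h2 h3
    rw [hω, Finset.mem_sdiff, mem_edges, mem_edges]
    exact ⟨⟨h1, h2⟩, fun h => h3 h.1⟩
  obtain ⟨x1, x2⟩ := x
  -- the four sides
  have hor : ∀ c, (c = x2 + (s + 1) ∨ c = x2 - (s + 1)) → ∀ i, x1 - (s + 1) ≤ i → i ≤ x1 + (s + 1) →
      sq.Cn ω (x1 - (s + 1), c) (i, c) := by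
    intro c hc i h1 h2
    refine hline (fun j hj hj' => mem _ ?_ ?_ ?_) i h1 h2
    · rw [mem_Lam]; push_cast; rcases hc with rfl | rfl <;> (refine ⟨?_, ?_, ?_, ?_⟩ <;> linarith)
    · rw [mem_Lam]; simp only [tip, if_true]; push_cast
      rcases hc with rfl | rfl <;> (refine ⟨?_, ?_, ?_, ?_⟩ <;> linarith)
    · rw [mem_Lam]; dsimp only; rcases hc with rfl | rfl <;> (rintro ⟨_, _, h3, h4⟩; linarith)
  have ver : ∀ c, (c = x1 + (s + 1) ∨ c = x1 - (s + 1)) → ∀ i, x2 - (s + 1) ≤ i → i ≤ x2 + (s + 1) →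
      sq.Cn ω (c, x2 - (s + 1)) (c, i) := by
    intro c hc i h1 h2
    refine vline (fun j hj hj' => mem _ ?_ ?_ ?_) i h1 h2
    · rw [mem_Lam]; push_cast; rcases hc with rfl | rfl <;> (refine ⟨?_, ?_, ?_, ?_⟩ <;> linarith)
    · rw [mem_Lam]; simp only [tip, Bool.false_eq_true, if_false]; push_cast
      rcases hc with rfl | rfl <;> (refine ⟨?_, ?_, ?_, ?_⟩ <;> linarith)
    · rw [mem_Lam]; dsimp only; rcases hc with rfl | rfl <;> (rintro ⟨h3, h4, _, _⟩; linarith)
  have s1 : sq.Cn ω (x1 + (s + 1), x2 + (s + 1)) (x1 - (s + 1), x2 + (s + 1)) :=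
    sq.cn_symm (hor _ (Or.inl rfl) _ (by linarith) le_rfl)
  have s2 : sq.Cn ω (x1 - (s + 1), x2 + (s + 1)) (x1 - (s + 1), x2 - (s + 1)) :=
    sq.cn_symm (ver _ (Or.inr rfl) _ (by linarith) le_rfl)
  have s3 : sq.Cn ω (x1 - (s + 1), x2 - (s + 1)) (x1 + (s + 1), x2 - (s + 1)) :=
    hor _ (Or.inr rfl) _ (by linarith) le_rfl
  obtain ⟨v1, v2⟩ := v
  rw [mem_Lam] at hv hv'
  push_cast at hv
  dsimp only at hv hv'
  obtain ⟨a1, a2, a3, a4⟩ := hv
  have : v1 = x1 + (s + 1) ∨ v1 = x1 - (s + 1) ∨ v2 = x2 + (s + 1) ∨ v2 = x2 - (s + 1) := by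
    by_contra hcon
    push Not at hcon
    obtain ⟨b1, b2, b3, b4⟩ := hcon
    apply hv'
    refine ⟨?_, ?_, ?_, ?_⟩ <;> omega
  rcases this with rfl | rfl | rfl | rfl
  · exact sq.cn_trans s1 (sq.cn_trans s2 (sq.cn_trans s3 (ver _ (Or.inl rfl) _ a3 a4)))
  · exact sq.cn_trans s1 (sq.cn_trans s2 (ver _ (Or.inr rfl) _ a3 a4))
  · exact sq.cn_trans s1 (hor _ (Or.inl rfl) _ a1 a2)
  · exact sq.cn_trans s1 (sq.cn_trans s2 (hor _ (Or.inr rfl) _ a1 a2))

/-- The arm event depends only on the edges of the box. -/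
theorem arm_dep {s : ℕ} {x : ℤ × ℤ} {ω ω' : Finset Edge} (h : ω ∩ edges (Lam x s) = ω' ∩ edges (Lam x s)) :
    Arm s x ω ↔ Arm s x ω' := by
  unfold Arm Cin
  rw [h]

/-- The wired arm probability of the homogeneous model around `x`. -/
theorem arm_shift (hq : 1 ≤ q) {ρ : ℝ} (h0 : 0 < ρ) (s : ℕ) (x : ℤ × ℤ) :
    prO q (hom ρ) (Lam x (s + 1)) (edges (Lam x (s + 1)) \ edges (Lam x s)) (Arm s x) =
      prO q (hom ρ) (Lam (0, 0) (s + 1)) (edges (Lam (0, 0) (s + 1)) \ edges (Lam (0, 0) s)) (Arm s (0, 0)) := by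
  have hq0 : 0 < q := one_pos.trans_le hq
  have hau := Pool.Agent.Helper13.OZ.sh_aut x
  have hL : ∀ K : ℕ, (Lam (0, 0) K).map (Pool.Agent.Helper13.OZ.sh x).toEmbedding = Lam x K := by
    intro K
    ext y
    rw [Finset.mem_map]
    constructor
    · rintro ⟨z, hz, rfl⟩
      rw [mem_Lam] at hz ⊢
      change _ ≤ z.1 + x.1 ∧ z.1 + x.1 ≤ _ ∧ _ ≤ z.2 + x.2 ∧ z.2 + x.2 ≤ _
      dsimp only at hz
      refine ⟨?_, ?_, ?_, ?_⟩ <;> linarith [hz.1, hz.2.1, hz.2.2.1, hz.2.2.2]
    · intro hy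
      rw [mem_Lam] at hy
      refine ⟨(y.1 - x.1, y.2 - x.2), ?_, ?_⟩
      · rw [mem_Lam]
        dsimp only
        refine ⟨?_, ?_, ?_, ?_⟩ <;> linarith [hy.1, hy.2.1, hy.2.2.1, hy.2.2.2]
      · change (y.1 - x.1 + x.1, y.2 - x.2 + x.2) = y
        ext <;> simp
  have hE : ∀ K : ℕ, (edges (Lam (0, 0) K)).map (Pool.Agent.Helper13.OZ.shE x).toEmbedding = edges (Lam x K) := by
    intro K
    rw [Pool.Agent.Helper13.OZ.map_edges hau, hL]
  have hX : (edges (Lam (0, 0) (s + 1)) \ edges (Lam (0, 0) s)).map (Pool.Agent.Helper13.OZ.shE x).toEmbedding =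
      edges (Lam x (s + 1)) \ edges (Lam x s) := by
    rw [← hE, ← hE, ← Finset.map_sdiff]
  have e0 : (Pool.Agent.Helper13.OZ.sh x) (0, 0) = x := by
    change ((0 : ℤ) + x.1, (0 : ℤ) + x.2) = _
    ext <;> simp
  have hA : ∀ a : Finset Edge, Arm s x (a.map (Pool.Agent.Helper13.OZ.shE x).toEmbedding) ↔ Arm s (0, 0) a := by
    intro a
    unfold Arm Cin
    have h1 : a.map (Pool.Agent.Helper13.OZ.shE x).toEmbedding ∩ edges (Lam x s) =
        (a ∩ edges (Lam (0, 0) s)).map (Pool.Agent.Helper13.OZ.shE x).toEmbedding := by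
      rw [← hE, ← Finset.map_inter]
    rw [h1]
    constructor
    · rintro ⟨y, hy, hc⟩
      refine ⟨(y.1 - x.1, y.2 - x.2), ?_, ?_⟩
      · rw [← hy]; unfold nd; dsimp only
        congr 2 <;> ring
      · rw [conn_iff] at hc ⊢
        have e1 : y = (Pool.Agent.Helper13.OZ.sh x) (y.1 - x.1, y.2 - x.2) := by
          change y = (y.1 - x.1 + x.1, y.2 - x.2 + x.2)
          ext <;> simp
        rw [e1] at hc
        nth_rewrite 2 [← e0] at hc
        exact (sq.cn_map hau).1 hc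
    · rintro ⟨y, hy, hc⟩
      refine ⟨(y.1 + x.1, y.2 + x.2), ?_, ?_⟩
      · rw [← hy]; unfold nd; dsimp only
        congr 2 <;> ring
      · rw [conn_iff] at hc ⊢
        have := (sq.cn_map hau).2 hc
        rw [e0] at this
        exact this
  unfold prO
  rw [pr_eq hq0, pr_eq hq0, pr_eq hq0, pr_eq hq0, ← hE (s + 1), sq.pr_map hau, sq.pr_map hau]
  congr 1
  · refine sq.pr_congr fun a _ => ?_
    rw [hE (s + 1), ← hX, Finset.map_subset_map, hA]
  · refine sq.pr_congr fun a _ => ?_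
    rw [hE (s + 1), ← hX, Finset.map_subset_map]

/-- (FK4) Comparison of the wired arm probability with the homogeneous one. -/
theorem arm_le (hq : 1 ≤ q) {ρ : ℝ} (h0 : ∀ e, 0 < r e) (hr : ∀ e, r e ≤ ρ) {κ : ℕ → ℝ}
    (hE : ExpWith q ρ κ) {s : ℕ} (hs : 1 ≤ s) (D : Finset (ℤ × ℤ)) (x : ℤ × ℤ) :
    prO q r D (edges D \ edges (Lam x s)) (Arm s x) ≤ κ s := by
  have hq0 : 0 < q := one_pos.trans_le hq
  have hρ : 0 < ρ := (h0 ((0, 0), true)).trans_le (hr _)
  refine le_trans ?_ (hE s hs)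
  rw [← arm_shift hq hρ s x, prO_eq hq h0 Finset.sdiff_subset,
    prO_eq (r := hom ρ) hq (fun _ => hρ) Finset.sdiff_subset]
  set L := edges (Lam x s) with hL
  set X := edges D \ L with hX
  set Y := edges (Lam x (s + 1)) \ L with hY
  have hLL : L ⊆ edges (Lam x (s + 1)) := by
    refine edges_mono fun y hy => ?_
    rw [mem_Lam] at hy ⊢
    push_cast
    refine ⟨?_, ?_, ?_, ?_⟩ <;> linarith [hy.1, hy.2.1, hy.2.2.1, hy.2.2.2]
  have e1 : edges D \ X = edges D ∩ L := by
    ext e; simp only [hX, Finset.mem_sdiff, Finset.mem_inter]; tauto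
  have e2 : edges (Lam x (s + 1)) \ Y = L := by
    ext e; simp only [hY, Finset.mem_sdiff]
    exact ⟨fun h => by tauto, fun h => ⟨hLL h, fun h' => h'.2 h⟩⟩
  have dX : Disjoint L X := Finset.disjoint_sdiff
  have dY : Disjoint L Y := Finset.disjoint_sdiff
  have armX : ∀ a, a ⊆ L → ind (Arm s x (a ∪ X)) = ind (Arm s x a) := by
    intro a _
    refine ind_congr (arm_dep ?_)
    rw [Finset.union_inter_distrib_right, ← hL, (Finset.disjoint_iff_inter_eq_empty.1 dX.symm), Finset.union_empty]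
  have armY : ∀ a, a ⊆ L → ind (Arm s x (a ∪ Y)) = ind (Arm s x a) := by
    intro a _
    refine ind_congr (arm_dep ?_)
    rw [Finset.union_inter_distrib_right, ← hL, (Finset.disjoint_iff_inter_eq_empty.1 dY.symm), Finset.union_empty]
  unfold Pool.Agent.Helper13.OZ.Gr.exo
  rw [e1, e2]
  -- the odds which vanish off `D`
  let r0 : Edge → ℝ := fun e => if e ∈ edges D then r e else 0
  have c1 : ∀ F : Finset Edge → ℝ, ∑ a ∈ (edges D ∩ L).powerset, sq.w q r (a ∪ X) * F a =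
      ∑ a ∈ L.powerset, sq.w q r0 (a ∪ X) * F a := by
    intro F
    rw [← Finset.sum_subset (Finset.powerset_mono.2 (Finset.inter_subset_right : edges D ∩ L ⊆ L))]
    · refine Finset.sum_congr rfl fun a ha => ?_
      rw [sq.w_congr (r := r) (r' := r0)]
      intro e he
      have : e ∈ edges D := by
        rcases Finset.mem_union.1 he with h | h
        · exact (Finset.mem_inter.1 (Finset.mem_powerset.1 ha h)).1
        · exact (Finset.mem_sdiff.1 h).1
      exact (if_pos this).symm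
    · intro a ha ha'
      have : ∃ e ∈ a, e ∉ edges D := by
        by_contra hcon
        push Not at hcon
        exact ha' (Finset.mem_powerset.2 fun e he => Finset.mem_inter.2 ⟨hcon e he, Finset.mem_powerset.1 ha he⟩)
      obtain ⟨e, he, heD⟩ := this
      unfold Pool.Agent.Helper13.OZ.Gr.w
      rw [Finset.prod_eq_zero (Finset.mem_union_left X he) (if_neg heD), zero_div, zero_mul]
  have r00 : ∀ e, 0 ≤ r0 e := fun e => by
    change (0 : ℝ) ≤ if e ∈ edges D then r e else 0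
    split_ifs
    · exact (h0 e).le
    · exact le_refl _
  have r0ρ : ∀ e, r0 e ≤ ρ := fun e => by
    change (if e ∈ edges D then r e else 0) ≤ ρ
    split_ifs
    · exact hr e
    · exact hρ.le
  have key := sq.wired_le (D := L) (X := X) (Y := Y) (r := r0) (r' := hom ρ) hq dX dY
    (fun e _ => r00 e) (fun e _ => hρ.le) (fun e _ => r0ρ e) (by
      intro a b e hab hb heL hc
      -- the classes of `b ∪ Y`, all the vertices off the box in one class
      let v0 : ℤ × ℤ := (x.1 + (s + 1), x.2 + (s + 1))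
      let f : ℤ × ℤ → Set (ℤ × ℤ) := fun v => if v ∈ Lam x s then {u | sq.Cn (b ∪ Y) v u} else {u | sq.Cn (b ∪ Y) v0 u}
      have cl : ∀ u v, sq.Cn (b ∪ Y) u v → {z | sq.Cn (b ∪ Y) u z} = {z | sq.Cn (b ∪ Y) v z} := by
        intro u v h
        ext z
        exact ⟨fun h' => sq.cn_trans (sq.cn_symm h) h', fun h' => sq.cn_trans h h'⟩
      have ring : ∀ u v, u ∈ Lam x s → v ∉ Lam x s → v ∈ Lam x (s + 1) → sq.Cn Y u v →
          {z | sq.Cn (b ∪ Y) u z} = {z | sq.Cn (b ∪ Y) v0 z} := by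
        intro u v _ hv hv' huv
        refine cl _ _ (sq.cn_trans (sq.cn_mono Finset.subset_union_right huv) (sq.cn_symm ?_))
        exact sq.cn_mono Finset.subset_union_right (ring_conn x s hv' hv)
      have adj : ∀ e' : Edge, (e'.1 ∈ Lam x s ∨ tip e' ∈ Lam x s) → e'.1 ∈ Lam x (s + 1) ∧ tip e' ∈ Lam x (s + 1) := by
        rintro ⟨⟨a1, a2⟩, c⟩ h
        simp only [mem_Lam, tip] at h ⊢
        push_cast
        cases c
        · simp only [Bool.false_eq_true, if_false] at h ⊢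
          rcases h with ⟨h1, h2, h3, h4⟩ | ⟨h1, h2, h3, h4⟩ <;>
            exact ⟨⟨by linarith, by linarith, by linarith, by linarith⟩, by linarith, by linarith, by linarith, by linarith⟩
        · simp only [if_true] at h ⊢
          rcases h with ⟨h1, h2, h3, h4⟩ | ⟨h1, h2, h3, h4⟩ <;>
            exact ⟨⟨by linarith, by linarith, by linarith, by linarith⟩, by linarith, by linarith, by linarith, by linarith⟩
      have hf : ∀ e' ∈ a ∪ X, f (sq.s e') = f (sq.t e') := by
        intro e' he'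
        change f e'.1 = f (tip e')
        by_cases h1 : e'.1 ∈ Lam x s
        · by_cases h2 : tip e' ∈ Lam x s
          · -- an edge of the box: it belongs to `a`
            have h3 : e' ∈ L := by rw [hL, mem_edges]; exact ⟨h1, h2⟩
            have h4 : e' ∈ a := by
              rcases Finset.mem_union.1 he' with h | h
              · exact h
              · exact absurd h3 (Finset.mem_sdiff.1 h).2
            simp only [f, if_pos h1, if_pos h2]
            exact cl _ _ (sq.cn_edge (Finset.mem_union_left _ (hab h4)))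
          · simp only [f, if_pos h1, if_neg h2]
            have h5 := adj e' (Or.inl h1)
            refine ring _ _ h1 h2 h5.2 (sq.cn_edge ?_)
            rw [hY, Finset.mem_sdiff, mem_edges, hL, mem_edges]
            exact ⟨h5, fun h => h2 h.2⟩
        · by_cases h2 : tip e' ∈ Lam x s
          · simp only [f, if_neg h1, if_pos h2]
            have h5 := adj e' (Or.inr h2)
            symm
            refine ring _ _ h2 h1 h5.1 (sq.cn_symm (sq.cn_edge ?_))
            rw [hY, Finset.mem_sdiff, mem_edges, hL, mem_edges]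
            exact ⟨h5, fun h => h1 h.1⟩
          · simp only [f, if_neg h1, if_neg h2]
      have hfe := sq.cn_inv hc f hf
      rw [hL, mem_edges] at heL
      have e3 : f (sq.s e) = {u | sq.Cn (b ∪ Y) (sq.s e) u} := if_pos heL.1
      have e4 : f (sq.t e) = {u | sq.Cn (b ∪ Y) (sq.t e) u} := if_pos heL.2
      rw [e3, e4] at hfe
      have : sq.t e ∈ {u | sq.Cn (b ∪ Y) (sq.t e) u} := sq.cn_refl _ _
      rw [← hfe] at this
      exact this)
    (F := fun a => ind (Arm s x a)) (by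
      intro a b hab _
      refine ind_mono ?_
      rintro ⟨y, hy, hc⟩
      refine ⟨y, hy, ?_⟩
      unfold Cin at hc ⊢
      rw [conn_iff] at hc ⊢
      exact sq.cn_mono (Finset.inter_subset_inter_right hab) hc)
  have d1 : ∑ a ∈ (edges D ∩ L).powerset, sq.w q r (a ∪ X) * ind (Arm s x (a ∪ X)) =
      ∑ a ∈ L.powerset, sq.w q r0 (a ∪ X) * ind (Arm s x a) := by
    rw [← c1]
    exact Finset.sum_congr rfl fun a ha => by
      rw [armX a ((Finset.mem_powerset.1 ha).trans Finset.inter_subset_right)]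
  have d2 : ∑ a ∈ (edges D ∩ L).powerset, sq.w q r (a ∪ X) = ∑ a ∈ L.powerset, sq.w q r0 (a ∪ X) := by
    have := c1 fun _ => 1
    simpa only [mul_one] using this
  have d3 : ∑ a ∈ L.powerset, sq.w q (hom ρ) (a ∪ Y) * ind (Arm s x (a ∪ Y)) =
      ∑ a ∈ L.powerset, sq.w q (hom ρ) (a ∪ Y) * ind (Arm s x a) :=
    Finset.sum_congr rfl fun a ha => by rw [armY a (Finset.mem_powerset.1 ha)]
  rw [d1, d2, d3]
  have p1 : 0 < ∑ a ∈ L.powerset, sq.w q r0 (a ∪ X) := by
    rw [← d2]; exact sq.sum_w_pos hq0 h0 _ _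
  have p2 : 0 < ∑ a ∈ L.powerset, sq.w q (hom ρ) (a ∪ Y) := sq.sum_w_pos hq0 (fun _ => hρ) _ _
  rw [div_le_div_iff₀ p1 p2]
  calc _ ≤ _ := key
    _ = _ := mul_comm _ _

/-- (FK5) Exploration. If every free probability of `E` is at most `M`, then `E` and no vertex of `B` is
connected to `D ∖ B'` has at most `M` times the probability, given that all edges not inside `B'` are
open; `E` depends only on the edges inside `B ⊆ B'`. -/
theorem explore (hq : 1 ≤ q) (h0 : ∀ e, 0 < r e) {B B' : Finset (ℤ × ℤ)} (hB : B ⊆ B')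
    {E : Finset Edge → Prop} (hE : Dep D (edges B) E) {M : ℝ}
    (hM : ∀ U ⊆ D, pr q r U E ≤ M) :
    prO q r D (edges D \ edges B')
      (fun ω => (∀ x ∈ D, x ∉ B' → ∀ y ∈ B, ¬Conn ω x y) ∧ E ω) ≤
    M * prO q r D (edges D \ edges B')
      (fun ω => ∀ x ∈ D, x ∉ B' → ∀ y ∈ B, ¬Conn ω x y) := by
  have hq0 : 0 < q := one_pos.trans_le hq
  set X := edges D \ edges B' with hX
  let S : Set (ℤ × ℤ) := {x | x ∈ D ∧ x ∉ B'}
  let T : Set (ℤ × ℤ) := {x | x ∈ B}
  have hN : ∀ ω : Finset Edge, (∀ x ∈ D, x ∉ B' → ∀ y ∈ B, ¬Conn ω x y) ↔ ¬ sq.Jn S T ω := by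
    intro ω
    unfold Pool.Agent.Helper13.OZ.Gr.Jn
    constructor
    · rintro h ⟨x, hx, y, hy, hc⟩
      exact h x hx.1 hx.2 y hy ((conn_iff _ _ _).2 hc)
    · intro h x hx hx' y hy hc
      exact h ⟨x, ⟨hx, hx'⟩, y, hy, (conn_iff _ _ _).1 hc⟩
  unfold prO
  rw [← mul_div_assoc]
  have hpos : 0 < pr q r D (fun ω => X ⊆ ω) := by
    rw [pr_eq hq0, sq.pr_eq]
    refine div_pos ?_ (sq.Z_pos q _ hq0 fun e _ => (h0 e).le)
    refine Finset.sum_pos' (fun a _ => mul_nonneg (sq.w_pos q _ hq0 fun e _ => h0 e).le (ind_nonneg _)) ?_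
    refine ⟨edges D, Finset.mem_powerset.2 (Finset.Subset.refl _), ?_⟩
    rw [ind_pos Finset.sdiff_subset, mul_one]
    exact sq.w_pos q _ hq0 fun e _ => h0 e
  refine div_le_div_of_nonneg_right ?_ hpos.le
  rw [pr_eq hq0, pr_eq hq0, sq.pr_eq, sq.pr_eq, ← mul_div_assoc]
  refine div_le_div_of_nonneg_right ?_ (sq.Z_pos q _ hq0 fun e _ => (h0 e).le).le
  rw [sq.explore q r (edges D) S, sq.explore q r (edges D) S, Finset.mul_sum]
  beta_reduce
  refine Finset.sum_le_sum fun K hK => ?_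
  rw [Finset.mem_filter, Finset.mem_powerset] at hK
  rw [mul_left_comm]
  refine mul_le_mul_of_nonneg_left ?_ (sq.w_pos q _ hq0 fun e _ => h0 e).le
  set R := sq.del (edges D) (S ∪ sq.vs K) with hR
  have hRD : R ⊆ edges D := sq.del_sub
  -- the part off `K` is a domain
  let U : Finset (ℤ × ℤ) := D.filter fun x => x ∉ S ∪ sq.vs K
  have hU : edges U = R := by
    ext e
    rw [mem_edges, hR, sq.mem_del, mem_edges, Finset.mem_filter, Finset.mem_filter]
    change (e.1 ∈ D ∧ _) ∧ _ ∧ _ ↔ (e.1 ∈ D ∧ tip e ∈ D) ∧ e.1 ∉ _ ∧ tip e ∉ _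
    tauto
  by_cases hc : X ⊆ K ∧ Disjoint (S ∪ sq.vs K) T
  · have f1 : ∀ b ∈ R.powerset, ind (X ⊆ K ∪ b ∧ (∀ x ∈ D, x ∉ B' → ∀ y ∈ B, ¬Conn (K ∪ b) x y)) = 1 := by
      intro b hb
      rw [Finset.mem_powerset] at hb
      refine ind_pos ⟨hc.1.trans Finset.subset_union_left, ?_⟩
      rw [hN, sq.jn_iff (Finset.Subset.refl _), sq.cl_union hK.2 hb]
      exact hc.2
    have f2 : ∀ b ∈ R.powerset, ind (X ⊆ K ∪ b ∧ (∀ x ∈ D, x ∉ B' → ∀ y ∈ B, ¬Conn (K ∪ b) x y) ∧ E (K ∪ b)) =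
        ind (E b) := by
      intro b hb
      have hb' := Finset.mem_powerset.1 hb
      have h1 : E (K ∪ b) ↔ E b := by
        refine hE _ (Finset.union_subset hK.1 (hb'.trans hRD)) _ (hb'.trans hRD) ?_
        ext e
        simp only [Finset.mem_inter, Finset.mem_union]
        constructor
        · rintro ⟨h2 | h2, h3⟩
          · rw [mem_edges] at h3
            exact absurd h3.1 (Set.disjoint_left.1 hc.2 (Or.inr (sq.vs_s h2)))
          · exact ⟨h2, h3⟩
        · rintro ⟨h2, h3⟩; exact ⟨Or.inr h2, h3⟩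
      rw [← and_assoc, ind_and, f1 b hb, one_mul, ind_congr h1]
    have g1 : ∑ b ∈ R.powerset, sq.w q r b *
        ind (X ⊆ K ∪ b ∧ (∀ x ∈ D, x ∉ B' → ∀ y ∈ B, ¬Conn (K ∪ b) x y) ∧ E (K ∪ b)) =
        ∑ b ∈ R.powerset, sq.w q r b * ind (E b) :=
      Finset.sum_congr rfl fun b hb => by rw [f2 b hb]
    have g2 : ∑ b ∈ R.powerset, sq.w q r b *
        ind (X ⊆ K ∪ b ∧ (∀ x ∈ D, x ∉ B' → ∀ y ∈ B, ¬Conn (K ∪ b) x y)) = sq.Z q r R :=
      Finset.sum_congr rfl fun b hb => by rw [f1 b hb, mul_one]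
    rw [g1, g2]
    have h3 := hM U (Finset.filter_subset _ _)
    rw [pr_eq hq0, sq.pr_eq, hU, div_le_iff₀ (sq.Z_pos q _ hq0 fun e _ => (h0 e).le)] at h3
    exact h3
  · have f3 : ∀ b ∈ R.powerset, ¬ (X ⊆ K ∪ b ∧ (∀ x ∈ D, x ∉ B' → ∀ y ∈ B, ¬Conn (K ∪ b) x y)) := by
      intro b hb h
      rw [Finset.mem_powerset] at hb
      apply hc
      constructor
      · intro e he
        rcases Finset.mem_union.1 (h.1 he) with h1 | h1
        · exact h1
        · exfalso
          have h2 := (sq.mem_del).1 (hb h1)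
          rw [hX, Finset.mem_sdiff, mem_edges, mem_edges] at he
          have h3 : e.1 ∉ B' ∨ tip e ∉ B' := by tauto
          rcases h3 with h3 | h3
          · exact h2.2.1 (Or.inl ⟨he.1.1, h3⟩)
          · exact h2.2.2 (Or.inl ⟨he.1.2, h3⟩)
      · have h2 := h.2
        rw [hN, sq.jn_iff (Finset.Subset.refl _), sq.cl_union hK.2 hb] at h2
        exact h2
    rw [Finset.sum_eq_zero, Finset.sum_eq_zero, mul_zero]
    · intro b hb; rw [ind_neg (f3 b hb), mul_zero]
    · intro b hb; rw [ind_neg (fun h => f3 b hb ⟨h.1, h.2.1⟩), mul_zero]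

end Pool.Helper17.OZ
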