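import Pool.Agent.Helper17.OZ.Main

/-! Link with the hypothesis `ExpW` of `Helper49.FK.Defs`, and the mass gap in that form. -/

namespace Pool.Helper17.OZ

open Pool.Helper49.FK

theorem lam_eq (x : ℤ × ℤ) (s : ℕ) : Lam x s = bx x s := rfl

theorem lam_zero (s : ℕ) : Lam (0, 0) s = box s := by
  unfold Lam box
  simp

theorem nd_comm (x y : ℤ × ℤ) : nd x y = nd y x := by
  unfold nd
  rw [abs_sub_comm x.1, abs_sub_comm x.2]

theorem arm_iff (s : ℕ) (x : ℤ × ℤ) (ω : Finset Edge) : Arm s x ω ↔ Pool.Helper49.FK.Arm s x ω := by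
  unfold Arm Pool.Helper49.FK.Arm Cin nd
  rw [lam_eq]
  constructor
  · rintro ⟨y, h1, h2⟩
    rw [abs_sub_comm x.1, abs_sub_comm x.2] at h1
    have ha : |y.1 - x.1| ≤ s := by rw [← h1]; exact le_max_left _ _
    have hb : |y.2 - x.2| ≤ s := by rw [← h1]; exact le_max_right _ _
    refine ⟨y, ?_, ?_, h2⟩
    · rw [abs_le] at ha hb
      unfold bx
      rw [Finset.mem_product, Finset.mem_Icc, Finset.mem_Icc]
      omega
    · rcases max_choice |y.1 - x.1| |y.2 - x.2| with h | h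
      · left; rw [← h, h1]
      · right; rw [← h, h1]
  · rintro ⟨y, hy, h1, h2⟩
    refine ⟨y, ?_, h2⟩
    unfold bx at hy
    rw [Finset.mem_product, Finset.mem_Icc, Finset.mem_Icc] at hy
    rw [abs_sub_comm x.1, abs_sub_comm x.2]
    have ha : |y.1 - x.1| ≤ s := by rw [abs_le]; omega
    have hb : |y.2 - x.2| ≤ s := by rw [abs_le]; omega
    rcases h1 with h | h
    · rw [h]; exact max_eq_left hb
    · rw [h]; exact max_eq_right ha

theorem expW_link {q r : ℝ} (hq : 1 ≤ q) (hr : 0 < r) (h : Pool.Helper49.FK.ExpW q r) : ExpW q r := by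
  obtain ⟨c, C, hc, hC, h⟩ := h
  refine ⟨c, C, hc, hC, fun s _ => ?_⟩
  unfold prO
  have h1 := h s
  unfold ring at h1
  rw [lam_zero, lam_zero]
  have hA : Arm s (0, 0) = Pool.Helper49.FK.Arm s (0, 0) := by
    funext ω
    exact propext (arm_iff s (0, 0) ω)
  rw [hA]
  have h0 : 0 ≤ pr q (hom r) (box (s + 1)) (fun ω => edges (box (s + 1)) \ edges (box s) ⊆ ω) := by
    unfold pr ex Z
    refine div_nonneg (Finset.sum_nonneg fun ω _ => mul_nonneg (wt_nonneg' hq (fun _ => hr) _ ω).le ?_)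
      (Finset.sum_nonneg fun ω _ => (wt_nonneg' hq (fun _ => hr) _ ω).le)
    dsimp only
    split_ifs <;> norm_num
  exact div_le_of_le_mul₀ h0 (by positivity) h1

/-- MASS GAP, with the hypothesis of `Helper49.FK.Defs`. -/
theorem mass_gap' {q : ℝ} (hq : 1 ≤ q) {α β : ℝ} (hα : 0 < α) (hαβ : α ≤ β) (hE : Pool.Helper49.FK.ExpW q β) :
    ∃ C c : ℝ, 0 < C ∧ 0 < c ∧ ∀ (r : Edge → ℝ), (∀ e, α ≤ r e ∧ r e ≤ β) → ∀ a b c' d : ℤ, ∀ u w : ℤ × ℤ,
      u ∈ rect a b c' d → w ∈ rect a b c' d → u.1 < w.1 →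
      pr q r (rect a b c' d) (fun ω => Conn ω u w ∧ NoCP (clu (rect a b c' d) ω u) u w) ≤
        C * Real.exp (-(tau q β + c) * ((w.1 : ℝ) - u.1)) :=
  mass_gap hq hα hαβ (expW_link hq (lt_of_lt_of_le hα hαβ) hE)

end Pool.Helper17.OZ
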