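import Pool.Agent.Helper17.OZ.Defs

/-! Block OZ-L2-C4. -/

namespace Pool.Helper17.OZ

open Pool.Helper49.FK

private theorem ev69 (n : ℕ) {a M : ℝ} (ha : 0 < a) (hM : 0 < M) :
    ∀ᶠ k : ℕ in Filter.atTop, M * (k : ℝ) ^ n * Real.exp (-(a * k)) ≤ 1 / 2 := by
  have h1 : Filter.Tendsto (fun k : ℕ => a * (k : ℝ)) Filter.atTop Filter.atTop :=
    tendsto_natCast_atTop_atTop.const_mul_atTop ha
  have h2 := (Real.tendsto_pow_mul_exp_neg_atTop_nhds_zero n).comp h1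
  have h3 : 0 < a ^ n / (2 * M) := by positivity
  filter_upwards [h2.eventually (gt_mem_nhds h3)] with k hk
  have hk' : (a * (k : ℝ)) ^ n * Real.exp (-(a * k)) < a ^ n / (2 * M) := hk
  have han : 0 < a ^ n := by positivity
  rw [mul_pow, lt_div_iff₀ (by positivity)] at hk'
  have h4 : a ^ n * (M * (k : ℝ) ^ n * Real.exp (-(a * k))) < a ^ n * (1 / 2) := by
    calc a ^ n * (M * (k : ℝ) ^ n * Real.exp (-(a * k)))
        = a ^ n * (k : ℝ) ^ n * Real.exp (-(a * k)) * (2 * M) / 2 := by ring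
      _ < a ^ n / 2 := by linarith
      _ = a ^ n * (1 / 2) := by ring
  exact (lt_of_mul_lt_mul_left h4 han.le).le

/-- (C3a) Choice of the constants: pure analysis. -/
theorem choice {τ c C : ℝ} (hτ : 0 < τ) (hc : 0 < c) (hC : 0 < C) :
    ∃ K s : ℕ, 1 ≤ K ∧ 4 ≤ s ∧
      (2 * K + 2 * s + 1) ^ 2 * (C * Real.exp (-c * ((s / 2 - 1 : ℕ) : ℝ))) ≤ 1 / 2 ∧
      (8 * (K + 2 * s + 1) : ℝ) ^ 2 * (16 * K * Real.exp (-τ * K)) ≤
        Real.exp (-τ * (1 - 1 / 60) * (K + 2 * s + 1)) / 2 := by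
  have hb : 0 < 61 / 15 * τ := by positivity
  obtain ⟨k, h1, h2, h3⟩ := ((ev69 2 hc (M := 965 ^ 2 * (C * Real.exp c)) (by positivity)).and
    ((ev69 3 hb (M := (8 * 485) ^ 2 * (16 * 480) * Real.exp (59 / 60 * τ)) (by positivity)).and
      (Filter.eventually_ge_atTop 2))).exists
  have hk1 : (1 : ℝ) ≤ k := by exact_mod_cast (by omega : 1 ≤ k)
  refine ⟨480 * k, 2 * k, by omega, by omega, ?_, ?_⟩
  · have e : ((2 * k / 2 - 1 : ℕ) : ℝ) = (k : ℝ) - 1 := by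
      rw [Nat.mul_div_cancel_left _ (by norm_num), Nat.cast_sub (by omega)]
      simp
    rw [e]
    have e2 : Real.exp (-c * ((k : ℝ) - 1)) = Real.exp c * Real.exp (-(c * k)) := by
      rw [← Real.exp_add]; congr 1; ring
    rw [e2]
    refine le_trans ?_ h1
    have h4 : (2 * ((480 * k : ℕ) : ℝ) + 2 * ((2 * k : ℕ) : ℝ) + 1) ^ 2 ≤ 965 ^ 2 * (k : ℝ) ^ 2 := by
      push_cast
      rw [← mul_pow]
      exact pow_le_pow_left₀ (by positivity) (by linarith) 2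
    calc (2 * ((480 * k : ℕ) : ℝ) + 2 * ((2 * k : ℕ) : ℝ) + 1) ^ 2 *
          (C * (Real.exp c * Real.exp (-(c * k))))
        ≤ 965 ^ 2 * (k : ℝ) ^ 2 * (C * (Real.exp c * Real.exp (-(c * k)))) :=
          mul_le_mul_of_nonneg_right h4 (by positivity)
      _ = 965 ^ 2 * (C * Real.exp c) * (k : ℝ) ^ 2 * Real.exp (-(c * k)) := by ring
  · have e3 : Real.exp (-τ * ((480 * k : ℕ) : ℝ)) =
        Real.exp (-(61 / 15 * τ * k)) * Real.exp (59 / 60 * τ) *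
          Real.exp (-τ * (1 - 1 / 60) * (((480 * k : ℕ) : ℝ) + 2 * ((2 * k : ℕ) : ℝ) + 1)) := by
      rw [← Real.exp_add, ← Real.exp_add]
      congr 1
      push_cast
      ring
    rw [e3]
    have h4 : (8 * (((480 * k : ℕ) : ℝ) + 2 * ((2 * k : ℕ) : ℝ) + 1)) ^ 2 * (16 * ((480 * k : ℕ) : ℝ)) ≤
        (8 * 485) ^ 2 * (16 * 480) * (k : ℝ) ^ 3 := by
      push_cast
      have h5 : (8 * (480 * (k : ℝ) + 2 * (2 * k) + 1)) ^ 2 ≤ (8 * 485 * k) ^ 2 :=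
        pow_le_pow_left₀ (by positivity) (by linarith) 2
      calc (8 * (480 * (k : ℝ) + 2 * (2 * k) + 1)) ^ 2 * (16 * (480 * k))
          ≤ (8 * 485 * k) ^ 2 * (16 * (480 * k)) := mul_le_mul_of_nonneg_right h5 (by positivity)
        _ = (8 * 485) ^ 2 * (16 * 480) * (k : ℝ) ^ 3 := by ring
    set E := Real.exp (-τ * (1 - 1 / 60) * (((480 * k : ℕ) : ℝ) + 2 * ((2 * k : ℕ) : ℝ) + 1)) with hE
    have hE0 : 0 < E := Real.exp_pos _
    calc (8 * (((480 * k : ℕ) : ℝ) + 2 * ((2 * k : ℕ) : ℝ) + 1)) ^ 2 * (16 * ((480 * k : ℕ) : ℝ) *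
          (Real.exp (-(61 / 15 * τ * k)) * Real.exp (59 / 60 * τ) * E))
        = (8 * (((480 * k : ℕ) : ℝ) + 2 * ((2 * k : ℕ) : ℝ) + 1)) ^ 2 * (16 * ((480 * k : ℕ) : ℝ)) *
          (Real.exp (-(61 / 15 * τ * k)) * Real.exp (59 / 60 * τ) * E) := by ring
      _ ≤ (8 * 485) ^ 2 * (16 * 480) * (k : ℝ) ^ 3 *
          (Real.exp (-(61 / 15 * τ * k)) * Real.exp (59 / 60 * τ) * E) :=
          mul_le_mul_of_nonneg_right h4 (by positivity)
      _ = (8 * 485) ^ 2 * (16 * 480) * Real.exp (59 / 60 * τ) * (k : ℝ) ^ 3 *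
          Real.exp (-(61 / 15 * τ * k)) * E := by ring
      _ ≤ 1 / 2 * E := mul_le_mul_of_nonneg_right h2 hE0.le
      _ = E / 2 := by ring

end Pool.Helper17.OZ
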