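import Pool.Agent.Helper17.OZ.SkC

/-! Block OZ-L2-C5. -/

namespace Pool.Helper17.OZ

open Pool.Helper49.FK

private theorem h80_conn_end {ω : Finset Edge} {x y : ℤ × ℤ} (h : Conn ω x y) (hxy : x ≠ y) :
    ∃ e ∈ ω, e.1 = x ∨ tip e = x := by
  obtain ⟨w⟩ := h
  cases w with
  | nil => exact absurd rfl hxy
  | cons hadj _ =>
    obtain ⟨e, he, h1 | h1⟩ := hadj
    · exact ⟨e, he, Or.inl h1.1⟩
    · exact ⟨e, he, Or.inr h1.2⟩

private theorem h80_nd_self (x : ℤ × ℤ) : nd x x = 0 := by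
  simp [nd]

private theorem h80_mem {K s N : ℕ} (hK : 1 ≤ K) {D : Finset (ℤ × ℤ)} {x : ℕ → ℤ × ℤ}
    {ω : Finset Edge} (hω : ω ⊆ edges D) (h : Sk K s N x ω) {i : ℕ} (hi : i ≤ N) : x i ∈ D := by
  obtain ⟨y, hy, hc⟩ := h i hi
  have hne : x i ≠ y := by
    intro he
    rw [← he, h80_nd_self] at hy
    omega
  obtain ⟨e, he, h1⟩ := h80_conn_end hc hne
  have he' := hω (Finset.mem_inter.1 he).1
  rw [edges, Finset.mem_filter, Finset.mem_product] at he'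
  rcases h1 with h1 | h1
  · rw [← h1]; exact he'.1.1
  · rw [← h1]; exact he'.2

private theorem h80_card {K s N : ℕ} (hK : 1 ≤ K) {D : Finset (ℤ × ℤ)} {x : ℕ → ℤ × ℤ} {u : ℤ × ℤ}
    {ω : Finset Edge} (hω : ω ⊆ edges D) (hc : Chain K s u N x) (h : Sk K s N x ω) :
    N < D.card := by
  have h1 : (Finset.range (N + 1)).card ≤ D.card := by
    refine Finset.card_le_card_of_injOn x (fun i hi => ?_) (fun i hi j hj hij => ?_)
    · have hi' : i ∈ Finset.range (N + 1) := hi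
      rw [Finset.mem_range] at hi'
      exact h80_mem hK hω h (by omega)
    · have hi' : i ∈ Finset.range (N + 1) := hi
      have hj' : j ∈ Finset.range (N + 1) := hj
      rw [Finset.mem_range] at hi' hj'
      by_contra hne
      rcases Nat.lt_or_gt_of_ne hne with h2 | h2
      · have := hc.far j (by omega) i h2
        rw [hij, h80_nd_self] at this
        omega
      · have := hc.far i (by omega) j h2
        rw [hij, h80_nd_self] at this
        omega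
  rw [Finset.card_range] at h1
  omega

/-- (C3) The skeleton bound: `(K, s)` from C3a, geometric series over `N` (for `ω ⊆ edges D` a chain with `Sk` and `K ≥ 1` has
all its points in `D` and different, so `N < |D|`). -/
theorem skeleton_bound {q ρ : ℝ} (hq : 1 ≤ q) {r : Edge → ℝ} (h0 : ∀ e, 0 < r e) (hr : ∀ e, r e ≤ ρ) {κ : ℕ → ℝ}
    (hE : ExpWith q ρ κ) (hτ : 0 < tau q ρ) {K s : ℕ} (hK : 1 ≤ K) (hs : 4 ≤ s)
    (hκ : (2 * K + 2 * s + 1) ^ 2 * κ (s / 2 - 1) ≤ 1 / 2)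
    (hA : (8 * (K + 2 * s + 1) : ℝ) ^ 2 * (16 * K * Real.exp (-tau q ρ * K)) ≤
      Real.exp (-tau q ρ * (1 - 1 / 60) * (K + 2 * s + 1)) / 2)
    (D : Finset (ℤ × ℤ)) (u : ℤ × ℤ) (m : ℕ) (hm : 1 ≤ m) :
    pr q r D (fun ω => ∃ (N : ℕ) (x : ℕ → ℤ × ℤ), (15 : ℝ) * m ≤ 14 * ((N : ℝ) + 1) * (K + 2 * s + 1) ∧ Chain K s u N x ∧
      Sk K s N x ω) ≤
      2 * Real.exp (tau q ρ * (K + 2 * s + 1)) * Real.exp (-tau q ρ * (1 + 1 / 20) * m) := by
  classical
  obtain ⟨R, hR⟩ : ∃ R : ℝ, R = K + 2 * s + 1 := ⟨_, rfl⟩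
  obtain ⟨τ, hτ'⟩ : ∃ τ : ℝ, τ = tau q ρ := ⟨_, rfl⟩
  rw [← hR, ← hτ'] at hA
  rw [← hτ'] at hτ
  have hR1 : 1 ≤ R := by
    rw [hR]
    have h1 : (0 : ℝ) ≤ K := Nat.cast_nonneg _
    have h2 : (0 : ℝ) ≤ s := Nat.cast_nonneg _
    linarith
  have h1 := pr_union (q := q) (r := r) (D := D) hq h0
    ((Finset.range D.card).filter fun N : ℕ => (15 : ℝ) * m ≤ 14 * ((N : ℝ) + 1) * R)
    (A := fun ω => ∃ (N : ℕ) (x : ℕ → ℤ × ℤ), (15 : ℝ) * m ≤ 14 * ((N : ℝ) + 1) * R ∧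
      Chain K s u N x ∧ Sk K s N x ω)
    (B := fun N ω => ∃ x, Chain K s u N x ∧ Sk K s N x ω)
    (by
      rintro ω hω ⟨N, x, hN, hx, hsk⟩
      refine ⟨N, ?_, x, hx, hsk⟩
      rw [Finset.mem_filter, Finset.mem_range]
      exact ⟨h80_card hK hω hx hsk, hN⟩)
  rw [← hR, ← hτ']
  refine h1.trans ?_
  have hK0 : (0 : ℝ) ≤ K := Nat.cast_nonneg _
  have ha0 : 0 ≤ 16 * K * Real.exp (-τ * K) := by positivity
  have hm0 : (0 : ℝ) ≤ m := Nat.cast_nonneg _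
  have h2 : ∀ N ∈ (Finset.range D.card).filter fun N : ℕ => (15 : ℝ) * m ≤ 14 * ((N : ℝ) + 1) * R,
      pr q r D (fun ω => ∃ x, Chain K s u N x ∧ Sk K s N x ω) ≤
        Real.exp (-τ * (1 + 1 / 20) * m) * (1 / 2) ^ (N + 1) := by
    intro N hN
    rw [Finset.mem_filter] at hN
    refine (chain_le hq h0 hr hE hK hs hκ D u N).trans ?_
    rw [← hR, ← hτ']
    have h3 : ((8 * R) ^ 2) ^ N * (16 * K * Real.exp (-τ * K)) ^ (N + 1) ≤
        ((8 * R) ^ 2 * (16 * K * Real.exp (-τ * K))) ^ (N + 1) := by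
      rw [mul_pow ((8 * R) ^ 2)]
      have hp : 0 ≤ (16 * K * Real.exp (-τ * K)) ^ (N + 1) := pow_nonneg ha0 _
      refine mul_le_mul_of_nonneg_right ?_ hp
      exact pow_le_pow_right₀ (by nlinarith) (Nat.le_succ N)
    refine h3.trans ?_
    have h4 : ((8 * R) ^ 2 * (16 * K * Real.exp (-τ * K))) ^ (N + 1) ≤
        (Real.exp (-τ * (1 - 1 / 60) * R) / 2) ^ (N + 1) :=
      pow_le_pow_left₀ (by positivity) hA _
    refine h4.trans ?_
    rw [div_eq_mul_one_div, mul_pow]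
    refine mul_le_mul_of_nonneg_right ?_ (by positivity)
    rw [← Real.exp_nat_mul]
    apply Real.exp_le_exp.2
    push_cast
    have h5 : (1 + 1 / 20) * (m : ℝ) ≤ ((N : ℝ) + 1) * ((1 - 1 / 60) * R) := by
      have := hN.2
      nlinarith
    nlinarith [mul_le_mul_of_nonneg_left h5 hτ.le]
  refine (Finset.sum_le_sum h2).trans ?_
  rw [← Finset.mul_sum, mul_comm]
  refine mul_le_mul_of_nonneg_right ?_ (Real.exp_pos _).le
  have h6 : ∑ N ∈ (Finset.range D.card).filter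
      (fun N : ℕ => (15 : ℝ) * m ≤ 14 * ((N : ℝ) + 1) * R), ((1 : ℝ) / 2) ^ (N + 1) ≤ 1 := by
    refine (Finset.sum_le_sum_of_subset_of_nonneg (Finset.filter_subset _ _)
      (fun N _ _ => by positivity)).trans ?_
    have h7 : ∀ n : ℕ, ∑ N ∈ Finset.range n, ((1 : ℝ) / 2) ^ (N + 1) = 1 - (1 / 2) ^ n := by
      intro n
      induction n with
      | zero => simp
      | succ n ih => rw [Finset.sum_range_succ, ih]; ring
    rw [h7]
    have : (0 : ℝ) ≤ (1 / 2) ^ D.card := by positivity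
    linarith
  refine h6.trans ?_
  have h8 : 1 ≤ Real.exp (τ * R) := Real.one_le_exp (by positivity)
  linarith

end Pool.Helper17.OZ
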