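import Pool.Agent.Helper17.OZ.SuE
import Pool.Agent.Helper17.OZ.Fk

/-! Block OZ-L2-F2. -/

namespace Pool.Helper17.OZ

open Pool.Helper49.FK

theorem wt_pos' {q : ℝ} (hq : 1 ≤ q) {r : Edge → ℝ} (h0 : ∀ e, 0 < r e) (D : Finset (ℤ × ℤ)) (ω : Finset Edge) :
    0 < wt q r D ω := by
  unfold wt
  exact mul_pos (Finset.prod_pos fun e _ => h0 e) (pow_pos (by linarith) _)

theorem Z_pos' {q : ℝ} (hq : 1 ≤ q) {r : Edge → ℝ} (h0 : ∀ e, 0 < r e) (D : Finset (ℤ × ℤ)) : 0 < Z q r D := by
  unfold Z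
  exact Finset.sum_pos (fun ω _ => wt_pos' hq h0 D ω) ⟨∅, by simp⟩

open Classical in
theorem pr_eq' (q : ℝ) (r : Edge → ℝ) (D : Finset (ℤ × ℤ)) (A : Finset Edge → Prop) :
    pr q r D A = (∑ ω ∈ (edges D).powerset.filter A, wt q r D ω) / Z q r D := by
  unfold pr ex
  congr 1
  rw [Finset.sum_filter]
  refine Finset.sum_congr rfl fun ω _ => ?_
  by_cases h : A ω <;> simp [h]

open Classical in
/-- (F2) The good skeleton part. `n` is a lower bound for the number of clean separated points. Proof: multivalued map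
`(ω, T) ↦ surg ω T`, `|T| = k`: `(n choose k) φ(bad) ≤ η^{-k} mult^k φ(u ↔ w)`, `η = (min 1 (min (α / q) (1 / β))) ^ (4 (24 M + 1)^2)`. -/
theorem good_part {q : ℝ} (hq : 1 ≤ q) {r : Edge → ℝ} {α β : ℝ} (hα : 0 < α) (hr : ∀ e, α ≤ r e ∧ r e ≤ β)
    {M : ℕ} (hM : 1 ≤ M) {a b c d : ℤ} {u w : ℤ × ℤ} (hu : u ∈ rect a b c d)
    (hw : w ∈ rect a b c d) (n k : ℕ) :
    (n.choose k : ℝ) * pr q r (rect a b c d) (fun ω => Conn ω u w ∧ NoCP (clu (rect a b c d) ω u) u w ∧
      ∃ T : Finset (ℤ × ℤ), (∀ t ∈ T, Clean M (clu (rect a b c d) ω u) u w t) ∧ PS M T ∧ n ≤ T.card) ≤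
    (2 ^ ((24 * M + 1) + 4 * (24 * M + 1) ^ 2) /
      (min 1 (min (α / q) (1 / β))) ^ (4 * (24 * M + 1) ^ 2)) ^ k * pr q r (rect a b c d) (fun ω => Conn ω u w) := by
  have h0 : ∀ e, 0 < r e := fun e => lt_of_lt_of_le hα (hr e).1
  have hβ : 0 < β := lt_of_lt_of_le (h0 ((0, 0), true)) (hr _).2
  have hq0 : 0 < q := by linarith
  set D := rect a b c d with hD
  set η : ℝ := min 1 (min (α / q) (1 / β)) with hη
  have hηpos : 0 < η := lt_min one_pos (lt_min (div_pos hα hq0) (div_pos one_pos hβ))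
  set m : ℕ := 4 * (24 * M + 1) ^ 2 with hm
  set L : ℕ := (24 * M + 1) + m with hL
  set Bad : Finset Edge → Prop := fun ω => Conn ω u w ∧ NoCP (clu D ω u) u w ∧
      ∃ T : Finset (ℤ × ℤ), (∀ t ∈ T, Clean M (clu D ω u) u w t) ∧ PS M T ∧ n ≤ T.card with hBad
  have hZ := Z_pos' hq h0 D
  rw [pr_eq', pr_eq']
  have key : (n.choose k : ℝ) * ∑ ω ∈ (edges D).powerset.filter Bad, wt q r D ω ≤
      (2 ^ L / η ^ m) ^ k * ∑ ω ∈ (edges D).powerset.filter (fun ω => Conn ω u w), wt q r D ω := by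
    -- the chosen sets
    have hch : ∀ ω : Finset Edge, ∃ T : Finset (ℤ × ℤ), Bad ω →
        (∀ t ∈ T, Clean M (clu D ω u) u w t) ∧ PS M T ∧ n ≤ T.card := by
      intro ω
      by_cases hω : Bad ω
      · obtain ⟨-, -, T, hT⟩ := hω
        exact ⟨T, fun _ => hT⟩
      · exact ⟨∅, fun h => absurd h hω⟩
    choose TT hTT using hch
    set P : Finset (Finset Edge × Finset (ℤ × ℤ)) :=
      ((edges D).powerset.filter Bad).biUnion fun ω => ((TT ω).powersetCard k).image fun T => (ω, T) with hP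
    have hPmem : ∀ p ∈ P, p.1 ⊆ edges D ∧ Bad p.1 ∧ p.2 ∈ (TT p.1).powersetCard k := by
      intro p hp
      simp only [hP, Finset.mem_biUnion, Finset.mem_filter, Finset.mem_powerset, Finset.mem_image] at hp
      obtain ⟨ω, ⟨h1, h2⟩, T, hT, rfl⟩ := hp
      exact ⟨h1, h2, hT⟩
    have hPS : ∀ p ∈ P, (∀ t ∈ p.2, Clean M (clu D p.1 u) u w t) ∧ PS M p.2 ∧ p.2.card = k := by
      intro p hp
      obtain ⟨h1, h2, h3⟩ := hPmem p hp
      obtain ⟨h4, h5, -⟩ := hTT p.1 h2
      rw [Finset.mem_powersetCard] at h3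
      exact ⟨fun t ht => h4 t (h3.1 ht), fun t ht t' ht' => h5 t (h3.1 ht) t' (h3.1 ht'), h3.2⟩
    -- lower bound
    have hlow : (n.choose k : ℝ) * ∑ ω ∈ (edges D).powerset.filter Bad, wt q r D ω ≤
        ∑ p ∈ P, wt q r D p.1 := by
      rw [hP, Finset.sum_biUnion, Finset.mul_sum]
      · refine Finset.sum_le_sum fun ω hω => ?_
        rw [Finset.sum_image (by intro x _ y _ h; exact (Prod.mk.inj h).2)]
        simp only [Finset.sum_const, nsmul_eq_mul, Finset.card_powersetCard]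
        refine mul_le_mul_of_nonneg_right ?_ (wt_pos' hq h0 D ω).le
        have := (hTT ω (Finset.mem_filter.1 hω).2).2.2
        exact_mod_cast Nat.choose_le_choose k this
      · intro ω _ ω' _ hne
        rw [Function.onFun, Finset.disjoint_left]
        intro p hp hp'
        rw [Finset.mem_image] at hp hp'
        obtain ⟨T, -, rfl⟩ := hp
        obtain ⟨T', -, h⟩ := hp'
        exact hne (Prod.mk.inj h).1.symm
    set F : Finset Edge × Finset (ℤ × ℤ) → Finset Edge := fun p => surg M D (clu D p.1 u) p.2 p.1 with hF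
    have hFmem : ∀ p ∈ P, F p ∈ (edges D).powerset.filter (fun ω => Conn ω u w) := by
      intro p hp
      obtain ⟨h1, h2, -⟩ := hPmem p hp
      obtain ⟨h4, h5, -⟩ := hPS p hp
      rw [Finset.mem_filter, Finset.mem_powerset]
      refine ⟨by rw [hF]; unfold surg; exact Finset.filter_subset _ _, ?_⟩
      exact surg_conn hM h1 hu h2.1 h4 h5
    have hFwt : ∀ p ∈ P, wt q r D p.1 ≤ (1 / η ^ (k * m)) * wt q r D (F p) := by
      intro p hp
      obtain ⟨h1, h2, -⟩ := hPmem p hp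
      obtain ⟨h4, h5, h6⟩ := hPS p hp
      have hc := surg_card (M := M) (D := D) (V := clu D p.1 u) (T := p.2) h1
      rw [h6] at hc
      have := wt_energy hq hα hr h1 (Finset.mem_powerset.1 (Finset.mem_filter.1 (hFmem p hp)).1) (k := k * m) hc
      rw [one_div, ← div_eq_inv_mul, le_div_iff₀ (pow_pos hηpos _), mul_comm]
      exact this
    have hup : ∑ p ∈ P, wt q r D p.1 ≤
        (2 ^ L / η ^ m) ^ k * ∑ ω ∈ (edges D).powerset.filter (fun ω => Conn ω u w), wt q r D ω := by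
      calc ∑ p ∈ P, wt q r D p.1 ≤ ∑ p ∈ P, (1 / η ^ (k * m)) * wt q r D (F p) := Finset.sum_le_sum hFwt
        _ = ∑ ω' ∈ (edges D).powerset.filter (fun ω => Conn ω u w),
              ∑ p ∈ P.filter (fun p => F p = ω'), (1 / η ^ (k * m)) * wt q r D (F p) :=
            (Finset.sum_fiberwise_of_maps_to hFmem _).symm
        _ ≤ ∑ ω' ∈ (edges D).powerset.filter (fun ω => Conn ω u w),
              ((2 : ℝ) ^ L) ^ k * ((1 / η ^ (k * m)) * wt q r D ω') := by
            refine Finset.sum_le_sum fun ω' _ => ?_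
            have e1 : ∑ p ∈ P.filter (fun p => F p = ω'), (1 / η ^ (k * m)) * wt q r D (F p) =
                ∑ p ∈ P.filter (fun p => F p = ω'), (1 / η ^ (k * m)) * wt q r D ω' :=
              Finset.sum_congr rfl fun p hp => by rw [(Finset.mem_filter.1 hp).2]
            rw [e1, Finset.sum_const, nsmul_eq_mul]
            refine mul_le_mul_of_nonneg_right ?_
              (mul_nonneg (one_div_nonneg.2 (pow_nonneg hηpos.le _)) (wt_pos' hq h0 D ω').le)
            have hmu := multiplicity hM hu hw k ω' (P.filter fun p => F p = ω') (by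
              intro p hp
              rw [Finset.mem_filter] at hp
              obtain ⟨h1, h2, -⟩ := hPmem p hp.1
              obtain ⟨h4, h5, h6⟩ := hPS p hp.1
              exact ⟨h1, h2.1, h2.2.1, h4, h5, h6, hp.2⟩)
            exact_mod_cast hmu
        _ = (2 ^ L / η ^ m) ^ k * ∑ ω ∈ (edges D).powerset.filter (fun ω => Conn ω u w), wt q r D ω := by
            rw [Finset.mul_sum]
            refine Finset.sum_congr rfl fun ω' _ => ?_
            rw [div_pow, ← pow_mul η m k, mul_comm m k]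
            ring
    exact hlow.trans hup
  rw [mul_div_assoc', mul_div_assoc']
  refine div_le_div_of_nonneg_right (le_trans (le_of_eq ?_) key) hZ.le
  congr!

end Pool.Helper17.OZ
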