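import Pool.Agent.Helper17.OZ.SkA
import Pool.Agent.Helper17.OZ.SkD
import Pool.Agent.Helper17.OZ.SkE
import Pool.Agent.Helper17.OZ.ClE
import Pool.Agent.Helper17.OZ.SuF

/-! The mass gap. -/

namespace Pool.Helper17.OZ

open Pool.Helper49.FK

theorem wt_nonneg' {q : ℝ} (hq : 1 ≤ q) {r : Edge → ℝ} (h0 : ∀ e, 0 < r e) (D : Finset (ℤ × ℤ)) (ω : Finset Edge) :
    0 < wt q r D ω := by
  unfold wt
  have : 0 < q := by linarith
  exact mul_pos (Finset.prod_pos fun e _ => h0 e) (pow_pos this _)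

theorem pr_le_one' {q : ℝ} (hq : 1 ≤ q) {r : Edge → ℝ} (h0 : ∀ e, 0 < r e) (D : Finset (ℤ × ℤ)) (A : Finset Edge → Prop) :
    pr q r D A ≤ 1 := by
  classical
  unfold pr ex Z
  rw [div_le_one (Finset.sum_pos (fun ω _ => wt_nonneg' hq h0 D ω) ⟨∅, by simp⟩)]
  refine Finset.sum_le_sum fun ω _ => ?_
  dsimp only
  split_ifs
  · simp
  · simpa using (wt_nonneg' hq h0 D ω).le

theorem pr_two {q : ℝ} (hq : 1 ≤ q) {r : Edge → ℝ} (h0 : ∀ e, 0 < r e) (D : Finset (ℤ × ℤ)) {A B C : Finset Edge → Prop}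
    (h : ∀ ω ⊆ edges D, A ω → B ω ∨ C ω) : pr q r D A ≤ pr q r D B + pr q r D C := by
  have := pr_union (D := D) hq h0 (Finset.univ : Finset Bool) (A := A) (B := fun b => if b = true then B else C)
    (fun ω hω hA => by
      rcases h ω hω hA with h | h
      · exact ⟨true, by simp, by simpa using h⟩
      · exact ⟨false, by simp, by simpa using h⟩)
  simpa [add_comm] using this

theorem pr_mono' {q : ℝ} (hq : 1 ≤ q) {r : Edge → ℝ} (h0 : ∀ e, 0 < r e) (D : Finset (ℤ × ℤ)) {A B : Finset Edge → Prop}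
    (h : ∀ ω ⊆ edges D, A ω → B ω) : pr q r D A ≤ pr q r D B := by
  have := pr_union (D := D) hq h0 ({()} : Finset Unit) (A := A) (B := fun _ => B)
    (fun ω hω hA => ⟨(), by simp, h ω hω hA⟩)
  simpa using this

/-- A binomial estimate. -/
theorem choose_big {B : ℝ} (hB : 0 < B) {n k : ℕ} (h : 2 * B * k ≤ (n : ℝ) - k) {x E : ℝ} (hx : 0 ≤ x)
    (hle : (n.choose k : ℝ) * x ≤ B ^ k * E) : x ≤ (1 / 2) ^ k * E := by
  rcases Nat.eq_zero_or_pos k with rfl | hk
  · simpa using hle
  have hkR : (0 : ℝ) < k := by exact_mod_cast hk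
  have hnk : k ≤ n := by
    have : (0 : ℝ) ≤ (n : ℝ) - k := le_trans (by positivity) h
    have : (k : ℝ) ≤ n := by linarith
    exact_mod_cast this
  have h1 : ((n + 1 - k : ℕ) ^ k : ℝ) ≤ (k.factorial : ℝ) * (n.choose k : ℝ) := by
    have := Nat.pow_le_choose (α := ℝ) k n
    rw [div_le_iff₀ (by positivity)] at this
    linarith [mul_comm (n.choose k : ℝ) (k.factorial : ℝ)]
  have h2 : (k.factorial : ℝ) ≤ (k : ℝ) ^ k := by exact_mod_cast Nat.factorial_le_pow k
  have h3 : (2 * B * k) ^ k ≤ ((n + 1 - k : ℕ) ^ k : ℝ) := by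
    refine pow_le_pow_left₀ (by positivity) ?_ k
    rw [Nat.cast_sub (by omega)]
    push_cast
    linarith
  have h4 : (2 * B) ^ k ≤ (n.choose k : ℝ) := by
    have h5 : (2 * B) ^ k * (k : ℝ) ^ k ≤ (n.choose k : ℝ) * (k : ℝ) ^ k := by
      calc (2 * B) ^ k * (k : ℝ) ^ k = (2 * B * k) ^ k := by rw [mul_pow (2 * B)]
        _ ≤ (k.factorial : ℝ) * (n.choose k : ℝ) := h3.trans h1
        _ ≤ (n.choose k : ℝ) * (k : ℝ) ^ k := by
          rw [mul_comm]; exact mul_le_mul_of_nonneg_left h2 (by positivity)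
    exact le_of_mul_le_mul_right h5 (by positivity)
  have h6 : (2 * B) ^ k * x ≤ B ^ k * E := (mul_le_mul_of_nonneg_right h4 hx).trans hle
  rw [mul_pow, mul_assoc] at h6
  have h7 : B ^ k * (2 ^ k * x) ≤ B ^ k * E := by linarith [h6, mul_left_comm (2 ^ k : ℝ) (B ^ k) x]
  have h8 : (2 : ℝ) ^ k * x ≤ E := le_of_mul_le_mul_left h7 (by positivity)
  have : x = (1 / 2) ^ k * (2 ^ k * x) := by
    rw [← mul_assoc, ← mul_pow]; norm_num
  rw [this]
  exact mul_le_mul_of_nonneg_left h8 (by positivity)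

/-- The step graph on the skeleton is connected. -/
theorem chain_conn {K s : ℕ} {u : ℤ × ℤ} {N : ℕ} {x : ℕ → ℤ × ℤ} (h : Chain K s u N x) :
    ∀ y ∈ (Finset.range (N + 1)).image x, ∀ z ∈ (Finset.range (N + 1)).image x,
      Relation.ReflTransGen (fun p p' => p ∈ (Finset.range (N + 1)).image x ∧
        p' ∈ (Finset.range (N + 1)).image x ∧ nd p p' = ((K + 2 * s + 1 : ℕ) : ℤ)) y z := by
  have hsymm : ∀ p p' : ℤ × ℤ, nd p p' = nd p' p := fun p p' => by
    unfold nd; rw [abs_sub_comm p.1, abs_sub_comm p.2]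
  set R := fun p p' : ℤ × ℤ => p ∈ (Finset.range (N + 1)).image x ∧
        p' ∈ (Finset.range (N + 1)).image x ∧ nd p p' = ((K + 2 * s + 1 : ℕ) : ℤ) with hR
  have hRs : ∀ p p', R p p' → R p' p := fun p p' hp => ⟨hp.2.1, hp.1, by rw [hsymm]; exact hp.2.2⟩
  have key : ∀ i ≤ N, Relation.ReflTransGen R (x i) (x 0) := by
    intro i
    induction i using Nat.strong_induction_on with
    | _ i ih =>
      intro hi
      rcases Nat.eq_zero_or_pos i with rfl | hpos
      · exact Relation.ReflTransGen.refl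
      obtain ⟨j, hj, hd⟩ := h.par i hpos hi
      refine Relation.ReflTransGen.head ?_ (ih j hj (by omega))
      refine ⟨Finset.mem_image_of_mem _ (Finset.mem_range.2 (by omega)),
        Finset.mem_image_of_mem _ (Finset.mem_range.2 (by omega)), ?_⟩
      rw [hd]; push_cast; ring
  have symm : ∀ a b, Relation.ReflTransGen R a b → Relation.ReflTransGen R b a := by
    intro a b hab
    induction hab with
    | refl => exact Relation.ReflTransGen.refl
    | tail _ hbc ih => exact Relation.ReflTransGen.head (hRs _ _ hbc) ih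
  intro y hy z hz
  obtain ⟨i, hi, rfl⟩ := Finset.mem_image.1 hy
  obtain ⟨j, hj, rfl⟩ := Finset.mem_image.1 hz
  have hi' := Finset.mem_range.1 hi
  have hj' := Finset.mem_range.1 hj
  exact (key i (by omega)).trans (symm _ _ (key j (by omega)))

/-- A vertex connected to a vertex of `D` is in `D`. -/
theorem mem_of_conn' {D : Finset (ℤ × ℤ)} {ω : Finset Edge} (hω : ω ⊆ edges D) {u y : ℤ × ℤ} (hu : u ∈ D)
    (h : Conn ω u y) : y ∈ D := by
  obtain ⟨p⟩ := h
  induction p with
  | nil => exact hu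
  | cons hadj _ ih =>
    apply ih
    obtain ⟨e, he, hh⟩ := hadj
    have hee := hω he
    unfold edges at hee
    simp only [Finset.mem_filter, Finset.mem_product, Finset.mem_univ, and_true] at hee
    rcases hh with ⟨h1, h2⟩ | ⟨h1, h2⟩
    · rw [← h2]; exact hee.2
    · rw [← h1]; exact hee.1

/-- MASS GAP. The cluster of `u` contains `w` but has no cone point strictly between the columns of `u` and `w`. -/
theorem mass_gap {q : ℝ} (hq : 1 ≤ q) {α β : ℝ} (hα : 0 < α) (hαβ : α ≤ β) (hE : ExpW q β) :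
    ∃ C c : ℝ, 0 < C ∧ 0 < c ∧ ∀ (r : Edge → ℝ), (∀ e, α ≤ r e ∧ r e ≤ β) → ∀ a b c' d : ℤ, ∀ u w : ℤ × ℤ,
      u ∈ rect a b c' d → w ∈ rect a b c' d → u.1 < w.1 →
      pr q r (rect a b c' d) (fun ω => Conn ω u w ∧ NoCP (clu (rect a b c' d) ω u) u w) ≤
        C * Real.exp (-(tau q β + c) * ((w.1 : ℝ) - u.1)) := by
  classical
  have hβ : 0 < β := by linarith
  have hτ := tau_pos hq hβ hE
  obtain ⟨c0, C0, hc0, hC0, hE'⟩ := hE
  obtain ⟨K, s, hK, hs, hκ, hA⟩ := choice hτ hc0 hC0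
  set τ := tau q β with hτdef
  obtain ⟨M, hM⟩ : ∃ M : ℕ, M = K + 2 * s + 1 := ⟨_, rfl⟩
  have hM1 : 1 ≤ M := by omega
  have hMR : (1 : ℝ) ≤ M := by exact_mod_cast hM1
  have hMK : (K : ℝ) ≤ M := by rw [hM]; push_cast; linarith [(Nat.cast_nonneg s : (0 : ℝ) ≤ s)]
  set η : ℝ := (min 1 (min (α / q) (1 / β))) ^ (4 * (24 * M + 1) ^ 2) with hη
  have hη0 : 0 < η := by
    have : 0 < q := by linarith
    exact pow_pos (lt_min one_pos (lt_min (by positivity) (by positivity))) _
  set B : ℝ := 2 ^ ((24 * M + 1) + 4 * (24 * M + 1) ^ 2) / η with hBdef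
  have hB : 0 < B := by positivity
  obtain ⟨b, hb⟩ := exists_nat_ge (2 * B + 1)
  have hb1 : (1 : ℝ) < b := by linarith
  have hb0 : 0 < b := by
    have : (0 : ℝ) < b := by linarith
    exact_mod_cast this
  -- rate
  set c1 : ℝ := Real.log 2 / (100 * M * b) with hc1
  have hlog2 : 0 < Real.log 2 := Real.log_pos (by norm_num)
  have hc1pos : 0 < c1 := by positivity
  set c := min c1 (τ / 20) with hc
  have hcpos : 0 < c := lt_min hc1pos (by positivity)
  set C : ℝ := Real.exp ((τ + c) * K) + 2 * Real.exp (τ * M) + 8 * Real.exp (2 * Real.log 2) with hC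
  refine ⟨C, c, by positivity, hcpos, ?_⟩
  intro r hr a b' c' d u w hu hw huw
  have h0 : ∀ e, 0 < r e := fun e => lt_of_lt_of_le hα (hr e).1
  set D := rect a b' c' d with hD
  obtain ⟨m, hm⟩ : ∃ m : ℕ, w.1 - u.1 = m := ⟨(w.1 - u.1).toNat, by omega⟩
  have hmR : (w.1 : ℝ) - u.1 = m := by exact_mod_cast hm
  have hm1 : 1 ≤ m := by omega
  rw [hmR]
  set Ev := fun ω : Finset Edge => Conn ω u w ∧ NoCP (clu D ω u) u w with hEv
  have hexpK : 0 < Real.exp ((τ + c) * K) := Real.exp_pos _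
  rcases lt_or_ge m K with hmK | hmK
  · -- short distance
    refine (pr_le_one' hq h0 D _).trans ?_
    have hmK' : (m : ℝ) ≤ K := by exact_mod_cast hmK.le
    have h1 : 1 ≤ Real.exp ((τ + c) * K) * Real.exp (-(τ + c) * m) := by
      rw [← Real.exp_add]
      refine Real.one_le_exp ?_
      nlinarith
    refine h1.trans (mul_le_mul_of_nonneg_right ?_ (Real.exp_pos _).le)
    rw [hC]
    have := Real.exp_pos (τ * M)
    have := Real.exp_pos (2 * Real.log 2)
    linarith
  -- the two events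
  set E1 := fun ω : Finset Edge => ∃ (N : ℕ) (x : ℕ → ℤ × ℤ), (15 : ℝ) * m ≤ 14 * ((N : ℝ) + 1) * (K + 2 * s + 1) ∧
    Chain K s u N x ∧ Sk K s N x ω with hE1
  set n : ℕ := m / (100 * M) - 2 with hn
  set E2 := fun ω : Finset Edge => Conn ω u w ∧ NoCP (clu D ω u) u w ∧
      ∃ T : Finset (ℤ × ℤ), (∀ t ∈ T, Clean M (clu D ω u) u w t) ∧ PS M T ∧ n ≤ T.card with hE2
  have hsplit : pr q r D Ev ≤ pr q r D E1 + pr q r D E2 := by
    refine pr_two hq h0 D ?_
    intro ω hω hEvω
    obtain ⟨hconn, hno⟩ := hEvω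
    obtain ⟨N, x, hch, hsk, hxu, hcov⟩ := skeleton (s := s) hω hu hK ⟨w, hconn, by
      unfold nd
      refine le_trans ?_ (le_max_left _ _)
      rw [abs_sub_comm, hm, Nat.abs_cast]
      exact_mod_cast hmK⟩
    by_cases hbig : (15 : ℝ) * m ≤ 14 * ((N : ℝ) + 1) * (K + 2 * s + 1)
    · exact Or.inl ⟨N, x, hbig, hch, hsk⟩
    · right
      push Not at hbig
      refine ⟨hconn, hno, ?_⟩
      have hclu : ∀ v, v ∈ clu D ω u ↔ v ∈ D ∧ Conn ω u v := fun v => by
        unfold clu; rw [Finset.mem_filter]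
      have hxD : ∀ i ≤ N, x i ∈ D := by
        intro i hi
        exact mem_of_conn' hω hu (hxu i hi)
      set S := (Finset.range (N + 1)).image x with hS
      have hSV : S ⊆ clu D ω u := by
        intro y hy
        obtain ⟨i, hi, rfl⟩ := Finset.mem_image.1 hy
        have hi' := Finset.mem_range.1 hi
        exact (hclu _).2 ⟨hxD i (by omega), hxu i (by omega)⟩
      have hcc := chain_conn hch
      rw [← hM] at hcc
      obtain ⟨T, hT1, hT2, hT3⟩ := clean_points (M := M) hM1 (S := S) (V := clu D ω u) hcc hSV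
        (fun v hv => by
          obtain ⟨i, hi, hvi⟩ := hcov v ((hclu v).1 hv).2
          refine ⟨x i, Finset.mem_image_of_mem _ (Finset.mem_range.2 (by omega)), hvi.trans ?_⟩
          rw [hM]; push_cast; linarith [(Nat.cast_nonneg s : (0 : ℤ) ≤ s)])
        (u := u) (w := w)
        (by rw [hS, ← hch.zero]; exact Finset.mem_image_of_mem _ (Finset.mem_range.2 (by omega)))
        ((hclu w).2 ⟨hw, hconn⟩) huw (by
          have hSc : S.card ≤ N + 1 := by
            simpa using Finset.card_image_le (s := Finset.range (N + 1)) (f := x)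
          have h14 : 14 * ((N : ℤ) + 1) * M < 15 * m := by
            have : (14 * ((N : ℝ) + 1) * M) < 15 * m := by
              rw [hM]; push_cast; exact hbig
            exact_mod_cast this
          rw [hm]
          have : (S.card : ℤ) ≤ N + 1 := by exact_mod_cast hSc
          nlinarith [(Nat.cast_nonneg M : (0 : ℤ) ≤ M)])
      refine ⟨T, hT1, hT2, ?_⟩
      rw [hm] at hT3
      have : m / (100 * M) ≤ T.card + 2 := by
        have h2 : m ≤ 100 * M * (T.card + 2) := by exact_mod_cast hT3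
        calc m / (100 * M) ≤ (100 * M * (T.card + 2)) / (100 * M) := Nat.div_le_div_right h2
          _ = T.card + 2 := Nat.mul_div_cancel_left _ (by positivity)
      omega
  have hb1' := skeleton_bound hq h0 (fun e => (hr e).2) hE' hτ hK hs hκ hA D u m hm1
  set k : ℕ := n / b with hk
  have hgood := good_part (M := M) hq hα hr hM1 (a := a) (b := b') (c := c') (d := d) hu hw n k
  have hG : pr q r D (fun ω => Conn ω u w) ≤ Real.exp (-τ * m) := by
    refine (pr_mono' hq h0 D (B := fun ω => u ∈ D ∧ Conn ω u w) fun ω _ h => ⟨hu, h⟩).trans ?_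
    refine (G_le_GI hq h0 (fun e => (hr e).2) u w).trans ((GI_le_tau hq hβ _).trans ?_)
    refine Real.exp_le_exp.2 ?_
    have h1 : (m : ℤ) ≤ nd (0, 0) (w - u) := by
      unfold nd
      refine le_trans ?_ (le_max_left _ _)
      simp only [Prod.fst_sub, zero_sub, abs_neg]
      rw [hm, Nat.abs_cast]
    have h2 : (m : ℝ) ≤ (nd (0, 0) (w - u) : ℝ) := by exact_mod_cast h1
    nlinarith
  have hx0 : 0 ≤ pr q r D E2 := by
    unfold pr ex Z
    refine div_nonneg (Finset.sum_nonneg fun ω _ => mul_nonneg (wt_nonneg' hq h0 D ω).le ?_)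
      (Finset.sum_nonneg fun ω _ => (wt_nonneg' hq h0 D ω).le)
    dsimp only
    split_ifs <;> norm_num
  have hE2le : pr q r D E2 ≤ (1 / 2) ^ k * Real.exp (-τ * m) := by
    refine choose_big hB (n := n) (k := k) ?_ hx0 ?_
    · have h1 : (b : ℝ) * k ≤ n := by exact_mod_cast Nat.mul_div_le n b
      nlinarith [(Nat.cast_nonneg k : (0 : ℝ) ≤ k)]
    · refine hgood.trans ?_
      exact mul_le_mul_of_nonneg_left hG (by positivity)
  have hkbig : (m : ℝ) / (100 * M * b) - 4 ≤ k := by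
    have h1 : m < 100 * M * (n + 3) := by
      have := Nat.lt_mul_div_succ m (show 0 < 100 * M by positivity)
      refine this.trans_le (Nat.mul_le_mul_left _ ?_)
      omega
    have h2 : n < b * (k + 1) := Nat.lt_mul_div_succ n hb0
    have h1' : (m : ℝ) ≤ 100 * M * (n + 3) := by exact_mod_cast h1.le
    have h2' : (n : ℝ) ≤ b * (k + 1) := by exact_mod_cast h2.le
    have h3 : (m : ℝ) ≤ 100 * M * b * (k + 4) := by
      calc (m : ℝ) ≤ 100 * M * (n + 3) := h1'
        _ ≤ 100 * M * (b * (k + 4)) := by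
          refine mul_le_mul_of_nonneg_left ?_ (by positivity)
          nlinarith
        _ = _ := by ring
    rw [sub_le_iff_le_add, div_le_iff₀ (by positivity)]
    linarith
  have hhalf : ((1 : ℝ) / 2) ^ k ≤ 16 * Real.exp (-c1 * m) := by
    have h1 : ((1 : ℝ) / 2) ^ k = Real.exp (-(Real.log 2) * k) := by
      rw [mul_comm, Real.exp_nat_mul, Real.exp_neg, Real.exp_log (by norm_num)]
      norm_num
    have h2 : (16 : ℝ) = Real.exp (4 * Real.log 2) := by
      rw [show (4 : ℝ) * Real.log 2 = ((4 : ℕ) : ℝ) * Real.log 2 by norm_num, Real.exp_nat_mul,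
        Real.exp_log (by norm_num)]
      norm_num
    rw [h1, h2, ← Real.exp_add]
    refine Real.exp_le_exp.2 ?_
    have h3 : c1 * m = Real.log 2 * (m / (100 * M * b)) := by rw [hc1]; ring
    nlinarith
  have hexp8 : Real.exp (2 * Real.log 2) = 4 := by
    rw [show (2 : ℝ) * Real.log 2 = ((2 : ℕ) : ℝ) * Real.log 2 by norm_num, Real.exp_nat_mul,
        Real.exp_log (by norm_num)]
    norm_num
  have hm0 : (0 : ℝ) ≤ m := Nat.cast_nonneg m
  have hT2 : pr q r D E2 ≤ 16 * Real.exp (-(τ + c) * m) := by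
    calc pr q r D E2 ≤ (1 / 2) ^ k * Real.exp (-τ * m) := hE2le
      _ ≤ (16 * Real.exp (-c1 * m)) * Real.exp (-τ * m) :=
        mul_le_mul_of_nonneg_right hhalf (Real.exp_pos _).le
      _ = 16 * Real.exp (-(τ + c1) * m) := by
        rw [mul_assoc, ← Real.exp_add]; congr 2; ring
      _ ≤ 16 * Real.exp (-(τ + c) * m) := by
        refine mul_le_mul_of_nonneg_left (Real.exp_le_exp.2 ?_) (by norm_num)
        have : c ≤ c1 := min_le_left _ _
        nlinarith
  have hT1 : pr q r D E1 ≤ 2 * Real.exp (τ * M) * Real.exp (-(τ + c) * m) := by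
    refine hb1'.trans ?_
    have h1 : τ * (K + 2 * s + 1) = τ * M := by rw [hM]; push_cast; ring
    rw [h1]
    refine mul_le_mul_of_nonneg_left (Real.exp_le_exp.2 ?_) (by positivity)
    have : c ≤ τ / 20 := min_le_right _ _
    nlinarith
  have hfin : 2 * Real.exp (τ * M) + 16 ≤ C := by
    rw [hC, hexp8]
    linarith
  calc pr q r D Ev ≤ pr q r D E1 + pr q r D E2 := hsplit
    _ ≤ 2 * Real.exp (τ * M) * Real.exp (-(τ + c) * m) + 16 * Real.exp (-(τ + c) * m) := add_le_add hT1 hT2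
    _ = (2 * Real.exp (τ * M) + 16) * Real.exp (-(τ + c) * m) := by ring
    _ ≤ C * Real.exp (-(τ + c) * m) := mul_le_mul_of_nonneg_right hfin (Real.exp_pos _).le

end Pool.Helper17.OZ
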