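import Pool.Agent.Helper17.OZ.Defs

/-! Definition of `Nev`. -/

namespace Pool.Helper17.OZ

open Pool.Helper49.FK

/-- There is a point `z` at distance exactly `h = s / 2` from `Bs` with an arm of length `h - 1`. -/
def Nev (K s : ℕ) (P : Finset (ℤ × ℤ)) (x : ℤ × ℤ) (ω : Finset Edge) : Prop :=
  ∃ z, (∃ b ∈ Bs K s P x, nd z b = (s / 2 : ℕ)) ∧ (∀ b ∈ Bs K s P x, ((s / 2 : ℕ) : ℤ) ≤ nd z b) ∧
    Arm (s / 2 - 1) z ω

end Pool.Helper17.OZ
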