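import Pool.Agent.Helper17.OZ.WiA

/-! Block OZ-L2-C1. -/

namespace Pool.Helper17.OZ

open Pool.Helper49.FK

private theorem nd_le26 {x y : ℤ × ℤ} {L : ℤ} :
    nd x y ≤ L ↔ (x.1 - y.1 ≤ L ∧ y.1 - x.1 ≤ L) ∧ (x.2 - y.2 ≤ L ∧ y.2 - x.2 ≤ L) := by
  unfold nd
  rw [max_le_iff, abs_le, abs_le]
  constructor
  · rintro ⟨⟨h1, h2⟩, h3, h4⟩
    refine ⟨⟨?_, ?_⟩, ?_, ?_⟩ <;> omega
  · rintro ⟨⟨h1, h2⟩, h3, h4⟩
    refine ⟨⟨?_, ?_⟩, ?_, ?_⟩ <;> omega

private theorem nd_symm26 (x y : ℤ × ℤ) : nd x y = nd y x := by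
  unfold nd
  rw [abs_sub_comm, abs_sub_comm x.2]

private theorem mem_Lam26 {x z : ℤ × ℤ} {K : ℕ} : z ∈ Lam x K ↔ nd z x ≤ K := by
  unfold Lam
  rw [nd_le26, Finset.mem_product, Finset.mem_Icc, Finset.mem_Icc]
  constructor
  · rintro ⟨⟨h1, h2⟩, h3, h4⟩
    refine ⟨⟨?_, ?_⟩, ?_, ?_⟩ <;> omega
  · rintro ⟨⟨h1, h2⟩, h3, h4⟩
    refine ⟨⟨?_, ?_⟩, ?_, ?_⟩ <;> omega

private theorem tip26 (e : Edge) :
    (tip e).1 - e.1.1 ≤ 1 ∧ 0 ≤ (tip e).1 - e.1.1 ∧ (tip e).2 - e.1.2 ≤ 1 ∧ 0 ≤ (tip e).2 - e.1.2 := by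
  unfold tip
  split_ifs
  · simp
  · simp

private theorem mem_edges26 {V : Finset (ℤ × ℤ)} {e : Edge} : e ∈ edges V ↔ e.1 ∈ V ∧ tip e ∈ V := by
  unfold edges
  rw [Finset.mem_filter, Finset.mem_product]
  constructor
  · exact fun h => ⟨h.1.1, h.2⟩
  · exact fun h => ⟨⟨h.1, Finset.mem_univ _⟩, h.2⟩

private theorem conn_mono26 {ω ω' : Finset Edge} (h : ω ⊆ ω') {x y : ℤ × ℤ} (hc : Conn ω x y) :
    Conn ω' x y := by
  refine SimpleGraph.Reachable.mono ?_ hc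
  intro a b hab
  obtain ⟨e, he, h2⟩ := hab
  exact ⟨e, h he, h2⟩

private theorem conn_edge26 {ω : Finset Edge} {e : Edge} (he : e ∈ ω) : Conn ω e.1 (tip e) :=
  SimpleGraph.Adj.reachable ⟨e, he, Or.inl ⟨rfl, rfl⟩⟩

private theorem induct26 {ω : Finset Edge} {S : Set (ℤ × ℤ)} {x y : ℤ × ℤ} (h : Conn ω x y)
    (hx : x ∈ S) (hS : ∀ e ∈ ω, (e.1 ∈ S ↔ tip e ∈ S)) : y ∈ S := by
  obtain ⟨p⟩ := h
  induction p with
  | nil => exact hx
  | cons hadj p ih =>
    apply ih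
    obtain ⟨e, he, h1 | h1⟩ := hadj
    · rw [← h1.2]
      exact (hS e he).1 (by rw [h1.1]; exact hx)
    · rw [← h1.1]
      exact (hS e he).2 (by rw [h1.2]; exact hx)

/-- first exit of a box -/
private theorem exit26 {ω : Finset Edge} {y z : ℤ × ℤ} {K : ℕ} (h : Conn ω y z)
    (hK : (K : ℤ) ≤ nd y z) : ∃ w, nd y w = K ∧ Conn (ω ∩ edges (Lam y K)) y w := by
  by_contra hno
  push Not at hno
  have key : z ∈ {w | Conn (ω ∩ edges (Lam y K)) y w ∧ nd w y ≤ K} := by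
    refine induct26 h ⟨SimpleGraph.Reachable.refl y, ?_⟩ ?_
    · rw [nd_le26]
      refine ⟨⟨?_, ?_⟩, ?_, ?_⟩ <;> omega
    · intro e he
      have ht := tip26 e
      constructor
      · rintro ⟨h1, h2⟩
        have h3 : nd y e.1 ≠ K := fun h4 => hno _ h4 h1
        have h4 : nd e.1 y ≤ K - 1 := by
          rw [nd_symm26] at h3
          omega
        have h5 : nd (tip e) y ≤ K := by
          rw [nd_le26] at h4 ⊢
          refine ⟨⟨?_, ?_⟩, ?_, ?_⟩ <;> omega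
        refine ⟨SimpleGraph.Reachable.trans h1 (conn_edge26 ?_), h5⟩
        rw [Finset.mem_inter, mem_edges26, mem_Lam26, mem_Lam26]
        exact ⟨he, h2, h5⟩
      · rintro ⟨h1, h2⟩
        have h3 : nd y (tip e) ≠ K := fun h4 => hno _ h4 h1
        have h4 : nd (tip e) y ≤ K - 1 := by
          rw [nd_symm26] at h3
          omega
        have h5 : nd e.1 y ≤ K := by
          rw [nd_le26] at h4 ⊢
          refine ⟨⟨?_, ?_⟩, ?_, ?_⟩ <;> omega
        refine ⟨SimpleGraph.Reachable.trans h1 (SimpleGraph.Reachable.symm (conn_edge26 ?_)), h5⟩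
        rw [Finset.mem_inter, mem_edges26, mem_Lam26, mem_Lam26]
        exact ⟨he, h5, h2⟩
  obtain ⟨h1, h2⟩ := key
  rw [nd_symm26] at h2
  exact hno z (le_antisymm h2 hK) h1

/-- the candidates for the next skeleton point -/
private def Cand26 (K s : ℕ) (u : ℤ × ℤ) (ω : Finset Edge) (P : Finset (ℤ × ℤ)) (v : ℤ × ℤ) : Prop :=
  Conn ω u v ∧ (∃ p ∈ P, nd v p = K + 2 * s + 1) ∧ (∀ p ∈ P, (K : ℤ) + 2 * s < nd v p) ∧
    Ex K s P v ω

private theorem bs_anti26 {K s : ℕ} {P P' : Finset (ℤ × ℤ)} (h : P ⊆ P') (v : ℤ × ℤ) :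
    Bs K s P' v ⊆ Bs K s P v :=
  Finset.sdiff_subset_sdiff (Finset.Subset.refl _) (Finset.biUnion_subset_biUnion_of_subset_left _ h)

private theorem edges_mono26 {V V' : Finset (ℤ × ℤ)} (h : V ⊆ V') : edges V ⊆ edges V' := by
  intro e he
  rw [mem_edges26] at he ⊢
  exact ⟨h he.1, h he.2⟩

private theorem ex_anti26 {K s : ℕ} {P P' : Finset (ℤ × ℤ)} (h : P ⊆ P') {v : ℤ × ℤ}
    {ω : Finset Edge} (hE : Ex K s P' v ω) : Ex K s P v ω := by
  obtain ⟨y, hy, hc⟩ := hE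
  exact ⟨y, hy, conn_mono26 (Finset.inter_subset_inter (Finset.Subset.refl _)
    (edges_mono26 (bs_anti26 h v))) hc⟩

private theorem mem_bef26 {x : ℕ → ℤ × ℤ} {i : ℕ} {p : ℤ × ℤ} : p ∈ bef x i ↔ ∃ j < i, x j = p := by
  unfold bef
  rw [Finset.mem_image]
  constructor
  · rintro ⟨j, hj, h⟩
    exact ⟨j, Finset.mem_range.1 hj, h⟩
  · rintro ⟨j, hj, h⟩
    exact ⟨j, Finset.mem_range.2 hj, h⟩

private def Good26 (K s : ℕ) (u : ℤ × ℤ) (ω : Finset Edge) (n : ℕ) (x : ℕ → ℤ × ℤ) : Prop :=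
  x 0 = u ∧ ∀ i, 1 ≤ i → i ≤ n → Cand26 K s u ω (bef x i) (x i) ∧
    ∀ v, Cand26 K s u ω (bef x i) v → toLex (x i) ≤ toLex v

private theorem conn_mem26 {D : Finset (ℤ × ℤ)} {ω : Finset Edge} (hω : ω ⊆ edges D) {u : ℤ × ℤ}
    (hu : u ∈ D) {v : ℤ × ℤ} (h : Conn ω u v) : v ∈ D := by
  refine induct26 (S := {w | w ∈ D}) h hu fun e he => ?_
  have h1 := mem_edges26.1 (hω he)
  exact ⟨fun _ => h1.2, fun _ => h1.1⟩

private theorem good_far26 {K s : ℕ} {u : ℤ × ℤ} {ω : Finset Edge} {n : ℕ} {x : ℕ → ℤ × ℤ}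
    (h : Good26 K s u ω n x) {i j : ℕ} (hi : i ≤ n) (hj : j < i) :
    (K : ℤ) + 2 * s < nd (x i) (x j) :=
  (h.2 i (by omega) hi).1.2.2.1 _ (mem_bef26.2 ⟨j, hj, rfl⟩)

private theorem good_conn26 {K s : ℕ} {u : ℤ × ℤ} {ω : Finset Edge} {n : ℕ} {x : ℕ → ℤ × ℤ}
    (h : Good26 K s u ω n x) {i : ℕ} (hi : i ≤ n) : Conn ω u (x i) := by
  rcases Nat.eq_zero_or_pos i with rfl | h0
  · rw [h.1]
    exact SimpleGraph.Reachable.refl u
  · exact (h.2 i h0 hi).1.1

private theorem good_card26 {D : Finset (ℤ × ℤ)} {K s : ℕ} {u : ℤ × ℤ} {ω : Finset Edge}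
    (hω : ω ⊆ edges D) (hu : u ∈ D) {n : ℕ} {x : ℕ → ℤ × ℤ}
    (h : Good26 K s u ω n x) : n + 1 ≤ D.card := by
  have h1 : ((Finset.range (n + 1)).image x).card = n + 1 := by
    rw [Finset.card_image_of_injOn, Finset.card_range]
    have key : ∀ i j, i ≤ n → j < i → x i ≠ x j := by
      intro i j hi hj heq
      have h2 := good_far26 h hi hj
      rw [heq] at h2
      have h3 : nd (x j) (x j) ≤ 0 := by
        rw [nd_le26]
        refine ⟨⟨?_, ?_⟩, ?_, ?_⟩ <;> omega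
      omega
    intro i hi j hj heq
    have hi' : i ≤ n := by
      have := Finset.mem_range.1 (Finset.mem_coe.1 hi)
      omega
    have hj' : j ≤ n := by
      have := Finset.mem_range.1 (Finset.mem_coe.1 hj)
      omega
    rcases lt_trichotomy i j with h2 | h2 | h2
    · exact absurd heq.symm (key j i hj' h2)
    · exact h2
    · exact absurd heq (key i j hi' h2)
  rw [← h1]
  refine Finset.card_le_card fun p hp => ?_
  rw [Finset.mem_image] at hp
  obtain ⟨i, hi, rfl⟩ := hp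
  exact conn_mem26 hω hu (good_conn26 h (Nat.lt_succ_iff.1 (Finset.mem_range.1 hi)))

private theorem bef_congr26 {x x' : ℕ → ℤ × ℤ} {i : ℕ} (h : ∀ j < i, x j = x' j) :
    bef x i = bef x' i := by
  unfold bef
  exact Finset.image_congr fun j hj => h j (Finset.mem_range.1 (Finset.mem_coe.1 hj))

private theorem good_step26 {D : Finset (ℤ × ℤ)} {K s : ℕ} {u : ℤ × ℤ} {ω : Finset Edge}
    (hω : ω ⊆ edges D) (hu : u ∈ D) {n : ℕ} {x : ℕ → ℤ × ℤ} (h : Good26 K s u ω n x)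
    (hc : ∃ v, Cand26 K s u ω (bef x (n + 1)) v) : ∃ x', Good26 K s u ω (n + 1) x' := by
  classical
  set S : Finset (ℤ × ℤ) := D.filter fun v => Cand26 K s u ω (bef x (n + 1)) v with hS
  have hSm : ∀ v, Cand26 K s u ω (bef x (n + 1)) v → v ∈ S := fun v hv =>
    Finset.mem_filter.2 ⟨conn_mem26 hω hu hv.1, hv⟩
  have hne : S.Nonempty := by
    obtain ⟨v, hv⟩ := hc
    exact ⟨v, hSm v hv⟩
  obtain ⟨v, hv, hmin⟩ := Finset.exists_min_image S (fun v => toLex v) hne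
  have hvc : Cand26 K s u ω (bef x (n + 1)) v := (Finset.mem_filter.1 hv).2
  set x' : ℕ → ℤ × ℤ := Function.update x (n + 1) v with hx'
  have hx'1 : ∀ j, j ≠ n + 1 → x' j = x j := fun j hj => Function.update_of_ne hj _ _
  have hx'2 : x' (n + 1) = v := Function.update_self _ _ _
  have hbef : ∀ i, i ≤ n + 1 → bef x' i = bef x i := fun i hi =>
    bef_congr26 fun j hj => hx'1 j (by omega)
  refine ⟨x', ?_, ?_⟩
  · rw [hx'1 0 (by omega)]
    exact h.1
  · intro i hi1 hi2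
    rw [hbef i hi2]
    rcases Nat.lt_or_ge n i with h1 | h1
    · have h2 : i = n + 1 := by omega
      subst h2
      rw [hx'2]
      exact ⟨hvc, fun w hw => hmin w (hSm w hw)⟩
    · rw [hx'1 i (by omega)]
      exact h.2 i hi1 h1

private theorem good_end26 {D : Finset (ℤ × ℤ)} {K s : ℕ} {u : ℤ × ℤ} {ω : Finset Edge}
    (hω : ω ⊆ edges D) (hu : u ∈ D) :
    ∃ (n : ℕ) (x : ℕ → ℤ × ℤ), Good26 K s u ω n x ∧ ∀ v, ¬ Cand26 K s u ω (bef x (n + 1)) v := by
  by_contra hno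
  push Not at hno
  have key : ∀ n, ∃ x, Good26 K s u ω n x := by
    intro n
    induction n with
    | zero => exact ⟨fun _ => u, rfl, fun i h1 h2 => absurd h1 (by omega)⟩
    | succ n ih =>
      obtain ⟨x, hx⟩ := ih
      exact good_step26 hω hu hx (hno n x hx)
  obtain ⟨x, hx⟩ := key D.card
  have := good_card26 hω hu hx
  omega

/-- (C1) Existence of the skeleton. Proof: construct `x 0 = u`, `x (i+1)` = the lexicographically smallest `v` with
`Conn ω u v`, `nd v (x j) = K + 2s + 1` for some `j ≤ i`, `K + 2s < nd v (x j)` for all `j ≤ i`, and `Ex K s {x 0..x i} v ω`,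
as long as there is one (all are different points of `D`, so the construction stops). Greedy rule: a later point at distance
`K + 2s + 1` from `{x 0, .., x i}` was already a candidate at time `i` (`Ex K s P v` is decreasing in `P`). Covering: if `v`
is in the cluster and `nd v (x i) > 2K+2s+1` for all `i`, follow an open path from `v` to `u`; let `y` be the last vertex before the
path enters the union of the `Lam (x i) (K+2s)` for the first time; the path from `y` back to `v` avoids this union and leaves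
`Lam y K`; so `y` is a candidate, contradiction. -/
theorem skeleton {D : Finset (ℤ × ℤ)} {ω : Finset Edge} (hω : ω ⊆ edges D) {u : ℤ × ℤ} (hu : u ∈ D) {K s : ℕ}
    (hK : 1 ≤ K) (hbig : ∃ v, Conn ω u v ∧ (K : ℤ) ≤ nd u v) :
    ∃ (N : ℕ) (x : ℕ → ℤ × ℤ), Chain K s u N x ∧ Sk K s N x ω ∧ (∀ i ≤ N, Conn ω u (x i)) ∧
      ∀ v, Conn ω u v → ∃ i ≤ N, nd v (x i) ≤ 2 * K + 2 * s + 1 := by
  classical
  obtain ⟨N, x, hx, hend⟩ := good_end26 (K := K) (s := s) hω hu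
  refine ⟨N, x, ⟨hx.1, ?_, fun i hi j hj => good_far26 hx hi hj, ?_⟩, ?_, fun i hi => good_conn26 hx hi, ?_⟩
  · intro i h1 h2
    obtain ⟨p, hp, hpn⟩ := (hx.2 i h1 h2).1.2.1
    obtain ⟨j, hj, rfl⟩ := mem_bef26.1 hp
    exact ⟨j, hj, hpn⟩
  · rintro i hi j hij hj ⟨l, hl, hln⟩
    refine (hx.2 (i + 1) (by omega) (by omega)).2 (x j) ⟨good_conn26 hx hj,
      ⟨x l, mem_bef26.2 ⟨l, by omega, rfl⟩, hln⟩, ?_, ?_⟩
    · intro p hp
      obtain ⟨l', hl', rfl⟩ := mem_bef26.1 hp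
      exact good_far26 hx hj (by omega)
    · refine ex_anti26 ?_ (hx.2 j (by omega) hj).1.2.2.2
      intro p hp
      obtain ⟨l', hl', h'⟩ := mem_bef26.1 hp
      exact mem_bef26.2 ⟨l', by omega, h'⟩
  · intro i hi
    rcases Nat.eq_zero_or_pos i with rfl | h0
    · obtain ⟨v, hv, hvK⟩ := hbig
      obtain ⟨w, hw, hwc⟩ := exit26 hv hvK
      rw [hx.1]
      refine ⟨w, hw, ?_⟩
      have h1 : Bs K s (bef x 0) u = Lam u K := by
        unfold Bs bef
        simp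
      unfold Cin
      rw [h1]
      exact hwc
    · exact (hx.2 i h0 hi).1.2.2.2
  · intro v hv
    by_contra hno
    push Not at hno
    set P : Finset (ℤ × ℤ) := bef x (N + 1) with hP
    set U : Finset (ℤ × ℤ) := P.biUnion fun p => Lam p (K + 2 * s) with hU
    have hUm : ∀ z, z ∈ U ↔ ∃ i ≤ N, nd z (x i) ≤ ((K + 2 * s : ℕ) : ℤ) := by
      intro z
      rw [hU, Finset.mem_biUnion]
      constructor
      · rintro ⟨p, hp, hz⟩
        obtain ⟨i, hi, rfl⟩ := mem_bef26.1 hp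
        exact ⟨i, by omega, mem_Lam26.1 hz⟩
      · rintro ⟨i, hi, hz⟩
        exact ⟨x i, mem_bef26.2 ⟨i, by omega, rfl⟩, mem_Lam26.2 hz⟩
    have hvU : v ∉ U := by
      intro h1
      obtain ⟨i, hi, h2⟩ := (hUm v).1 h1
      have h3 := hno i hi
      push_cast at h2
      omega
    have huU : u ∈ U := by
      refine (hUm u).2 ⟨0, by omega, ?_⟩
      rw [hx.1, nd_le26]
      refine ⟨⟨?_, ?_⟩, ?_, ?_⟩ <;> omega
    set ωU : Finset Edge := ω.filter fun e => e.1 ∉ U ∧ tip e ∉ U with hωU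
    have hsub : ωU ⊆ ω := Finset.filter_subset _ _
    -- the last vertex before the path enters `U`
    obtain ⟨y, y', hyc, hyU, hyU', hyy⟩ : ∃ y y', Conn ωU v y ∧ y ∉ U ∧ y' ∈ U ∧
        ((y.1 - y'.1 ≤ 1 ∧ y'.1 - y.1 ≤ 1) ∧ (y.2 - y'.2 ≤ 1 ∧ y'.2 - y.2 ≤ 1)) := by
      by_contra hcon
      push Not at hcon
      have key : u ∈ {w | Conn ωU v w ∧ w ∉ U} := by
        refine induct26 (SimpleGraph.Reachable.symm hv) ⟨SimpleGraph.Reachable.refl v, hvU⟩ ?_
        intro e he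
        have ht := tip26 e
        constructor
        · rintro ⟨h1, h2⟩
          have h3 : tip e ∉ U := by
            intro h3
            have h4 := hcon e.1 (tip e) h1 h2 h3 ⟨by omega, by omega⟩ (by omega)
            omega
          exact ⟨SimpleGraph.Reachable.trans h1 (conn_edge26 (Finset.mem_filter.2 ⟨he, h2, h3⟩)), h3⟩
        · rintro ⟨h1, h2⟩
          have h3 : e.1 ∉ U := by
            intro h3
            have h4 := hcon (tip e) e.1 h1 h2 h3 ⟨by omega, by omega⟩ (by omega)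
            omega
          exact ⟨SimpleGraph.Reachable.trans h1
            (SimpleGraph.Reachable.symm (conn_edge26 (Finset.mem_filter.2 ⟨he, h3, h2⟩))), h3⟩
      exact key.2 huU
    obtain ⟨i, hi, hi'⟩ := (hUm y').1 hyU'
    have hfar : ∀ j ≤ N, (K : ℤ) + 2 * s < nd y (x j) := by
      intro j hj
      by_contra h1
      refine hyU ((hUm y).2 ⟨j, hj, ?_⟩)
      push_cast
      omega
    have hyi : nd y (x i) ≤ K + 2 * s + 1 := by
      rw [nd_le26] at hi' ⊢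
      push_cast at hi'
      refine ⟨⟨?_, ?_⟩, ?_, ?_⟩ <;> omega
    refine hend y ⟨SimpleGraph.Reachable.trans hv (conn_mono26 hsub hyc),
      ⟨x i, mem_bef26.2 ⟨i, by omega, rfl⟩, ?_⟩, ?_, ?_⟩
    · have := hfar i hi
      omega
    · intro p hp
      obtain ⟨j, hj, rfl⟩ := mem_bef26.1 hp
      exact hfar j (by omega)
    · have hyv : (K : ℤ) ≤ nd y v := by
        by_contra h1
        push Not at h1
        have h2 : nd y v ≤ K := by omega
        have h3 := hno i hi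
        have h4 : nd v (x i) ≤ 2 * K + 2 * s + 1 := by
          rw [nd_le26] at h2 hyi ⊢
          refine ⟨⟨?_, ?_⟩, ?_, ?_⟩ <;> omega
        omega
      obtain ⟨w, hw, hwc⟩ := exit26 (SimpleGraph.Reachable.symm hyc) hyv
      refine ⟨w, hw, conn_mono26 ?_ hwc⟩
      intro e he
      rw [Finset.mem_inter, mem_edges26] at he
      have he1 := Finset.mem_filter.1 he.1
      rw [Finset.mem_inter, mem_edges26]
      unfold Bs
      rw [Finset.mem_sdiff, Finset.mem_sdiff]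
      exact ⟨he1.1, ⟨he.2.1, he1.2.1⟩, he.2.2, he1.2.2⟩

end Pool.Helper17.OZ
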