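import Pool.Agent.Helper17.OZ.Defs

/-! Block OZ-L2-C2. -/

namespace Pool.Helper17.OZ

open Pool.Helper49.FK

private theorem nd_comm' (x y : ℤ × ℤ) : nd x y = nd y x := by
  unfold nd
  rw [abs_sub_comm x.1, abs_sub_comm x.2]

private theorem walk_aux {M : ℤ} {u : ℤ × ℤ} {x : ℕ → ℤ × ℤ} (h0 : x 0 = u) (N : ℕ)
    (hp : ∀ i, 1 ≤ i → i ≤ N → ∃ j < i, nd (x i) (x j) = M) :
    ∃ f : ℕ → ℤ × ℤ, f 0 = u ∧ (∀ k < 2 * N, nd (f k) (f (k + 1)) = M) ∧
      (Finset.range (2 * N + 1)).image f = (Finset.range (N + 1)).image x := by
  induction N with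
  | zero =>
    refine ⟨fun _ => u, rfl, fun k hk => by omega, ?_⟩
    simp [h0]
  | succ N ih =>
    obtain ⟨f, hf0, hf1, hf2⟩ := ih fun i h1 h2 => hp i h1 (by omega)
    obtain ⟨j, hj, hjM⟩ := hp (N + 1) (by omega) le_rfl
    have hxj : x j ∈ (Finset.range (2 * N + 1)).image f := by
      rw [hf2]
      exact Finset.mem_image_of_mem _ (Finset.mem_range.2 hj)
    obtain ⟨k, hk, hkx⟩ := Finset.mem_image.1 hxj
    have hk' : k < 2 * N + 1 := Finset.mem_range.1 hk
    refine ⟨fun i => if i ≤ k then f i else if i = k + 1 then x (N + 1) else f (i - 2), ?_, ?_, ?_⟩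
    · simp [hf0]
    · intro i hi
      by_cases h1 : i < k
      · have e1 : i ≤ k := by omega
        have e2 : i + 1 ≤ k := by omega
        simp only [e1, e2, if_true]
        exact hf1 i (by omega)
      by_cases h2 : i = k
      · subst h2
        have e2 : ¬i + 1 ≤ i := by omega
        simp only [le_refl, if_true, e2, if_false]
        rw [hkx, nd_comm']
        exact hjM
      by_cases h3 : i = k + 1
      · subst h3
        have e1 : ¬k + 1 ≤ k := by omega
        have e2 : ¬k + 1 + 1 ≤ k := by omega
        have e3 : ¬k + 1 + 1 = k + 1 := by omega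
        have e4 : k + 1 + 1 - 2 = k := by omega
        simp only [e1, e2, e3, if_false, if_true, e4]
        rw [hkx]
        exact hjM
      · have e1 : ¬i ≤ k := by omega
        have e2 : ¬i + 1 ≤ k := by omega
        have e3 : ¬i + 1 = k + 1 := by omega
        have e4 : i + 1 - 2 = i - 2 + 1 := by omega
        simp only [e1, e2, h3, e3, if_false, e4]
        exact hf1 (i - 2) (by omega)
    · have himg : (Finset.range (2 * (N + 1) + 1)).image
          (fun i => if i ≤ k then f i else if i = k + 1 then x (N + 1) else f (i - 2)) =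
          insert (x (N + 1)) ((Finset.range (2 * N + 1)).image f) := by
        ext z
        simp only [Finset.mem_image, Finset.mem_range, Finset.mem_insert]
        constructor
        · rintro ⟨i, hi, rfl⟩
          by_cases h1 : i ≤ k
          · rw [if_pos h1]
            exact Or.inr ⟨i, by omega, rfl⟩
          · rw [if_neg h1]
            by_cases h2 : i = k + 1
            · rw [if_pos h2]
              exact Or.inl rfl
            · rw [if_neg h2]
              exact Or.inr ⟨i - 2, by omega, rfl⟩
        · rintro (rfl | ⟨i, hi, rfl⟩)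
          · refine ⟨k + 1, by omega, ?_⟩
            rw [if_neg (by omega), if_pos rfl]
          · by_cases h1 : i ≤ k
            · exact ⟨i, by omega, by rw [if_pos h1]⟩
            · refine ⟨i + 2, by omega, ?_⟩
              rw [if_neg (by omega), if_neg (by omega)]
              congr 1
      rw [himg, hf2, Finset.range_add_one (n := N + 1), Finset.image_insert]

/-- (C2a) A walk of length `2 N` around the tree. Induction on `N`: insert a detour to `x N` at its parent. -/
theorem chain_walk {K s : ℕ} {u : ℤ × ℤ} {N : ℕ} {x : ℕ → ℤ × ℤ} (h : Chain K s u N x) :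
    ∃ f : ℕ → ℤ × ℤ, f 0 = u ∧ (∀ k < 2 * N, nd (f k) (f (k + 1)) = K + 2 * s + 1) ∧
      (Finset.range (2 * N + 1)).image f = (Finset.range (N + 1)).image x :=
  walk_aux h.zero N h.par

private theorem unique_aux {K s : ℕ} {u : ℤ × ℤ} {N : ℕ} {x y : ℕ → ℤ × ℤ} (hx : Chain K s u N x)
    (hy : Chain K s u N y) (h : (Finset.range (N + 1)).image x = (Finset.range (N + 1)).image y)
    (i : ℕ) (hi : i < N) (hl : ∀ l ≤ i, x l = y l) : toLex (y (i + 1)) ≤ toLex (x (i + 1)) := by
  have hm : x (i + 1) ∈ (Finset.range (N + 1)).image y := by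
    rw [← h]
    exact Finset.mem_image_of_mem _ (Finset.mem_range.2 (by omega))
  obtain ⟨j, hj, hjx⟩ := Finset.mem_image.1 hm
  have hj' : j < N + 1 := Finset.mem_range.1 hj
  have hij : i < j := by
    by_contra hc
    have e1 : x j = y j := hl j (by omega)
    have e2 := hx.far (i + 1) (by omega) j (by omega)
    rw [← hjx, e1] at e2
    have e3 : nd (y j) (y j) = 0 := by simp [nd]
    rw [e3] at e2
    omega
  obtain ⟨l, hl1, hl2⟩ := hx.par (i + 1) (by omega) (by omega)
  have := hy.greedy i hi j hij (by omega) ⟨l, by omega, by rw [hjx, ← hl l (by omega)]; exact hl2⟩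
  rwa [hjx] at this

/-- (C2b) The order is determined by the set (greedy rule; the points are different by `far`). -/
theorem chain_unique {K s : ℕ} {u : ℤ × ℤ} {N : ℕ} {x y : ℕ → ℤ × ℤ} (hx : Chain K s u N x)
    (hy : Chain K s u N y) (h : (Finset.range (N + 1)).image x = (Finset.range (N + 1)).image y) :
    ∀ i ≤ N, x i = y i := by
  have key : ∀ i ≤ N, ∀ l ≤ i, x l = y l := by
    intro i
    induction i with
    | zero =>
      intro _ l hl
      have : l = 0 := by omega
      subst this
      rw [hx.zero, hy.zero]
    | succ i ih =>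
      intro hi l hl
      have ih' := ih (by omega)
      by_cases hli : l ≤ i
      · exact ih' l hli
      · have : l = i + 1 := by omega
        subst this
        have h1 := unique_aux hx hy h i (by omega) ih'
        have h2 := unique_aux hy hx h.symm i (by omega) fun l hl => (ih' l hl).symm
        exact toLex_inj.1 (le_antisymm h2 h1)
  intro i hi
  exact key i hi i le_rfl

end Pool.Helper17.OZ
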