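import Pool.Agent.Helper17.OZ.WiD

/-! Block OZ-L2-B2. -/

namespace Pool.Helper17.OZ

open Pool.Helper49.FK

private theorem Z_pos71 {q : ℝ} (hq : 1 ≤ q) {r : Edge → ℝ} (h0 : ∀ e, 0 < r e) (D : Finset (ℤ × ℤ)) :
    0 < Z q r D := by
  unfold Z wt
  refine Finset.sum_pos (fun ω _ => mul_pos (Finset.prod_pos fun e _ => h0 e) (pow_pos (by linarith) _)) ?_
  exact ⟨∅, Finset.empty_mem_powerset _⟩

open Classical in
private theorem pr_congr71 {q : ℝ} {r : Edge → ℝ} {D : Finset (ℤ × ℤ)} {A B : Finset Edge → Prop}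
    (h : ∀ ω ⊆ edges D, (A ω ↔ B ω)) : pr q r D A = pr q r D B := by
  unfold pr ex
  congr 1
  refine Finset.sum_congr rfl fun ω hω => ?_
  have h1 := h ω (Finset.mem_powerset.1 hω)
  show wt q r D ω * (if A ω then 1 else 0) = wt q r D ω * (if B ω then 1 else 0)
  by_cases hA : A ω
  · rw [if_pos hA, if_pos (h1.1 hA)]
  · rw [if_neg hA, if_neg (fun hB => hA (h1.2 hB))]

open Classical in
private theorem pr_true71 {q : ℝ} (hq : 1 ≤ q) {r : Edge → ℝ} (h0 : ∀ e, 0 < r e) (D : Finset (ℤ × ℤ))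
    {A : Finset Edge → Prop} (h : ∀ ω, A ω) : pr q r D A = 1 := by
  unfold pr ex
  have h1 : ∑ ω ∈ (edges D).powerset, wt q r D ω * (if A ω then (1 : ℝ) else 0) = Z q r D := by
    unfold Z
    refine Finset.sum_congr rfl fun ω _ => ?_
    rw [if_pos (h ω), mul_one]
  rw [h1, div_self (Z_pos71 hq h0 D).ne']

private theorem prO_empty71 {q : ℝ} (hq : 1 ≤ q) {r : Edge → ℝ} (h0 : ∀ e, 0 < r e) (D : Finset (ℤ × ℤ))
    (A : Finset Edge → Prop) : prO q r D ∅ A = pr q r D A := by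
  unfold prO
  rw [pr_true71 hq h0 D (A := fun ω => ∅ ⊆ ω) (fun ω => Finset.empty_subset ω), div_one]
  exact pr_congr71 fun ω _ => ⟨fun h => h.2, fun h => ⟨Finset.empty_subset ω, h⟩⟩

private theorem edge_disj71 {K s : ℕ} {x : ℕ → ℤ × ℤ} {i N : ℕ} (hi : i < N) {e : Edge}
    (h1 : e ∈ edges (Bs K s (bef x i) (x i))) : e ∉ edges (Bp K s (bef x N) (x N)) := by
  intro h2
  have h3 : e.1 ∈ Bs K s (bef x i) (x i) := by
    unfold edges at h1
    rw [Finset.mem_filter, Finset.mem_product] at h1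
    exact h1.1.1
  have h4 : e.1 ∈ Bp K s (bef x N) (x N) := by
    unfold edges at h2
    rw [Finset.mem_filter, Finset.mem_product] at h2
    exact h2.1.1
  unfold Bs at h3
  unfold Bp at h4
  rw [Finset.mem_sdiff] at h3 h4
  apply h4.2
  rw [Finset.mem_biUnion]
  refine ⟨x i, ?_, ?_⟩
  · unfold bef
    exact Finset.mem_image_of_mem _ (Finset.mem_range.2 hi)
  · have h5 := h3.1
    unfold Lam at h5 ⊢
    rw [Finset.mem_product, Finset.mem_Icc, Finset.mem_Icc] at h5 ⊢
    push_cast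
    omega

/-- (B2) The product bound. Proof: induction on `N`; the sets `Bp K s (bef x i) (x i)` are disjoint, so the events with
index `< N` depend only on edges in `edges D ∖ edges (Bp .. (x N))`: `prO_step` with `F₀ = ∅`. -/
theorem sk_le {q ρ : ℝ} (hq : 1 ≤ q) {r : Edge → ℝ} (h0 : ∀ e, 0 < r e) (hr : ∀ e, r e ≤ ρ) {κ : ℕ → ℝ}
    (hE : ExpWith q ρ κ) {K s : ℕ} (hK : 1 ≤ K) (hs : 4 ≤ s)
    (hκ : (2 * K + 2 * s + 1) ^ 2 * κ (s / 2 - 1) ≤ 1 / 2) (D : Finset (ℤ × ℤ)) (N : ℕ) (x : ℕ → ℤ × ℤ)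
    (hx : ∀ i ≤ N, ∀ j < i, (K : ℤ) + 2 * s < nd (x i) (x j)) :
    pr q r D (Sk K s N x) ≤ (16 * K * Real.exp (-tau q ρ * K)) ^ (N + 1) := by
  have hc : 0 ≤ 16 * (K : ℝ) * Real.exp (-tau q ρ * K) := by positivity
  have key : ∀ n : ℕ, pr q r D (fun ω => ∀ i < n, Ex K s (bef x i) (x i) ω) ≤
      (16 * K * Real.exp (-tau q ρ * K)) ^ n := by
    intro n
    induction n with
    | zero =>
      rw [pow_zero, pr_true71 hq h0 D (fun ω i hi => absurd hi (Nat.not_lt_zero i))]
    | succ n ih =>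
      have h1 : pr q r D (fun ω => ∀ i < n + 1, Ex K s (bef x i) (x i) ω) =
          prO q r D ∅ (fun ω => Ex K s (bef x n) (x n) ω ∧ ∀ i < n, Ex K s (bef x i) (x i) ω) := by
        rw [prO_empty71 hq h0]
        refine pr_congr71 fun ω _ => ⟨fun h => ⟨h n (Nat.lt_succ_self n), fun i hi => h i (Nat.lt_succ_of_lt hi)⟩,
          fun h i hi => ?_⟩
        rcases Nat.lt_succ_iff_lt_or_eq.1 hi with h2 | h2
        · exact h.2 i h2
        · rw [h2]; exact h.1
      have hdep : Dep D (edges D \ edges (Bp K s (bef x n) (x n)))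
          (fun ω => ∀ i < n, Ex K s (bef x i) (x i) ω) := by
        intro ω hω ω' hω' h
        have h3 : ∀ i < n, (Ex K s (bef x i) (x i) ω ↔ Ex K s (bef x i) (x i) ω') := by
          intro i hi
          refine dep_Ex D K s (bef x i) (x i) ω hω ω' hω' ?_
          ext e
          rw [Finset.mem_inter, Finset.mem_inter]
          constructor
          · rintro ⟨h4, h5⟩
            have h6 : e ∈ ω ∩ (edges D \ edges (Bp K s (bef x n) (x n))) :=
              Finset.mem_inter.2 ⟨h4, Finset.mem_sdiff.2 ⟨hω h4, edge_disj71 hi h5⟩⟩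
            rw [h] at h6
            exact ⟨(Finset.mem_inter.1 h6).1, h5⟩
          · rintro ⟨h4, h5⟩
            have h6 : e ∈ ω' ∩ (edges D \ edges (Bp K s (bef x n) (x n))) :=
              Finset.mem_inter.2 ⟨h4, Finset.mem_sdiff.2 ⟨hω' h4, edge_disj71 hi h5⟩⟩
            rw [← h] at h6
            exact ⟨(Finset.mem_inter.1 h6).1, h5⟩
        exact ⟨fun h4 i hi => (h3 i hi).1 (h4 i hi), fun h4 i hi => (h3 i hi).2 (h4 i hi)⟩
      have h2 := prO_step (D := D) hq h0 (F₀ := ∅) (F := edges D \ edges (Bp K s (bef x n) (x n)))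
        (Finset.empty_subset _) Finset.sdiff_subset (inc_Ex K s (bef x n) (x n)) hdep
      rw [h1]
      refine h2.trans ?_
      rw [Finset.empty_union, prO_empty71 hq h0, pow_succ, mul_comm]
      refine mul_le_mul ih (exit_wired hq h0 hr hE hK hs hκ D (bef x n) (x n)) ?_ (pow_nonneg hc _)
      unfold prO pr ex
      have h4 : ∀ A : Finset Edge → Prop, 0 ≤ (∑ ω ∈ (edges D).powerset,
          wt q r D ω * (@ite ℝ (A ω) (Classical.propDecidable _) 1 0)) / Z q r D := by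
        intro A
        refine div_nonneg (Finset.sum_nonneg fun ω _ => mul_nonneg ?_ ?_) (Z_pos71 hq h0 D).le
        · unfold wt
          exact mul_nonneg (Finset.prod_nonneg fun e _ => (h0 e).le) (pow_nonneg (by linarith) _)
        · split_ifs <;> norm_num
      exact div_nonneg (h4 _) (h4 _)
  have h1 : pr q r D (Sk K s N x) = pr q r D (fun ω => ∀ i < N + 1, Ex K s (bef x i) (x i) ω) := by
    refine pr_congr71 fun ω _ => ?_
    unfold Sk
    exact ⟨fun h i hi => h i (Nat.lt_succ_iff.1 hi), fun h i hi => h i (Nat.lt_succ_iff.2 hi)⟩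
  rw [h1]
  exact key (N + 1)

end Pool.Helper17.OZ
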