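import Pool.Agent.Helper17.OZ.SkB
import Pool.Agent.Helper17.OZ.WiE

/-! Block OZ-L2-C3. -/

namespace Pool.Helper17.OZ

open Pool.Helper49.FK

/-- The points at sup distance `R` from the origin. -/
private noncomputable def ring19 (R : ℤ) : Finset (ℤ × ℤ) :=
  (Finset.Icc (-R) R ×ˢ Finset.Icc (-R) R) \
    (Finset.Icc (-R + 1) (R - 1) ×ˢ Finset.Icc (-R + 1) (R - 1))

private theorem mem_ring19 {R : ℤ} {x y : ℤ × ℤ} (h : nd x y = R) : y - x ∈ ring19 R := by
  unfold nd at h
  have h1 : |x.1 - y.1| ≤ R := h ▸ le_max_left _ _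
  have h2 : |x.2 - y.2| ≤ R := h ▸ le_max_right _ _
  rw [abs_le] at h1 h2
  simp only [ring19, Finset.mem_sdiff, Finset.mem_product, Finset.mem_Icc, Prod.fst_sub,
    Prod.snd_sub]
  refine ⟨⟨⟨by omega, by omega⟩, by omega, by omega⟩, ?_⟩
  rintro ⟨⟨a, b⟩, c, d⟩
  rcases max_choice |x.1 - y.1| |x.2 - y.2| with e | e
  · rw [e] at h
    rcases abs_cases (x.1 - y.1) with f | f <;> omega
  · rw [e] at h
    rcases abs_cases (x.2 - y.2) with f | f <;> omega

private theorem card_ring19 {R : ℤ} (h : 1 ≤ R) : ((ring19 R).card : ℝ) = 8 * R := by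
  have hsub : (Finset.Icc (-R + 1) (R - 1) ×ˢ Finset.Icc (-R + 1) (R - 1)) ⊆
      (Finset.Icc (-R) R ×ˢ Finset.Icc (-R) R) :=
    Finset.product_subset_product (Finset.Icc_subset_Icc (by omega) (by omega))
      (Finset.Icc_subset_Icc (by omega) (by omega))
  have h1 := Finset.card_sdiff_add_card_eq_card hsub
  rw [Finset.card_product, Finset.card_product] at h1
  have h2 : (((Finset.Icc (-R) R).card : ℤ)) = 2 * R + 1 := by
    rw [Int.card_Icc_of_le _ _ (by omega)]
    ring
  have h3 : (((Finset.Icc (-R + 1) (R - 1)).card : ℤ)) = 2 * R - 1 := by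
    rw [Int.card_Icc_of_le _ _ (by omega)]
    ring
  have h4 : ((ring19 R).card : ℤ) = 8 * R := by
    have h5 : (((ring19 R).card + (Finset.Icc (-R + 1) (R - 1)).card *
        (Finset.Icc (-R + 1) (R - 1)).card : ℕ) : ℤ) =
        (((Finset.Icc (-R) R).card * (Finset.Icc (-R) R).card : ℕ) : ℤ) := by
      exact_mod_cast h1
    push_cast at h5
    rw [h2, h3] at h5
    linarith
  exact_mod_cast h4

/-- The walks of length `n`: image and end point. -/
private theorem walks19 {R : ℤ} (hR : 1 ≤ R) (u : ℤ × ℤ) (n : ℕ) :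
    ∃ W : Finset (Finset (ℤ × ℤ) × (ℤ × ℤ)), (W.card : ℝ) ≤ (8 * R) ^ n ∧
      ∀ f : ℕ → ℤ × ℤ, f 0 = u → (∀ k < n, nd (f k) (f (k + 1)) = R) →
        ((Finset.range (n + 1)).image f, f n) ∈ W := by
  classical
  induction n with
  | zero =>
    refine ⟨{({u}, u)}, by simp, fun f hf _ => ?_⟩
    simp [hf]
  | succ n ih =>
    obtain ⟨W, hW, hf⟩ := ih
    refine ⟨(W ×ˢ ring19 R).image fun p => (insert (p.1.2 + p.2) p.1.1, p.1.2 + p.2), ?_, ?_⟩
    · have h1 : (((W ×ˢ ring19 R).image fun p => (insert (p.1.2 + p.2) p.1.1, p.1.2 + p.2)).card : ℝ) ≤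
          ((W ×ˢ ring19 R).card : ℝ) := by exact_mod_cast Finset.card_image_le
      refine h1.trans ?_
      rw [Finset.card_product, pow_succ]
      push_cast
      rw [card_ring19 hR]
      have hR0 : (0 : ℝ) ≤ R := by exact_mod_cast (by omega : (0 : ℤ) ≤ R)
      exact mul_le_mul_of_nonneg_right hW (by positivity)
    · intro f h0 hk
      rw [Finset.mem_image]
      refine ⟨((((Finset.range (n + 1)).image f), f n), f (n + 1) - f n), ?_, ?_⟩
      · rw [Finset.mem_product]
        exact ⟨hf f h0 fun k hk' => hk k (by omega), mem_ring19 (hk n (by omega))⟩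
      · simp only [add_sub_cancel]
        rw [Finset.range_add_one (n := n + 1), Finset.image_insert]

/-- (C2c) Union bound over the walks of length `2 N` (`8 R` points at sup distance `R ≥ 1`), for one walk at most one
chain: `sk_le`. -/
theorem chain_le {q ρ : ℝ} (hq : 1 ≤ q) {r : Edge → ℝ} (h0 : ∀ e, 0 < r e) (hr : ∀ e, r e ≤ ρ) {κ : ℕ → ℝ}
    (hE : ExpWith q ρ κ) {K s : ℕ} (hK : 1 ≤ K) (hs : 4 ≤ s)
    (hκ : (2 * K + 2 * s + 1) ^ 2 * κ (s / 2 - 1) ≤ 1 / 2) (D : Finset (ℤ × ℤ)) (u : ℤ × ℤ) (N : ℕ) :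
    pr q r D (fun ω => ∃ x, Chain K s u N x ∧ Sk K s N x ω) ≤
      ((8 * (K + 2 * s + 1) : ℝ) ^ 2) ^ N * (16 * K * Real.exp (-tau q ρ * K)) ^ (N + 1) := by
  classical
  obtain ⟨W, hW, hf⟩ := walks19 (R := (K : ℤ) + 2 * s + 1) (by omega) u (2 * N)
  have hb : 0 ≤ (16 * K * Real.exp (-tau q ρ * K)) ^ (N + 1) := by positivity
  have h1 := pr_union (q := q) (r := r) (D := D) hq h0 W
    (A := fun ω => ∃ x, Chain K s u N x ∧ Sk K s N x ω)
    (B := fun p ω => ∃ x, Chain K s u N x ∧ (Finset.range (N + 1)).image x = p.1 ∧ Sk K s N x ω)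
    (by
      rintro ω _ ⟨x, hx, hsk⟩
      obtain ⟨f, hf0, hfk, him⟩ := chain_walk hx
      exact ⟨_, hf f hf0 hfk, x, hx, him.symm, hsk⟩)
  have h2 : ∀ p ∈ W, pr q r D (fun ω => ∃ x, Chain K s u N x ∧
      (Finset.range (N + 1)).image x = p.1 ∧ Sk K s N x ω) ≤
      (16 * K * Real.exp (-tau q ρ * K)) ^ (N + 1) := by
    intro p _
    by_cases hp : ∃ y, Chain K s u N y ∧ (Finset.range (N + 1)).image y = p.1
    · obtain ⟨y, hy, hyp⟩ := hp
      have h3 := pr_union (q := q) (r := r) (D := D) hq h0 {()}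
        (A := fun ω => ∃ x, Chain K s u N x ∧ (Finset.range (N + 1)).image x = p.1 ∧ Sk K s N x ω)
        (B := fun _ => Sk K s N y)
        (by
          rintro ω _ ⟨x, hx, hxp, hsk⟩
          refine ⟨(), by simp, fun i hi => ?_⟩
          have hu := chain_unique hx hy (hxp.trans hyp.symm)
          have hbef : bef x i = bef y i := by
            unfold bef
            refine Finset.image_congr fun j hj => hu j ?_
            have := Finset.mem_range.mp hj
            omega
          rw [← hbef, ← hu i hi]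
          exact hsk i hi)
      rw [Finset.sum_singleton] at h3
      exact h3.trans (sk_le hq h0 hr hE hK hs hκ D N y hy.far)
    · have h3 := pr_union (q := q) (r := r) (D := D) hq h0 (∅ : Finset Unit)
        (A := fun ω => ∃ x, Chain K s u N x ∧ (Finset.range (N + 1)).image x = p.1 ∧ Sk K s N x ω)
        (B := fun _ _ => False)
        (by
          rintro ω _ ⟨x, hx, hxp, _⟩
          exact absurd ⟨x, hx, hxp⟩ hp)
      rw [Finset.sum_empty] at h3
      exact h3.trans hb
  refine h1.trans ((Finset.sum_le_sum h2).trans ?_)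
  rw [Finset.sum_const, nsmul_eq_mul]
  refine mul_le_mul_of_nonneg_right (hW.trans (le_of_eq ?_)) hb
  rw [← pow_mul]
  push_cast
  ring

end Pool.Helper17.OZ
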