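import Pool.Agent.Helper17.OZ.Defs

/-! Block OZ-L2-E0. `D` is a rectangle. -/

namespace Pool.Helper17.OZ

open Pool.Helper49.FK

/-- Membership in the double cone. -/
theorem mem_DC_iff {M : ℕ} {a b c d : ℤ} {t y : ℤ × ℤ} :
    y ∈ DC M (rect a b c d) t ↔
      ((t.1 - 12 * M ≤ y.1 ∧ y.1 ≤ t.1 + 12 * M) ∧ (t.2 - 12 * M ≤ y.2 ∧ y.2 ≤ t.2 + 12 * M)) ∧
      ((a ≤ y.1 ∧ y.1 ≤ b) ∧ (c ≤ y.2 ∧ y.2 ≤ d)) ∧
      (|y.2 - t.2| ≤ 8 * (y.1 - t.1) ∨ |t.2 - y.2| ≤ 8 * (t.1 - y.1)) := by
  unfold DC Q Lam rect Y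
  simp only [Finset.mem_filter, Finset.mem_inter, Finset.mem_product, Finset.mem_Icc, Prod.fst_sub,
    Prod.snd_sub, Nat.cast_mul, Nat.cast_ofNat, and_assoc]

/-- An edge with both ends in `B ⊆ D`. -/
theorem conn_edge {D B : Finset (ℤ × ℤ)} (hB : B ⊆ D) {e : Edge} (h1 : e.1 ∈ B) (h2 : tip e ∈ B) :
    Cin (edges D) B e.1 (tip e) := by
  refine SimpleGraph.Adj.reachable ⟨e, ?_, Or.inl ⟨rfl, rfl⟩⟩
  unfold edges
  simp only [Finset.mem_inter, Finset.mem_filter, Finset.mem_product, Finset.mem_univ, and_true]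
  exact ⟨⟨hB h1, hB h2⟩, h1, h2⟩

theorem DC_sub {M : ℕ} {D : Finset (ℤ × ℤ)} {t : ℤ × ℤ} : DC M D t ⊆ D := by
  classical
  intro y hy
  unfold DC at hy
  rw [Finset.mem_filter] at hy
  exact Finset.mem_of_mem_inter_right hy.1

theorem conn_up {M : ℕ} {D : Finset (ℤ × ℤ)} {t : ℤ × ℤ} {p r : ℤ} (h1 : (p, r) ∈ DC M D t)
    (h2 : (p, r + 1) ∈ DC M D t) : Cin (edges D) (DC M D t) (p, r) (p, r + 1) := by
  have := conn_edge (D := D) (B := DC M D t) DC_sub (e := ((p, r), false)) h1 (by simpa [tip] using h2)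
  simpa [tip] using this

theorem conn_right {M : ℕ} {D : Finset (ℤ × ℤ)} {t : ℤ × ℤ} {p r : ℤ} (h1 : (p, r) ∈ DC M D t)
    (h2 : (p + 1, r) ∈ DC M D t) : Cin (edges D) (DC M D t) (p, r) (p + 1, r) := by
  have := conn_edge (D := D) (B := DC M D t) DC_sub (e := ((p, r), true)) h1 (by simpa [tip] using h2)
  simpa [tip] using this

theorem dc_vert {M : ℕ} {a b c d : ℤ} {t : ℤ × ℤ} (ht : t ∈ rect a b c d) (n : ℕ) :
    ∀ p r : ℤ, (p, r) ∈ DC M (rect a b c d) t → (r - t.2).natAbs = n →
      Cin (edges (rect a b c d)) (DC M (rect a b c d) t) (p, r) (p, t.2) := by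
  unfold rect at ht
  simp only [Finset.mem_product, Finset.mem_Icc] at ht
  induction n with
  | zero =>
    intro p r _ hr
    have : r = t.2 := by omega
    subst this
    exact SimpleGraph.Reachable.refl _
  | succ n ih =>
    intro p r hp hr
    have hp' := mem_DC_iff.1 hp
    rcases le_or_gt t.2 r with h | h
    · have h1 : (p, r - 1) ∈ DC M (rect a b c d) t := by
        rw [mem_DC_iff]
        simp only at hp' ⊢
        simp only [abs_le] at hp' ⊢
        omega
      have h2 := ih p (r - 1) h1 (by omega)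
      have h3 := conn_up h1 (by simpa using hp)
      rw [sub_add_cancel] at h3
      exact h3.symm.trans h2
    · have h1 : (p, r + 1) ∈ DC M (rect a b c d) t := by
        rw [mem_DC_iff]
        simp only at hp' ⊢
        simp only [abs_le] at hp' ⊢
        omega
      have h2 := ih p (r + 1) h1 (by omega)
      exact (conn_up hp h1).trans h2

theorem dc_hor {M : ℕ} {a b c d : ℤ} {t : ℤ × ℤ} (ht : t ∈ rect a b c d) (n : ℕ) :
    ∀ p : ℤ, (p, t.2) ∈ DC M (rect a b c d) t → (p - t.1).natAbs = n →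
      Cin (edges (rect a b c d)) (DC M (rect a b c d) t) (p, t.2) t := by
  unfold rect at ht
  simp only [Finset.mem_product, Finset.mem_Icc] at ht
  induction n with
  | zero =>
    intro p _ hr
    have : p = t.1 := by omega
    subst this
    exact SimpleGraph.Reachable.refl _
  | succ n ih =>
    intro p hp hr
    have hp' := mem_DC_iff.1 hp
    rcases le_or_gt t.1 p with h | h
    · have h1 : (p - 1, t.2) ∈ DC M (rect a b c d) t := by
        rw [mem_DC_iff]
        simp only at hp' ⊢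
        simp only [abs_le] at hp' ⊢
        omega
      have h2 := ih (p - 1) h1 (by omega)
      have h3 := conn_right h1 (by simpa using hp)
      rw [sub_add_cancel] at h3
      exact h3.symm.trans h2
    · have h1 : (p + 1, t.2) ∈ DC M (rect a b c d) t := by
        rw [mem_DC_iff]
        simp only at hp' ⊢
        simp only [abs_le] at hp' ⊢
        omega
      have h2 := ih (p + 1) h1 (by omega)
      exact (conn_right hp h1).trans h2

theorem dc_conn_t {M : ℕ} {a b c d : ℤ} {t : ℤ × ℤ} (ht : t ∈ rect a b c d) :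
    ∀ x ∈ DC M (rect a b c d) t, Cin (edges (rect a b c d)) (DC M (rect a b c d) t) x t := by
  rintro ⟨p, r⟩ hx
  have h1 := dc_vert ht _ p r hx rfl
  have hx' := mem_DC_iff.1 hx
  have h2 : (p, t.2) ∈ DC M (rect a b c d) t := by
    unfold rect at ht
    simp only [Finset.mem_product, Finset.mem_Icc] at ht
    rw [mem_DC_iff]
    simp only at hx' ⊢
    simp only [abs_le] at hx' ⊢
    omega
  exact h1.trans (dc_hor ht _ p h2 rfl)

/-- (E0) The double cone is connected. Proof: `DC` in the column `t.1 + k` is a vertical segment which contains `(t.1 + k, t.2)`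
(if the column meets `D`), and the row of `t` connects the columns. -/
theorem dc_conn {M : ℕ} {a b c d : ℤ} {t : ℤ × ℤ} (ht : t ∈ rect a b c d) :
    ∀ x ∈ DC M (rect a b c d) t, ∀ y ∈ DC M (rect a b c d) t, Cin (edges (rect a b c d)) (DC M (rect a b c d) t) x y :=
  fun x hx y hy => (dc_conn_t ht x hx).trans (dc_conn_t ht y hy).symm

end Pool.Helper17.OZ
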