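import Pool.Agent.Helper17.OZ.SuA

/-! Block OZ-L2-E1. -/

namespace Pool.Helper17.OZ

open Pool.Helper49.FK

private theorem mem_Q_h12 {M : ℕ} {t x : ℤ × ℤ} : x ∈ Q M t ↔
    t.1 - 12 * M ≤ x.1 ∧ x.1 ≤ t.1 + 12 * M ∧ t.2 - 12 * M ≤ x.2 ∧ x.2 ≤ t.2 + 12 * M := by
  simp only [Q, Lam, Finset.mem_product, Finset.mem_Icc]
  push_cast
  tauto

private theorem mem_edges_h12 {D : Finset (ℤ × ℤ)} {e : Edge} : e ∈ edges D ↔ e.1 ∈ D ∧ tip e ∈ D := by
  simp [edges]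

private def Nb_h12 (x y : ℤ × ℤ) : Prop :=
  (y.1 = x.1 + 1 ∧ y.2 = x.2) ∨ (y.1 = x.1 - 1 ∧ y.2 = x.2) ∨
    (y.1 = x.1 ∧ y.2 = x.2 + 1) ∨ (y.1 = x.1 ∧ y.2 = x.2 - 1)

private theorem nb_of_adj_h12 {ω : Finset Edge} {x y : ℤ × ℤ} (h : (gr ω).Adj x y) : Nb_h12 x y := by
  obtain ⟨e, -, h⟩ := h
  have ht : tip e = (e.1.1 + 1, e.1.2) ∨ tip e = (e.1.1, e.1.2 + 1) := by
    unfold tip
    split_ifs
    · exact Or.inl rfl
    · exact Or.inr rfl
  unfold Nb_h12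
  rcases h with ⟨rfl, rfl⟩ | ⟨rfl, rfl⟩ <;> rcases ht with ht | ht <;> rw [ht] <;> simp

private theorem geo_h12 {M : ℕ} {t q q' : ℤ × ℤ} (hnb : Nb_h12 q q') (hq : q ∉ Q M t) (hq' : q' ∈ Q M t)
    (hY : Y (q - t) ∨ Y (t - q)) : Y (q' - t) ∨ Y (t - q') := by
  rw [mem_Q_h12] at hq hq'
  simp only [Y, Prod.fst_sub, Prod.snd_sub, abs_le] at hY ⊢
  unfold Nb_h12 at hnb
  rcases hY with hY | hY
  · left
    rcases hnb with h | h | h | h <;> omega
  · right
    rcases hnb with h | h | h | h <;> omega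

private theorem same_h12 {M : ℕ} (hM : 1 ≤ M) {T : Finset (ℤ × ℤ)} (hPS : PS M T) {t t' x y : ℤ × ℤ}
    (ht : t ∈ T) (ht' : t' ∈ T) (hx : x ∈ Q M t) (hy : y ∈ Q M t') (hnb : Nb_h12 x y) : t = t' := by
  by_contra hne
  rw [mem_Q_h12] at hx hy
  unfold Nb_h12 at hnb
  rcases hPS t ht t' ht' hne with h | h
  · have h1 := h.1
    rcases hnb with h | h | h | h <;> omega
  · have h1 := h.1
    rcases hnb with h | h | h | h <;> omega

private theorem dc_sub_h12 {M : ℕ} {D : Finset (ℤ × ℤ)} {t x : ℤ × ℤ} (h : x ∈ DC M D t) :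
    x ∈ Q M t ∧ x ∈ D := by
  classical
  have := (Finset.mem_filter.1 h).1
  exact Finset.mem_inter.1 this

private theorem mem_dc_h12 {M : ℕ} {D : Finset (ℤ × ℤ)} {t x : ℤ × ℤ} (h1 : x ∈ Q M t) (h2 : x ∈ D)
    (h3 : Y (x - t) ∨ Y (t - x)) : x ∈ DC M D t := by
  classical
  unfold DC
  exact Finset.mem_filter.2 ⟨Finset.mem_inter.2 ⟨h1, h2⟩, h3⟩

private theorem cases_h12 {M : ℕ} {D V T : Finset (ℤ × ℤ)} {ω : Finset Edge} {x y : ℤ × ℤ}
    (h : (gr (surg M D V T ω)).Adj x y) : x ∈ D ∧ y ∈ D ∧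
      ((x ∉ T.biUnion (Q M) ∧ y ∉ T.biUnion (Q M) ∧ (gr ω).Adj x y) ∨
      (∃ t ∈ T, x ∈ DC M D t ∧ y ∈ DC M D t) ∨
      (x ∈ V ∧ x ∉ T.biUnion (Q M) ∧ y ∈ T.biUnion (Q M)) ∨
      (y ∈ V ∧ y ∉ T.biUnion (Q M) ∧ x ∈ T.biUnion (Q M))) := by
  classical
  obtain ⟨e, he, h⟩ := h
  obtain ⟨heD, he⟩ := Finset.mem_filter.1 he
  rw [mem_edges_h12] at heD
  rcases h with ⟨h1, h2⟩ | ⟨h1, h2⟩
  · rw [h1, h2] at heD he
    refine ⟨heD.1, heD.2, ?_⟩
    split_ifs at he with hc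
    · exact Or.inl ⟨hc.1, hc.2, e, he, Or.inl ⟨h1, h2⟩⟩
    · rcases he with he | he | he
      · exact Or.inr (Or.inl he)
      · exact Or.inr (Or.inr (Or.inl he))
      · exact Or.inr (Or.inr (Or.inr he))
  · rw [h1, h2] at heD he
    refine ⟨heD.2, heD.1, ?_⟩
    split_ifs at he with hc
    · exact Or.inl ⟨hc.2, hc.1, e, he, Or.inr ⟨h1, h2⟩⟩
    · rcases he with ⟨t, ht, h3, h4⟩ | he | he
      · exact Or.inr (Or.inl ⟨t, ht, h4, h3⟩)
      · exact Or.inr (Or.inr (Or.inr he))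
      · exact Or.inr (Or.inr (Or.inl he))

private theorem adj_out_h12 {M : ℕ} {D V T : Finset (ℤ × ℤ)} {ω : Finset Edge} (hω : ω ⊆ edges D) {x y : ℤ × ℤ}
    (h : (gr ω).Adj x y) (hx : x ∉ T.biUnion (Q M)) (hy : y ∉ T.biUnion (Q M)) :
    (gr (surg M D V T ω)).Adj x y := by
  classical
  obtain ⟨e, he, h⟩ := h
  refine ⟨e, Finset.mem_filter.2 ⟨hω he, ?_⟩, h⟩
  have hc : e.1 ∉ T.biUnion (Q M) ∧ tip e ∉ T.biUnion (Q M) := by
    rcases h with ⟨h1, h2⟩ | ⟨h1, h2⟩ <;> rw [h1, h2]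
    · exact ⟨hx, hy⟩
    · exact ⟨hy, hx⟩
  rw [if_pos hc]
  exact he

private theorem adj_cross_h12 {M : ℕ} {D V T : Finset (ℤ × ℤ)} {ω : Finset Edge} (hω : ω ⊆ edges D) {x y : ℤ × ℤ}
    (h : (gr ω).Adj x y) (hxV : x ∈ V) (hx : x ∉ T.biUnion (Q M)) (hy : y ∈ T.biUnion (Q M)) :
    (gr (surg M D V T ω)).Adj x y := by
  classical
  obtain ⟨e, he, h⟩ := h
  refine ⟨e, Finset.mem_filter.2 ⟨hω he, ?_⟩, h⟩
  rcases h with ⟨h1, h2⟩ | ⟨h1, h2⟩
  · rw [h1, h2, if_neg (fun hc => hc.2 hy)]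
    exact Or.inr (Or.inl ⟨hxV, hx, hy⟩)
  · rw [h1, h2, if_neg (fun hc => hc.1 hy)]
    exact Or.inr (Or.inr ⟨hxV, hx, hy⟩)

private theorem dc_le_h12 {M : ℕ} {D V T : Finset (ℤ × ℤ)} {ω : Finset Edge} {t : ℤ × ℤ} (ht : t ∈ T) :
    gr (edges D ∩ edges (DC M D t)) ≤ gr (surg M D V T ω) := by
  classical
  intro x y hxy
  obtain ⟨e, he, h⟩ := hxy
  obtain ⟨heD, heC⟩ := Finset.mem_inter.1 he
  rw [mem_edges_h12] at heC
  refine ⟨e, Finset.mem_filter.2 ⟨heD, ?_⟩, h⟩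
  rw [if_neg (fun hc => hc.1 (Finset.mem_biUnion.2 ⟨t, ht, (dc_sub_h12 heC.1).1⟩))]
  exact Or.inl ⟨t, ht, heC⟩

/-- The induction along an open path. -/
private theorem walk_h12 {M : ℕ} (hM : 1 ≤ M) {a b c d : ℤ} {ω : Finset Edge} (hω : ω ⊆ edges (rect a b c d))
    {u w : ℤ × ℤ} (hu : u ∈ rect a b c d) {T : Finset (ℤ × ℤ)}
    (hT : ∀ t ∈ T, Clean M (clu (rect a b c d) ω u) u w t) (hPS : PS M T) {y : ℤ × ℤ} (hy : Conn ω u y) :
    (y ∈ rect a b c d) ∧ (y ∉ T.biUnion (Q M) →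
      Conn (surg M (rect a b c d) (clu (rect a b c d) ω u) T ω) u y) ∧
    (∀ t ∈ T, y ∈ Q M t → ∀ x ∈ DC M (rect a b c d) t,
      Conn (surg M (rect a b c d) (clu (rect a b c d) ω u) T ω) u x) := by
  classical
  have hmemV : ∀ z, z ∈ rect a b c d → Conn ω u z → z ∈ clu (rect a b c d) ω u :=
    fun z h1 h2 => Finset.mem_filter.2 ⟨h1, h2⟩
  have hreach : Relation.ReflTransGen (gr ω).Adj u y := by
    rw [← SimpleGraph.reachable_iff_reflTransGen]
    exact hy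
  induction hreach with
  | refl =>
    refine ⟨hu, fun _ => SimpleGraph.Reachable.refl _, fun t ht hut => ?_⟩
    have h1 := (hT t ht).left
    rw [mem_Q_h12] at hut
    omega
  | @tail y y' hr hadj ih =>
    have hy0 : Conn ω u y := by
      show (gr ω).Reachable u y
      rw [SimpleGraph.reachable_iff_reflTransGen]
      exact hr
    obtain ⟨hyD, ih1, ih2⟩ := ih hy0
    have hy'D : y' ∈ rect a b c d := by
      obtain ⟨e, he, h⟩ := hadj
      have := mem_edges_h12.1 (hω he)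
      rcases h with ⟨h1, h2⟩ | ⟨h1, h2⟩
      · rw [← h2]; exact this.2
      · rw [← h1]; exact this.1
    have hyV := hmemV y hyD hy0
    have hy'V := hmemV y' hy'D hy
    have hnb := nb_of_adj_h12 hadj
    have hnb' := nb_of_adj_h12 hadj.symm
    have htD : ∀ t ∈ T, t ∈ rect a b c d := fun t ht => (Finset.mem_filter.1 (hT t ht).mem).1
    refine ⟨hy'D, ?_, ?_⟩
    · intro hy'Q
      by_cases hyQ : y ∈ T.biUnion (Q M)
      · obtain ⟨t, ht, hyt⟩ := Finset.mem_biUnion.1 hyQ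
        have hy't : y' ∉ Q M t := fun h => hy'Q (Finset.mem_biUnion.2 ⟨t, ht, h⟩)
        have hcone := (hT t ht).cone y' hy'V hy't
        have hyDC : y ∈ DC M (rect a b c d) t := mem_dc_h12 hyt hyD (geo_h12 hnb' hy't hyt hcone)
        have h1 := ih2 t ht hyt y hyDC
        exact h1.trans (adj_cross_h12 hω hadj.symm hy'V hy'Q hyQ).symm.reachable
      · exact (ih1 hyQ).trans (adj_out_h12 hω hadj hyQ hy'Q).reachable
    · intro t ht hy't x hx
      by_cases hyQ : y ∈ T.biUnion (Q M)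
      · obtain ⟨t', ht', hyt'⟩ := Finset.mem_biUnion.1 hyQ
        have heq : t' = t := same_h12 hM hPS ht' ht hyt' hy't hnb
        subst heq
        exact ih2 t' ht' hyt' x hx
      · have hyt : y ∉ Q M t := fun h => hyQ (Finset.mem_biUnion.2 ⟨t, ht, h⟩)
        have hcone := (hT t ht).cone y hyV hyt
        have hy'DC : y' ∈ DC M (rect a b c d) t := mem_dc_h12 hy't hy'D (geo_h12 hnb hyt hy't hcone)
        have h1 := (ih1 hyQ).trans (adj_cross_h12 hω hadj hyV hyQ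
          (Finset.mem_biUnion.2 ⟨t, ht, hy't⟩)).reachable
        have h2 : (gr (edges (rect a b c d) ∩ edges (DC M (rect a b c d) t))).Reachable y' x :=
          dc_conn (htD t ht) y' hy'DC x hx
        exact h1.trans (h2.mono (dc_le_h12 ht))

/-- (E1) The cluster after the surgery. Proof. `⊆`: the right side contains `u` and is closed under edges of `surg ..`: an open edge
between a point `y ∈ V` outside the boxes and a point `y'` of `Q M t` has `y' ∈ DC M D t` since `y` is in the double cone of `t`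
at sup distance `12 M + 1`. `⊇`: along an open path from `u` in `ω`: if the current vertex `p` is outside the boxes it is connected
to `u` after the surgery, if it is in `Q M t` then all of `DC M D t` is; every `t ∈ T` is in `V`. -/
theorem surg_clu {M : ℕ} (hM : 1 ≤ M) {a b c d : ℤ} {ω : Finset Edge} (hω : ω ⊆ edges (rect a b c d)) {u w : ℤ × ℤ}
    (hu : u ∈ rect a b c d) {T : Finset (ℤ × ℤ)} (hT : ∀ t ∈ T, Clean M (clu (rect a b c d) ω u) u w t)
    (hPS : PS M T) :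
    clu (rect a b c d) (surg M (rect a b c d) (clu (rect a b c d) ω u) T ω) u =
      (clu (rect a b c d) ω u \ T.biUnion (Q M)) ∪ T.biUnion (DC M (rect a b c d)) := by
  classical
  have huV : u ∈ clu (rect a b c d) ω u := Finset.mem_filter.2 ⟨hu, SimpleGraph.Reachable.refl _⟩
  have huQ : u ∉ T.biUnion (Q M) := by
    intro h
    obtain ⟨t, ht, hut⟩ := Finset.mem_biUnion.1 h
    have h1 := (hT t ht).left
    rw [mem_Q_h12] at hut
    omega
  have hW : ∀ z ∈ (clu (rect a b c d) ω u \ T.biUnion (Q M)) ∪ T.biUnion (DC M (rect a b c d)),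
      z ∉ T.biUnion (Q M) → z ∈ clu (rect a b c d) ω u := by
    intro z hz hzQ
    rcases Finset.mem_union.1 hz with h | h
    · exact (Finset.mem_sdiff.1 h).1
    · obtain ⟨t, ht, hzt⟩ := Finset.mem_biUnion.1 h
      exact absurd (Finset.mem_biUnion.2 ⟨t, ht, (dc_sub_h12 hzt).1⟩) hzQ
  apply Finset.Subset.antisymm
  · intro y0 hy0
    have hreach : Relation.ReflTransGen
        (gr (surg M (rect a b c d) (clu (rect a b c d) ω u) T ω)).Adj u y0 := by
      rw [← SimpleGraph.reachable_iff_reflTransGen]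
      exact (Finset.mem_filter.1 hy0).2
    clear hy0
    induction hreach with
    | refl => exact Finset.mem_union_left _ (Finset.mem_sdiff.2 ⟨huV, huQ⟩)
    | @tail y y' _ hadj ih =>
      obtain ⟨hyD, hy'D, h⟩ := cases_h12 hadj
      have hnb := nb_of_adj_h12 hadj
      rcases h with ⟨h1, h2, h3⟩ | ⟨t, ht, h1, h2⟩ | ⟨h1, h2, h3⟩ | ⟨h1, h2, h3⟩
      · have hyV := hW y ih h1
        have hy'V : y' ∈ clu (rect a b c d) ω u := by
          refine Finset.mem_filter.2 ⟨hy'D, ?_⟩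
          exact (Finset.mem_filter.1 hyV).2.trans h3.reachable
        exact Finset.mem_union_left _ (Finset.mem_sdiff.2 ⟨hy'V, h2⟩)
      · exact Finset.mem_union_right _ (Finset.mem_biUnion.2 ⟨t, ht, h2⟩)
      · obtain ⟨t, ht, hy't⟩ := Finset.mem_biUnion.1 h3
        have hyt : y ∉ Q M t := fun h => h2 (Finset.mem_biUnion.2 ⟨t, ht, h⟩)
        have hcone := (hT t ht).cone y h1 hyt
        exact Finset.mem_union_right _ (Finset.mem_biUnion.2
          ⟨t, ht, mem_dc_h12 hy't hy'D (geo_h12 hnb hyt hy't hcone)⟩)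
      · exact Finset.mem_union_left _ (Finset.mem_sdiff.2 ⟨h1, h2⟩)
  · intro p hp
    rcases Finset.mem_union.1 hp with h | h
    · obtain ⟨h1, h2⟩ := Finset.mem_sdiff.1 h
      obtain ⟨h3, h4⟩ := Finset.mem_filter.1 h1
      exact Finset.mem_filter.2 ⟨h3, (walk_h12 hM hω hu hT hPS h4).2.1 h2⟩
    · obtain ⟨t, ht, hpt⟩ := Finset.mem_biUnion.1 h
      have htV := (Finset.mem_filter.1 (hT t ht).mem).2
      have htQ : t ∈ Q M t := by
        rw [mem_Q_h12]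
        omega
      exact Finset.mem_filter.2 ⟨(dc_sub_h12 hpt).2,
        (walk_h12 hM hω hu hT hPS htV).2.2 t ht htQ p hpt⟩

/-- (E1b) `w` stays connected. -/
theorem surg_conn {M : ℕ} (hM : 1 ≤ M) {a b c d : ℤ} {ω : Finset Edge} (hω : ω ⊆ edges (rect a b c d)) {u w : ℤ × ℤ}
    (hu : u ∈ rect a b c d) (hw : Conn ω u w) {T : Finset (ℤ × ℤ)}
    (hT : ∀ t ∈ T, Clean M (clu (rect a b c d) ω u) u w t) (hPS : PS M T) :
    Conn (surg M (rect a b c d) (clu (rect a b c d) ω u) T ω) u w := by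
  refine (walk_h12 hM hω hu hT hPS hw).2.1 ?_
  intro h
  obtain ⟨t, ht, hwt⟩ := Finset.mem_biUnion.1 h
  have h1 := (hT t ht).right
  rw [mem_Q_h12] at hwt
  omega

end Pool.Helper17.OZ
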