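import Pool.Agent.Helper17.OZ.Defs

/-! Block OZ-L2-E2. -/

namespace Pool.Helper17.OZ

open Pool.Helper49.FK

/-- (E2) The points of `T` become cone points. -/
theorem surg_cp {M : ℕ} (hM : 1 ≤ M) {D V : Finset (ℤ × ℤ)} {u w : ℤ × ℤ} {T : Finset (ℤ × ℤ)}
    (hT : ∀ t ∈ T, Clean M V u w t) (hVD : V ⊆ D) (hPS : PS M T) {t : ℤ × ℤ} (ht : t ∈ T) :
    CP ((V \ T.biUnion (Q M)) ∪ T.biUnion (DC M D)) t := by
  classical
  constructor
  · refine Finset.mem_union_right _ (Finset.mem_biUnion.2 ⟨t, ht, ?_⟩)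
    unfold DC
    rw [Finset.mem_filter, Finset.mem_inter]
    refine ⟨⟨?_, hVD (hT t ht).mem⟩, Or.inl ?_⟩
    · unfold Q Lam
      simp only [Finset.mem_product, Finset.mem_Icc]
      omega
    · unfold Y
      simp
  · intro y hy
    rcases Finset.mem_union.1 hy with hy | hy
    · rw [Finset.mem_sdiff] at hy
      exact (hT t ht).cone y hy.1 fun h => hy.2 (Finset.mem_biUnion.2 ⟨t, ht, h⟩)
    · obtain ⟨t', ht', hy⟩ := Finset.mem_biUnion.1 hy
      unfold DC at hy
      rw [Finset.mem_filter, Finset.mem_inter] at hy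
      by_cases h : t = t'
      · subst h
        exact hy.2
      · rcases hPS t ht t' ht' h with h | h
        · exact Or.inl (h.2.1 y hy.1.1)
        · exact Or.inr (h.2.2 y hy.1.1)

open Classical in
/-- The edges touching `B`. -/
private noncomputable def e2_tch (B : Finset (ℤ × ℤ)) : Finset Edge :=
  (B ×ˢ (Finset.univ : Finset Bool) ∪ (B.image fun y => ((y.1 - 1, y.2), true))) ∪
    (B.image fun y => ((y.1, y.2 - 1), false))

private theorem e2_card (B : Finset (ℤ × ℤ)) : (e2_tch B).card ≤ 4 * B.card := by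
  classical
  have h1 : (B ×ˢ (Finset.univ : Finset Bool)).card = B.card * 2 := by
    rw [Finset.card_product]; simp
  have h2 : (B.image fun y : ℤ × ℤ => (((y.1 - 1, y.2), true) : Edge)).card ≤ B.card := Finset.card_image_le
  have h3 : (B.image fun y : ℤ × ℤ => (((y.1, y.2 - 1), false) : Edge)).card ≤ B.card := Finset.card_image_le
  have h4 := Finset.card_union_le (B ×ˢ (Finset.univ : Finset Bool) ∪
    (B.image fun y : ℤ × ℤ => (((y.1 - 1, y.2), true) : Edge)))
    (B.image fun y : ℤ × ℤ => (((y.1, y.2 - 1), false) : Edge))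
  have h5 := Finset.card_union_le (B ×ˢ (Finset.univ : Finset Bool))
    (B.image fun y : ℤ × ℤ => (((y.1 - 1, y.2), true) : Edge))
  unfold e2_tch
  omega

private theorem e2_mem {B : Finset (ℤ × ℤ)} {e : Edge} (h : e.1 ∈ B ∨ tip e ∈ B) : e ∈ e2_tch B := by
  classical
  unfold e2_tch
  rcases h with h | h
  · exact Finset.mem_union_left _ (Finset.mem_union_left _ (Finset.mem_product.2 ⟨h, Finset.mem_univ _⟩))
  · obtain ⟨⟨a, b⟩, c⟩ := e
    cases c with
    | true =>
      refine Finset.mem_union_left _ (Finset.mem_union_right _ (Finset.mem_image.2 ⟨_, h, ?_⟩))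
      simp [tip]
    | false =>
      refine Finset.mem_union_right _ (Finset.mem_image.2 ⟨_, h, ?_⟩)
      simp [tip]

private theorem e2_Q (M : ℕ) (t : ℤ × ℤ) : (Q M t).card = (24 * M + 1) ^ 2 := by
  unfold Q Lam
  rw [Finset.card_product, Int.card_Icc, Int.card_Icc, sq]
  congr 1 <;> push_cast <;> omega

/-- (E4) The number of changed edges. -/
theorem surg_card {M : ℕ} {D V T : Finset (ℤ × ℤ)} {ω : Finset Edge} (hω : ω ⊆ edges D) :
    (ω \ surg M D V T ω ∪ surg M D V T ω \ ω).card ≤ T.card * (4 * (24 * M + 1) ^ 2) := by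
  classical
  have hsub : ω \ surg M D V T ω ∪ surg M D V T ω \ ω ⊆ T.biUnion fun t => e2_tch (Q M t) := by
    intro e he
    by_contra hne
    have h1 : e.1 ∉ T.biUnion (Q M) ∧ tip e ∉ T.biUnion (Q M) := by
      constructor
      · intro h
        obtain ⟨t, ht, h⟩ := Finset.mem_biUnion.1 h
        exact hne (Finset.mem_biUnion.2 ⟨t, ht, e2_mem (Or.inl h)⟩)
      · intro h
        obtain ⟨t, ht, h⟩ := Finset.mem_biUnion.1 h
        exact hne (Finset.mem_biUnion.2 ⟨t, ht, e2_mem (Or.inr h)⟩)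
    have h2 : e ∈ surg M D V T ω ↔ e ∈ ω := by
      unfold surg
      rw [Finset.mem_filter, if_pos h1]
      exact ⟨fun h => h.2, fun h => ⟨hω h, h⟩⟩
    rcases Finset.mem_union.1 he with h | h
    · rw [Finset.mem_sdiff] at h
      exact h.2 (h2.2 h.1)
    · rw [Finset.mem_sdiff] at h
      exact h.2 (h2.1 h.1)
  refine (Finset.card_le_card hsub).trans (Finset.card_biUnion_le_card_mul _ _ _ fun t _ => ?_)
  rw [← e2_Q M t]
  exact e2_card _

end Pool.Helper17.OZ
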