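import Pool.Agent.Helper17.OZ.SuA

/-! Block OZ-L2-E3. -/

namespace Pool.Helper17.OZ

open Pool.Helper49.FK

private theorem Y_nonneg95 {x : ℤ × ℤ} (hx : Y x) : 0 ≤ x.1 := by
  unfold Y at hx
  have := abs_nonneg x.2
  omega

private theorem Y_zero95 {x : ℤ × ℤ} (hx : Y x) (h : x.1 ≤ 0) : x = 0 := by
  unfold Y at hx
  have h1 := abs_nonneg x.2
  have h2 : x.1 = 0 := by omega
  have h3 : |x.2| = 0 := by omega
  exact Prod.ext h2 (abs_eq_zero.1 h3)

/-- Neighbouring points different from the apex are on the same side of the double cone. -/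
private theorem side95 {p p' t : ℤ × ℤ} (hp : p ≠ t) (hp' : p' ≠ t) (hY : Y (p - t)) (h' : Y (p' - t) ∨ Y (t - p'))
    (hd : p.1 - p'.1 ≤ 1) : Y (p' - t) := by
  rcases h' with h | h
  · exact h
  · exfalso
    have h1 := Y_nonneg95 hY
    have h2 := Y_nonneg95 h
    have h3 : ¬ (p - t).1 ≤ 0 := fun h4 => hp (sub_eq_zero.1 (Y_zero95 hY h4))
    have h4 : ¬ (t - p').1 ≤ 0 := fun h4 => hp' (sub_eq_zero.1 (Y_zero95 h h4)).symm
    simp only [Prod.fst_sub] at *
    omega

private theorem side95' {p p' t : ℤ × ℤ} (hp : p ≠ t) (hp' : p' ≠ t) (hY : Y (t - p)) (h' : Y (p' - t) ∨ Y (t - p'))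
    (hd : p'.1 - p.1 ≤ 1) : Y (t - p') := by
  rcases h' with h | h
  · exfalso
    have h1 := Y_nonneg95 hY
    have h2 := Y_nonneg95 h
    have h3 : ¬ (t - p).1 ≤ 0 := fun h4 => hp (sub_eq_zero.1 (Y_zero95 hY h4)).symm
    have h4 : ¬ (p' - t).1 ≤ 0 := fun h4 => hp' (sub_eq_zero.1 (Y_zero95 h h4))
    simp only [Prod.fst_sub] at *
    omega
  · exact h

/-- (E3) No other new cone points. Proof: `t'` outside the boxes; every `DC M D t` is connected, does not contain `t'`, so it lies on
one side, say in `t' + Y`; the corners of the rectangle `Q M t ∩ D` are in `DC` and `Y` is convex, so `Q M t ∩ D` is in `t' + Y`.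
(The columns of `Q M t` are columns of `D` because `u`, `w` are in `D` and `Clean.left`, `Clean.right`.) -/
theorem surg_no_cp {M : ℕ} (hM : 1 ≤ M) {a b c d : ℤ} {V : Finset (ℤ × ℤ)} (hVD : V ⊆ rect a b c d) {u w : ℤ × ℤ}
    (hu : u ∈ rect a b c d) (hw : w ∈ rect a b c d) {T : Finset (ℤ × ℤ)} (hT : ∀ t ∈ T, Clean M V u w t) (hPS : PS M T)
    (hV : NoCP V u w) {t' : ℤ × ℤ} (h : CP ((V \ T.biUnion (Q M)) ∪ T.biUnion (DC M (rect a b c d))) t')
    (h1 : u.1 < t'.1) (h2 : t'.1 < w.1) : ∃ t ∈ T, t' ∈ Q M t := by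
  classical
  by_contra hno
  push Not at hno
  have hmemD : ∀ y : ℤ × ℤ, y ∈ rect a b c d ↔ (a ≤ y.1 ∧ y.1 ≤ b) ∧ (c ≤ y.2 ∧ y.2 ≤ d) := by
    intro y
    unfold rect
    rw [Finset.mem_product, Finset.mem_Icc, Finset.mem_Icc]
  have hmemQ : ∀ t y : ℤ × ℤ, y ∈ Q M t ↔ (t.1 - 12 * M ≤ y.1 ∧ y.1 ≤ t.1 + 12 * M) ∧
      (t.2 - 12 * M ≤ y.2 ∧ y.2 ≤ t.2 + 12 * M) := by
    intro t y
    unfold Q Lam
    rw [Finset.mem_product, Finset.mem_Icc, Finset.mem_Icc]
    push_cast
    rfl
  have hmemDC : ∀ t y : ℤ × ℤ, y ∈ DC M (rect a b c d) t ↔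
      (y ∈ Q M t ∧ y ∈ rect a b c d) ∧ (Y (y - t) ∨ Y (t - y)) := by
    intro t y
    unfold DC
    rw [Finset.mem_filter, Finset.mem_inter]
  have htV : t' ∈ V := by
    rcases Finset.mem_union.1 h.1 with h3 | h3
    · exact (Finset.mem_sdiff.1 h3).1
    · obtain ⟨t, ht, h4⟩ := Finset.mem_biUnion.1 h3
      exact absurd ((hmemDC t t').1 h4).1.1 (hno t ht)
  have huD := (hmemD u).1 hu
  have hwD := (hmemD w).1 hw
  refine hV t' ⟨htV, fun y hy => ?_⟩ h1 h2
  by_cases hyQ : ∃ t ∈ T, y ∈ Q M t
  · obtain ⟨t, ht, hyt⟩ := hyQ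
    have hcl := hT t ht
    have hleft := hcl.left
    have hright := hcl.right
    have htD := (hmemD t).1 (hVD hcl.mem)
    have hyD := (hmemD y).1 (hVD hy)
    have hyt' := (hmemQ t y).1 hyt
    -- points of DC are on one of the two sides and different from t'
    have hside : ∀ p : ℤ × ℤ, p ∈ DC M (rect a b c d) t → p ≠ t' ∧ (Y (p - t') ∨ Y (t' - p)) := by
      intro p hp
      refine ⟨fun h3 => ?_, ?_⟩
      · rw [h3] at hp
        exact hno t ht ((hmemDC t t').1 hp).1.1
      · exact h.2 p (Finset.mem_union_right _ (Finset.mem_biUnion.2 ⟨t, ht, hp⟩))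
    -- points of the row of t
    have hrow : ∀ x : ℤ, t.1 - 12 * M ≤ x → x ≤ t.1 + 12 * M → (x, t.2) ∈ DC M (rect a b c d) t := by
      intro x hx1 hx2
      rw [hmemDC, hmemQ, hmemD]
      refine ⟨⟨⟨⟨hx1, hx2⟩, ?_, ?_⟩, ⟨?_, ?_⟩, ?_, ?_⟩, ?_⟩
      · simp only; omega
      · simp only; omega
      · simp only; omega
      · simp only; omega
      · exact htD.2.1
      · exact htD.2.2
      · unfold Y
        simp only [Prod.fst_sub, Prod.snd_sub, sub_self, abs_zero]
        omega
    -- points of the extreme columns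
    have hcol : ∀ x z : ℤ, (x = t.1 - 12 * M ∨ x = t.1 + 12 * M) → t.2 - 12 * M ≤ z → z ≤ t.2 + 12 * M → c ≤ z → z ≤ d →
        (x, z) ∈ DC M (rect a b c d) t := by
      intro x z hx hz1 hz2 hz3 hz4
      rw [hmemDC, hmemQ, hmemD]
      refine ⟨⟨⟨⟨?_, ?_⟩, hz1, hz2⟩, ⟨?_, ?_⟩, hz3, hz4⟩, ?_⟩
      · simp only; omega
      · simp only; omega
      · simp only; omega
      · simp only; omega
      · unfold Y
        simp only [Prod.fst_sub, Prod.snd_sub]
        rcases hx with hx | hx
        · right
          rw [abs_le]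
          omega
        · left
          rw [abs_le]
          omega
    have htDC : (t.1, t.2) ∈ DC M (rect a b c d) t := hrow t.1 (by omega) (by omega)
    rcases (hside _ htDC).2 with hs | hs
    · -- forward side
      left
      have hr : ∀ k : ℕ, k ≤ 12 * M → Y ((t.1 - k, t.2) - t') := by
        intro k
        induction k with
        | zero => intro _; simpa using hs
        | succ k ih =>
          intro hk
          have h3 := ih (by omega)
          have h4 := hside (t.1 - k, t.2) (hrow _ (by omega) (by omega))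
          have h5 := hside (t.1 - (k + 1 : ℕ), t.2) (hrow _ (by push_cast; omega) (by push_cast; omega))
          exact side95 h4.1 h5.1 h3 h5.2 (by push_cast; omega)
      have h0 := hr (12 * M) le_rfl
      have h0' : Y ((t.1 - 12 * M, t.2) - t') := by
        have e : ((12 * M : ℕ) : ℤ) = 12 * M := by push_cast; rfl
        rwa [e] at h0
      have hup : ∀ k : ℕ, t.2 + k ≤ t.2 + 12 * M → t.2 + k ≤ d → Y ((t.1 - 12 * M, t.2 + k) - t') := by
        intro k
        induction k with
        | zero => intro _ _; simpa using h0'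
        | succ k ih =>
          intro hk hk'
          push_cast at hk hk'
          have h3 := ih (by omega) (by omega)
          have h4 := hside (t.1 - 12 * M, t.2 + k) (hcol _ _ (Or.inl rfl) (by omega) (by omega) (by omega) (by omega))
          have h5 := hside (t.1 - 12 * M, t.2 + (k + 1 : ℕ))
            (hcol _ _ (Or.inl rfl) (by push_cast; omega) (by push_cast; omega) (by push_cast; omega) (by push_cast; omega))
          exact side95 h4.1 h5.1 h3 h5.2 (by simp only; omega)
      have hdn : ∀ k : ℕ, t.2 - 12 * M ≤ t.2 - k → c ≤ t.2 - k → Y ((t.1 - 12 * M, t.2 - k) - t') := by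
        intro k
        induction k with
        | zero => intro _ _; simpa using h0'
        | succ k ih =>
          intro hk hk'
          push_cast at hk hk'
          have h3 := ih (by omega) (by omega)
          have h4 := hside (t.1 - 12 * M, t.2 - k) (hcol _ _ (Or.inl rfl) (by omega) (by omega) (by omega) (by omega))
          have h5 := hside (t.1 - 12 * M, t.2 - (k + 1 : ℕ))
            (hcol _ _ (Or.inl rfl) (by push_cast; omega) (by push_cast; omega) (by push_cast; omega) (by push_cast; omega))
          exact side95 h4.1 h5.1 h3 h5.2 (by simp only; omega)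
      have hall : Y ((t.1 - 12 * M, y.2) - t') := by
        rcases le_total t.2 y.2 with h3 | h3
        · obtain ⟨k, hk⟩ : ∃ k : ℕ, y.2 = t.2 + k := ⟨(y.2 - t.2).toNat, by omega⟩
          rw [hk]
          exact hup k (by omega) (by omega)
        · obtain ⟨k, hk⟩ : ∃ k : ℕ, y.2 = t.2 - k := ⟨(t.2 - y.2).toNat, by omega⟩
          rw [hk]
          exact hdn k (by omega) (by omega)
      unfold Y at hall ⊢
      simp only [Prod.fst_sub, Prod.snd_sub] at hall ⊢
      omega
    · -- backward side
      right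
      have hr : ∀ k : ℕ, k ≤ 12 * M → Y (t' - (t.1 + k, t.2)) := by
        intro k
        induction k with
        | zero => intro _; simpa using hs
        | succ k ih =>
          intro hk
          have h3 := ih (by omega)
          have h4 := hside (t.1 + k, t.2) (hrow _ (by omega) (by omega))
          have h5 := hside (t.1 + (k + 1 : ℕ), t.2) (hrow _ (by push_cast; omega) (by push_cast; omega))
          exact side95' h4.1 h5.1 h3 h5.2 (by push_cast; omega)
      have h0 := hr (12 * M) le_rfl
      have h0' : Y (t' - (t.1 + 12 * M, t.2)) := by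
        have e : ((12 * M : ℕ) : ℤ) = 12 * M := by push_cast; rfl
        rwa [e] at h0
      have hup : ∀ k : ℕ, t.2 + k ≤ t.2 + 12 * M → t.2 + k ≤ d → Y (t' - (t.1 + 12 * M, t.2 + k)) := by
        intro k
        induction k with
        | zero => intro _ _; simpa using h0'
        | succ k ih =>
          intro hk hk'
          push_cast at hk hk'
          have h3 := ih (by omega) (by omega)
          have h4 := hside (t.1 + 12 * M, t.2 + k) (hcol _ _ (Or.inr rfl) (by omega) (by omega) (by omega) (by omega))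
          have h5 := hside (t.1 + 12 * M, t.2 + (k + 1 : ℕ))
            (hcol _ _ (Or.inr rfl) (by push_cast; omega) (by push_cast; omega) (by push_cast; omega) (by push_cast; omega))
          exact side95' h4.1 h5.1 h3 h5.2 (by simp only; omega)
      have hdn : ∀ k : ℕ, t.2 - 12 * M ≤ t.2 - k → c ≤ t.2 - k → Y (t' - (t.1 + 12 * M, t.2 - k)) := by
        intro k
        induction k with
        | zero => intro _ _; simpa using h0'
        | succ k ih =>
          intro hk hk'
          push_cast at hk hk'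
          have h3 := ih (by omega) (by omega)
          have h4 := hside (t.1 + 12 * M, t.2 - k) (hcol _ _ (Or.inr rfl) (by omega) (by omega) (by omega) (by omega))
          have h5 := hside (t.1 + 12 * M, t.2 - (k + 1 : ℕ))
            (hcol _ _ (Or.inr rfl) (by push_cast; omega) (by push_cast; omega) (by push_cast; omega) (by push_cast; omega))
          exact side95' h4.1 h5.1 h3 h5.2 (by simp only; omega)
      have hall : Y (t' - (t.1 + 12 * M, y.2)) := by
        rcases le_total t.2 y.2 with h3 | h3
        · obtain ⟨k, hk⟩ : ∃ k : ℕ, y.2 = t.2 + k := ⟨(y.2 - t.2).toNat, by omega⟩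
          rw [hk]
          exact hup k (by omega) (by omega)
        · obtain ⟨k, hk⟩ : ∃ k : ℕ, y.2 = t.2 - k := ⟨(t.2 - y.2).toNat, by omega⟩
          rw [hk]
          exact hdn k (by omega) (by omega)
      unfold Y at hall ⊢
      simp only [Prod.fst_sub, Prod.snd_sub] at hall ⊢
      omega
  · push Not at hyQ
    exact h.2 y (Finset.mem_union_left _ (Finset.mem_sdiff.2 ⟨hy, fun h3 => by
      obtain ⟨t, ht, h4⟩ := Finset.mem_biUnion.1 h3
      exact hyQ t ht h4⟩))

end Pool.Helper17.OZ
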