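import Pool.Agent.Helper17.OZ.SuB
import Pool.Agent.Helper17.OZ.SuC
import Pool.Agent.Helper17.OZ.SuD

/-! Block OZ-L2-F1. -/

namespace Pool.Helper17.OZ

open Pool.Helper49.FK

/-- The four edges at a vertex. -/
def star61 (y : ℤ × ℤ) : Finset Edge :=
  {(y, true), (y, false), ((y.1 - 1, y.2), true), ((y.1, y.2 - 1), false)}

theorem mem_star61 {e : Edge} {y : ℤ × ℤ} (h : e.1 = y ∨ tip e = y) : e ∈ star61 y := by
  obtain ⟨x, β⟩ := e
  rcases h with h | h
  · simp only at h
    subst h
    cases β <;> simp [star61]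
  · subst h
    cases β <;> simp [star61, tip]

theorem Q_card61 (M : ℕ) (t : ℤ × ℤ) : (Q M t).card = (24 * M + 1) ^ 2 := by
  unfold Q Lam
  rw [Finset.card_product, Int.card_Icc, Int.card_Icc, sq]
  congr 1 <;> push_cast <;> omega

open Classical in
/-- The edges which touch the boxes. -/
noncomputable def touch61 (M : ℕ) (T : Finset (ℤ × ℤ)) : Finset Edge := (T.biUnion (Q M)).biUnion star61

theorem touch61_card (M : ℕ) (T : Finset (ℤ × ℤ)) :
    (touch61 M T).card ≤ (4 * (24 * M + 1) ^ 2) * T.card := by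
  classical
  unfold touch61
  have h1 : ((T.biUnion (Q M)).biUnion star61).card ≤ (T.biUnion (Q M)).card * 4 :=
    Finset.card_biUnion_le_card_mul _ _ _ fun y _ => by unfold star61; exact Finset.card_le_four
  have h2 : (T.biUnion (Q M)).card ≤ T.card * (24 * M + 1) ^ 2 :=
    Finset.card_biUnion_le_card_mul _ _ _ fun t _ => (Q_card61 M t).le
  calc _ ≤ (T.biUnion (Q M)).card * 4 := by convert h1
    _ ≤ (T.card * (24 * M + 1) ^ 2) * 4 := Nat.mul_le_mul_right _ h2
    _ = _ := by ring

theorem notMem_touch61 {M : ℕ} {T : Finset (ℤ × ℤ)} {e : Edge} (h : e ∉ touch61 M T) :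
    e.1 ∉ T.biUnion (Q M) ∧ tip e ∉ T.biUnion (Q M) := by
  classical
  unfold touch61 at h
  simp only [Finset.mem_biUnion, not_exists, not_and] at h ⊢
  exact ⟨fun t ht hq => h _ ⟨t, ht, hq⟩ (mem_star61 (Or.inl rfl)),
    fun t ht hq => h _ ⟨t, ht, hq⟩ (mem_star61 (Or.inr rfl))⟩

theorem surg_off61 {M : ℕ} {D V T : Finset (ℤ × ℤ)} {ω : Finset Edge} (hω : ω ⊆ edges D) {e : Edge}
    (h : e ∉ touch61 M T) : e ∈ surg M D V T ω ↔ e ∈ ω := by
  classical
  have h1 := notMem_touch61 h
  unfold surg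
  rw [Finset.mem_filter, if_pos h1]
  exact ⟨fun h => h.2, fun h => ⟨hω h, h⟩⟩

theorem cp_col61 {V : Finset (ℤ × ℤ)} {t t' : ℤ × ℤ} (h : CP V t) (h' : CP V t') (he : t.1 = t'.1) : t = t' := by
  have := h.2 t' h'.1
  unfold Y at this
  simp only [Prod.fst_sub, Prod.snd_sub, he, sub_self, mul_zero] at this
  have h2 : t.2 = t'.2 := by
    rcases this with h | h
    · have := abs_nonpos_iff.1 h
      omega
    · have := abs_nonpos_iff.1 h
      omega
  exact Prod.ext he h2

open Classical in
/-- (F1) Multiplicity of the surgery map. Proof: `T` is a subset of the cone points of `clu D ω' u` in the columns between `u` and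
`w`; by E3 these are in the boxes of `T` and there is at most one in a column, so there are at most `k (24 M + 1)` of them; given `T`
the configuration `ω` is determined by its at most `4 (24 M + 1)^2 k` edges which touch the boxes. -/
theorem multiplicity {M : ℕ} (hM : 1 ≤ M) {a b c d : ℤ} {u w : ℤ × ℤ} (hu : u ∈ rect a b c d)
    (hw : w ∈ rect a b c d) (k : ℕ) (ω' : Finset Edge)
    (P : Finset (Finset Edge × Finset (ℤ × ℤ)))
    (hP : ∀ p ∈ P, p.1 ⊆ edges (rect a b c d) ∧ Conn p.1 u w ∧ NoCP (clu (rect a b c d) p.1 u) u w ∧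
      (∀ t ∈ p.2, Clean M (clu (rect a b c d) p.1 u) u w t) ∧ PS M p.2 ∧ p.2.card = k ∧
      surg M (rect a b c d) (clu (rect a b c d) p.1 u) p.2 p.1 = ω') :
    P.card ≤ (2 ^ ((24 * M + 1) + 4 * (24 * M + 1) ^ 2)) ^ k := by
  rcases P.eq_empty_or_nonempty with rfl | hne
  · simp
  set D := rect a b c d with hD
  have hsub : ∀ ω : Finset Edge, clu D ω u ⊆ D := fun ω => by unfold clu; exact Finset.filter_subset _ _
  set C : Finset (ℤ × ℤ) := (clu D ω' u).filter fun t => CP (clu D ω' u) t ∧ u.1 < t.1 ∧ t.1 < w.1 with hC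
  have hV : ∀ p ∈ P, clu D ω' u = (clu D p.1 u \ p.2.biUnion (Q M)) ∪ p.2.biUnion (DC M D) := by
    intro p hp
    obtain ⟨h1, h2, h3, h4, h5, h6, h7⟩ := hP p hp
    rw [← h7]
    convert surg_clu hM h1 hu h4 h5
  have hTC : ∀ p ∈ P, p.2 ∈ C.powerset := by
    intro p hp
    obtain ⟨h1, h2, h3, h4, h5, h6, h7⟩ := hP p hp
    rw [Finset.mem_powerset]
    intro t ht
    have hcp : CP (clu D ω' u) t := by
      rw [hV p hp]
      convert surg_cp hM h4 (hsub _) h5 ht
    rw [hC, Finset.mem_filter]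
    have e1 := (h4 t ht).left
    have e2 := (h4 t ht).right
    exact ⟨hcp.1, hcp, by omega, by omega⟩
  have hCcard : C.card ≤ k * (24 * M + 1) := by
    obtain ⟨p, hp⟩ := hne
    obtain ⟨h1, h2, h3, h4, h5, h6, h7⟩ := hP p hp
    have hinj : Set.InjOn Prod.fst (C : Set (ℤ × ℤ)) := by
      intro t ht t' ht' he
      rw [Finset.mem_coe, hC, Finset.mem_filter] at ht ht'
      exact cp_col61 ht.2.1 ht'.2.1 he
    rw [← Finset.card_image_of_injOn hinj]
    have hsub2 : C.image Prod.fst ⊆ p.2.biUnion fun t => Finset.Icc (t.1 - ((12 * M : ℕ) : ℤ)) (t.1 + ((12 * M : ℕ) : ℤ)) := by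
      intro x hx
      rw [Finset.mem_image] at hx
      obtain ⟨t', ht', rfl⟩ := hx
      rw [hC, Finset.mem_filter] at ht'
      obtain ⟨-, hcp, e1, e2⟩ := ht'
      rw [hV p hp] at hcp
      obtain ⟨t, ht, hQ⟩ := surg_no_cp hM (hsub _) hu hw h4 h5 h3 (t' := t') (by convert hcp) e1 e2
      rw [Finset.mem_biUnion]
      refine ⟨t, ht, ?_⟩
      unfold Q Lam at hQ
      exact (Finset.mem_product.1 hQ).1
    refine (Finset.card_le_card hsub2).trans ?_
    rw [← h6]
    refine Finset.card_biUnion_le_card_mul _ _ _ fun t _ => ?_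
    rw [Int.card_Icc]
    push_cast
    omega
  have hfib : ∀ T ∈ C.powerset, (P.filter fun p => p.2 = T).card ≤ 2 ^ ((4 * (24 * M + 1) ^ 2) * k) := by
    intro T _
    rcases (P.filter fun p => p.2 = T).eq_empty_or_nonempty with h0 | ⟨p0, hp0⟩
    · rw [h0]; simp
    · rw [Finset.mem_filter] at hp0
      have hTk : T.card = k := by rw [← hp0.2]; exact (hP p0 hp0.1).2.2.2.2.2.1
      have hinj : Set.InjOn (fun p : Finset Edge × Finset (ℤ × ℤ) => p.1 ∩ touch61 M T)
          ((P.filter fun p => p.2 = T : Finset _) : Set (Finset Edge × Finset (ℤ × ℤ))) := by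
        rintro ⟨ω1, T1⟩ hp1 ⟨ω2, T2⟩ hp2 he
        rw [Finset.mem_coe, Finset.mem_filter] at hp1 hp2
        obtain ⟨hp1, e1⟩ := hp1
        obtain ⟨hp2, e2⟩ := hp2
        simp only at e1 e2 he
        subst e1
        subst e2
        have g1 := hP _ hp1
        have g2 := hP _ hp2
        have : ω1 = ω2 := by
          ext e
          by_cases h : e ∈ touch61 M T2
          · have := Finset.ext_iff.1 he e
            simp only [Finset.mem_inter, h, and_true] at this
            exact this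
          · rw [← surg_off61 (V := clu D ω1 u) g1.1 h, ← surg_off61 (V := clu D ω2 u) g2.1 h]
            have q1 := g1.2.2.2.2.2.2
            have q2 := g2.2.2.2.2.2.2
            simp only at q1 q2
            rw [q1, q2]
        rw [this]
      rw [← Finset.card_image_of_injOn hinj]
      have hs : (P.filter fun p => p.2 = T).image (fun p => p.1 ∩ touch61 M T) ⊆ (touch61 M T).powerset := by
        intro x hx
        rw [Finset.mem_image] at hx
        obtain ⟨p, -, rfl⟩ := hx
        rw [Finset.mem_powerset]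
        exact Finset.inter_subset_right
      refine (Finset.card_le_card hs).trans ?_
      rw [Finset.card_powerset]
      refine Nat.pow_le_pow_right (by norm_num) ?_
      rw [← hTk]
      exact touch61_card M T
  rw [Finset.card_eq_sum_card_fiberwise (f := Prod.snd) (t := C.powerset) (fun p hp => hTC p hp)]
  calc ∑ T ∈ C.powerset, (P.filter fun p => p.2 = T).card
      ≤ ∑ _T ∈ C.powerset, 2 ^ ((4 * (24 * M + 1) ^ 2) * k) := Finset.sum_le_sum hfib
    _ = 2 ^ C.card * 2 ^ ((4 * (24 * M + 1) ^ 2) * k) := by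
        rw [Finset.sum_const, Finset.card_powerset, smul_eq_mul]
    _ ≤ 2 ^ (k * (24 * M + 1)) * 2 ^ ((4 * (24 * M + 1) ^ 2) * k) :=
        Nat.mul_le_mul_right _ (Nat.pow_le_pow_right (by norm_num) hCcard)
    _ = _ := by
        rw [← pow_add, ← pow_mul]
        congr 1
        ring

end Pool.Helper17.OZ
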