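import Pool.Agent.Helper17.OZ.Fk

/-! Block OZ-L2-A1: the rate `tau`. -/

namespace Pool.Helper17.OZ

open Pool.Helper49.FK

variable {q ρ : ℝ}

section aux26

private theorem wt_pos26 (hq : 1 ≤ q) (h0 : 0 < ρ) (D : Finset (ℤ × ℤ)) (ω : Finset Edge) :
    0 < wt q (hom ρ) D ω := by
  unfold wt hom
  have : (0 : ℝ) < q := by linarith
  exact mul_pos (Finset.prod_pos fun _ _ => h0) (pow_pos this _)

private theorem Z_pos26 (hq : 1 ≤ q) (h0 : 0 < ρ) (D : Finset (ℤ × ℤ)) : 0 < Z q (hom ρ) D := by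
  unfold Z
  exact Finset.sum_pos (fun ω _ => wt_pos26 hq h0 D ω) ⟨∅, Finset.mem_powerset.2 (Finset.empty_subset _)⟩

private theorem pr_le26 (hq : 1 ≤ q) (h0 : 0 < ρ) (D : Finset (ℤ × ℤ)) {A B : Finset Edge → Prop}
    (h : ∀ ω ⊆ edges D, A ω → B ω) : pr q (hom ρ) D A ≤ pr q (hom ρ) D B := by
  classical
  unfold pr ex
  refine div_le_div_of_nonneg_right (Finset.sum_le_sum fun ω hω => ?_) (Z_pos26 hq h0 D).le
  refine mul_le_mul_of_nonneg_left ?_ (wt_pos26 hq h0 D ω).le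
  by_cases hA : A ω
  · simp only [if_pos hA, if_pos (h ω (Finset.mem_powerset.1 hω) hA), le_refl]
  · simp only [if_neg hA]
    split_ifs
    · exact zero_le_one
    · exact le_rfl

private theorem pr_true26 (hq : 1 ≤ q) (h0 : 0 < ρ) (D : Finset (ℤ × ℤ)) :
    pr q (hom ρ) D (fun ω => (∅ : Finset Edge) ⊆ ω) = 1 := by
  classical
  unfold pr ex
  simp only [Finset.empty_subset, if_true, mul_one]
  exact div_self (Z_pos26 hq h0 D).ne'

private theorem mem_Lam26 {n : ℕ} {x : ℤ × ℤ} : x ∈ Lam (0, 0) n ↔ nd (0, 0) x ≤ n := by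
  unfold Lam nd
  simp only [Finset.mem_product, Finset.mem_Icc, zero_sub, zero_add, abs_neg, sup_le_iff, abs_le]

private theorem nd_adj26 {ω : Finset Edge} {x y : ℤ × ℤ} (h : (gr ω).Adj x y) :
    nd (0, 0) y ≤ nd (0, 0) x + 1 := by
  obtain ⟨e, -, he⟩ := h
  have ht : tip e = (e.1.1 + 1, e.1.2) ∨ tip e = (e.1.1, e.1.2 + 1) := by
    unfold tip
    split_ifs
    · exact Or.inl rfl
    · exact Or.inr rfl
  unfold nd
  simp only [zero_sub, abs_neg]
  rcases he with ⟨h1, h2⟩ | ⟨h1, h2⟩ <;> rcases ht with h3 | h3 <;> rw [h3] at h2 <;>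
    · subst h1
      subst h2
      simp only
      grind

private theorem exit26 (n : ℕ) (ω : Finset Edge) {x y : ℤ × ℤ} (p : (gr ω).Walk x y)
    (hx : nd (0, 0) x ≤ n) (hy : (n : ℤ) ≤ nd (0, 0) y) :
    ∃ z, nd (0, 0) z = n ∧ Cin ω (Lam (0, 0) n) x z := by
  induction p with
  | nil => exact ⟨_, le_antisymm hx hy, SimpleGraph.Reachable.refl _⟩
  | @cons x z y h p ih =>
    rcases hx.lt_or_eq with hlt | heq
    · have hz : nd (0, 0) z ≤ n := by
        have := nd_adj26 h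
        omega
      obtain ⟨z', h1, h2⟩ := ih hz hy
      refine ⟨z', h1, SimpleGraph.Reachable.trans (SimpleGraph.Adj.reachable ?_) h2⟩
      obtain ⟨e, he, hc⟩ := h
      refine ⟨e, Finset.mem_inter.2 ⟨he, ?_⟩, hc⟩
      unfold edges
      have hxm := mem_Lam26.2 hx
      have hzm := mem_Lam26.2 hz
      rw [Finset.mem_filter, Finset.mem_product]
      rcases hc with ⟨h3, h4⟩ | ⟨h3, h4⟩
      · rw [h3, h4]
        exact ⟨⟨hxm, Finset.mem_univ _⟩, hzm⟩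
      · rw [h3, h4]
        exact ⟨⟨hzm, Finset.mem_univ _⟩, hxm⟩
    · exact ⟨_, heq, SimpleGraph.Reachable.refl _⟩

private theorem GI_exp26 (hq : 1 ≤ q) (h0 : 0 < ρ) {κ : ℕ → ℝ} (hE : ExpWith q ρ κ) {n : ℕ}
    (hn : 1 ≤ n) : GI q ρ (0, 0) ((n : ℤ), 0) ≤ κ n := by
  unfold GI
  refine ciSup_le fun N => ?_
  have h1 : G q (hom ρ) (box N) (0, 0) ((n : ℤ), 0) ≤ pr q (hom ρ) (box N) (Arm n (0, 0)) := by
    unfold G
    refine pr_le26 hq h0 _ fun ω _ hω => ?_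
    obtain ⟨p⟩ := hω
    have hy : (n : ℤ) ≤ nd (0, 0) ((n : ℤ), 0) := by
      unfold nd
      simp
    exact exit26 n ω p (by unfold nd; simp) hy
  have h2 := prO_mono (D := box N) (r := hom ρ) (F := ∅)
    (F' := edges (box N) \ edges (Lam (0, 0) n)) hq (fun _ => h0) (Finset.empty_subset _)
    Finset.sdiff_subset (A := Arm n (0, 0)) (by
      intro ω ω' hω hA
      obtain ⟨y, hy, hc⟩ := hA
      refine ⟨y, hy, SimpleGraph.Reachable.mono ?_ hc⟩
      intro a b hab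
      obtain ⟨e, he, hc⟩ := hab
      exact ⟨e, Finset.mem_inter.2 ⟨hω (Finset.mem_inter.1 he).1, (Finset.mem_inter.1 he).2⟩, hc⟩)
  have h3 : prO q (hom ρ) (box N) ∅ (Arm n (0, 0)) = pr q (hom ρ) (box N) (Arm n (0, 0)) := by
    unfold prO
    rw [pr_true26 hq h0, div_one]
    refine le_antisymm (pr_le26 hq h0 _ fun ω _ h => h.2)
      (pr_le26 hq h0 _ fun ω _ h => ⟨Finset.empty_subset _, h⟩)
  rw [h3] at h2
  exact h1.trans (h2.trans (arm_le hq (fun _ => h0) (fun _ => le_rfl) hE hn (box N) (0, 0)))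

private theorem GI_pow26 (hq : 1 ≤ q) (h0 : 0 < ρ) (m k : ℕ) :
    GI q ρ (0, 0) ((m : ℤ), 0) ^ (k + 1) ≤ GI q ρ (0, 0) ((((k + 1) * m : ℕ) : ℤ), 0) := by
  induction k with
  | zero => simp
  | succ k ih =>
    have h1 := GI_mul hq h0 ((((k + 1) * m : ℕ) : ℤ), 0) ((m : ℤ), 0)
    have h2 : (((((k + 1) * m : ℕ) : ℤ), 0) : ℤ × ℤ) + ((m : ℤ), 0) =
        ((((k + 1 + 1) * m : ℕ) : ℤ), 0) := by
      rw [Prod.mk_add_mk, add_zero]
      push_cast
      ring_nf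
    rw [h2] at h1
    rw [pow_succ]
    exact (mul_le_mul_of_nonneg_right ih (GI_pos hq h0 _).1.le).trans h1

private theorem bdd26 (hq : 1 ≤ q) (h0 : 0 < ρ) :
    BddBelow (Set.range fun n : ℕ => -Real.log (GI q ρ (0, 0) ((n : ℤ) + 1, 0)) / ((n : ℝ) + 1)) := by
  refine ⟨0, ?_⟩
  rintro _ ⟨n, rfl⟩
  have h := GI_pos hq h0 ((n : ℤ) + 1, 0)
  have h1 := Real.log_nonpos h.1.le h.2
  exact div_nonneg (by linarith) (by positivity)

private theorem axis26 (hq : 1 ≤ q) (h0 : 0 < ρ) (n : ℕ) :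
    GI q ρ (0, 0) ((n : ℤ), 0) ≤ Real.exp (-tau q ρ * n) := by
  rcases Nat.eq_zero_or_pos n with rfl | hn
  · have := (GI_pos hq h0 (((0 : ℕ) : ℤ), 0)).2
    simpa using this
  · obtain ⟨m, rfl⟩ : ∃ m, n = m + 1 := ⟨n - 1, by omega⟩
    have h1 : tau q ρ ≤ -Real.log (GI q ρ (0, 0) ((m : ℤ) + 1, 0)) / ((m : ℝ) + 1) :=
      ciInf_le (bdd26 hq h0) m
    have hp := (GI_pos hq h0 ((m : ℤ) + 1, 0)).1
    rw [le_div_iff₀ (by positivity)] at h1
    have h2 : Real.log (GI q ρ (0, 0) ((m : ℤ) + 1, 0)) ≤ -tau q ρ * ((m : ℝ) + 1) := by linarith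
    have h3 := Real.exp_le_exp.2 h2
    rw [Real.exp_log hp] at h3
    push_cast
    exact h3

end aux26

/-- (A1) `tau` is positive under exponential decay. Proof: `GI (n, 0) ≤ C e^{-c n}` (the arm event, FK4 and
FK6 or directly), so `-log GI (n+1, 0) / (n+1) ≥ c - log C / (n+1)`; and by supermultiplicativity
`GI (n,0) ^ k ≤ GI (k n, 0)`, so every term of the infimum is at least `c`. -/
theorem tau_pos (hq : 1 ≤ q) (h0 : 0 < ρ) (hE : ExpW q ρ) : 0 < tau q ρ := by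
  obtain ⟨c, C, hc, hC, hE⟩ := hE
  refine lt_of_lt_of_le hc ?_
  unfold tau
  refine le_ciInf fun n => ?_
  have hp := (GI_pos hq h0 ((n : ℤ) + 1, 0)).1
  rw [le_div_iff₀ (by positivity)]
  have key : ∀ k : ℕ, ((k : ℝ) + 1) * Real.log (GI q ρ (0, 0) ((n : ℤ) + 1, 0)) ≤
      Real.log C - c * (((k : ℝ) + 1) * ((n : ℝ) + 1)) := by
    intro k
    have h1 := GI_pow26 hq h0 (n + 1) k
    have h2 := GI_exp26 hq h0 hE (n := (k + 1) * (n + 1)) (Nat.mul_pos (Nat.succ_pos _) (Nat.succ_pos _))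
    have h3 := h1.trans h2
    have e1 : (((n + 1 : ℕ) : ℤ), (0 : ℤ)) = ((n : ℤ) + 1, 0) := by push_cast; rfl
    rw [e1] at h3
    have h4 := Real.log_le_log (pow_pos hp _) h3
    rw [Real.log_pow, Real.log_mul hC.ne' (Real.exp_pos _).ne', Real.log_exp] at h4
    push_cast at h4
    linarith
  by_contra hcon
  push Not at hcon
  obtain ⟨d, hd⟩ : ∃ d : ℝ, d = c * ((n : ℝ) + 1) + Real.log (GI q ρ (0, 0) ((n : ℤ) + 1, 0)) :=
    ⟨_, rfl⟩
  have hd0 : 0 < d := by rw [hd]; linarith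
  obtain ⟨k, hk⟩ := exists_nat_gt (Real.log C / d)
  rw [div_lt_iff₀ hd0] at hk
  have h5 := key k
  have h6 : ((k : ℝ) + 1) * d ≤ Real.log C := by
    rw [hd]
    nlinarith
  nlinarith

/-- (A2) Proof: `GI (a, b) ^ 2 = GI (a, b) * GI (a, -b) ≤ GI (2 a, 0) ≤ e^{-tau |2 a|}` and the same with the
coordinates exchanged. (`GI (n, 0) ≤ e^{-tau n}` is the definition of the infimum; it is bounded below.) -/
theorem GI_le_tau (hq : 1 ≤ q) (h0 : 0 < ρ) (x : ℤ × ℤ) :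
    GI q ρ (0, 0) x ≤ Real.exp (-tau q ρ * (nd (0, 0) x : ℝ)) := by
  obtain ⟨a, b⟩ := x
  have hp := GI_pos hq h0 (a, b)
  have hab : ∀ a b : ℤ, GI q ρ (0, 0) (a, b) ≤ Real.exp (-tau q ρ * ((|a| : ℤ) : ℝ)) := by
    intro a b
    have hs : ∀ a b : ℤ, 0 ≤ a → GI q ρ (0, 0) (a, b) ≤ Real.exp (-tau q ρ * (a : ℝ)) := by
      intro a b ha
      obtain ⟨m, rfl⟩ := Int.eq_ofNat_of_zero_le ha
      have h1 := GI_mul hq h0 ((m : ℤ), b) ((m : ℤ), -b)
      rw [(GI_symm hq h0 (m : ℤ) b).1, Prod.mk_add_mk, add_neg_cancel] at h1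
      have h2 := axis26 hq h0 (m + m)
      have e1 : (((m + m : ℕ) : ℤ), (0 : ℤ)) = ((m : ℤ) + m, 0) := by push_cast; rfl
      rw [e1] at h2
      have h3 := h1.trans h2
      have h4 : Real.exp (-tau q ρ * ((m + m : ℕ) : ℝ)) =
          Real.exp (-tau q ρ * (m : ℝ)) * Real.exp (-tau q ρ * (m : ℝ)) := by
        rw [← Real.exp_add]
        push_cast
        ring_nf
      rw [h4] at h3
      have h5 : GI q ρ (0, 0) ((m : ℤ), b) ≤ Real.exp (-tau q ρ * (m : ℝ)) := by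
        by_contra hcon
        push Not at hcon
        have h6 := Real.exp_pos (-tau q ρ * (m : ℝ))
        nlinarith
      push_cast
      exact h5
    rcases le_total 0 a with ha | ha
    · rw [abs_of_nonneg ha]
      exact hs a b ha
    · rw [abs_of_nonpos ha, ← (GI_symm hq h0 a b).2.1]
      exact hs (-a) b (by omega)
  unfold nd
  simp only [zero_sub, abs_neg]
  rcases max_cases |a| |b| with ⟨h, -⟩ | ⟨h, -⟩
  · rw [h]
    exact hab a b
  · rw [h, ← (GI_symm hq h0 a b).2.2]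
    exact hab b a

/-- (A2b) The infimum is a limit (Fekete). -/
theorem tau_lim (hq : 1 ≤ q) (h0 : 0 < ρ) {ε : ℝ} (hε : 0 < ε) :
    ∃ N : ℕ, ∀ n : ℕ, N ≤ n → Real.exp (-(tau q ρ + ε) * n) ≤ GI q ρ (0, 0) ((n : ℤ), 0) := by
  set u : ℕ → ℝ := fun n => -Real.log (GI q ρ (0, 0) ((n : ℤ), 0)) with hu
  have hsub : Subadditive u := by
    intro m n
    have h1 := GI_mul hq h0 ((m : ℤ), 0) ((n : ℤ), 0)
    have e1 : (((m : ℤ), (0 : ℤ)) : ℤ × ℤ) + ((n : ℤ), 0) = (((m + n : ℕ) : ℤ), 0) := by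
      rw [Prod.mk_add_mk, add_zero]
      push_cast
      rfl
    rw [e1] at h1
    have h2 := (GI_pos hq h0 ((m : ℤ), 0)).1
    have h3 := (GI_pos hq h0 ((n : ℤ), 0)).1
    have h4 := Real.log_le_log (mul_pos h2 h3) h1
    rw [Real.log_mul h2.ne' h3.ne'] at h4
    change -Real.log (GI q ρ (0, 0) (((m + n : ℕ) : ℤ), 0)) ≤
      -Real.log (GI q ρ (0, 0) ((m : ℤ), 0)) + -Real.log (GI q ρ (0, 0) ((n : ℤ), 0))
    linarith
  have hun : ∀ n, 0 ≤ u n := by
    intro n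
    have h := GI_pos hq h0 ((n : ℤ), 0)
    have h1 := Real.log_nonpos h.1.le h.2
    change 0 ≤ -Real.log (GI q ρ (0, 0) ((n : ℤ), 0))
    linarith
  have hbdd : BddBelow (Set.range fun n : ℕ => u n / n) := by
    refine ⟨0, ?_⟩
    rintro _ ⟨n, rfl⟩
    exact div_nonneg (hun n) (Nat.cast_nonneg n)
  have hlim := hsub.tendsto_lim hbdd
  have htau : hsub.lim = tau q ρ := by
    unfold Subadditive.lim tau iInf
    congr 1
    ext y
    constructor
    · rintro ⟨n, hn, rfl⟩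
      obtain ⟨m, rfl⟩ : ∃ m, n = m + 1 := ⟨n - 1, by
        have : 1 ≤ n := hn
        omega⟩
      refine ⟨m, ?_⟩
      simp only [hu]
      push_cast
      rfl
    · rintro ⟨m, rfl⟩
      refine ⟨m + 1, Set.mem_Ici.2 (by omega), ?_⟩
      simp only [hu]
      push_cast
      rfl
  rw [htau] at hlim
  have hev := hlim.eventually (gt_mem_nhds (by linarith : tau q ρ < tau q ρ + ε))
  obtain ⟨N, hN⟩ := Filter.eventually_atTop.1 hev
  refine ⟨N + 1, fun n hn => ?_⟩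
  have h1 := hN n (by omega)
  have hn0 : (0 : ℝ) < n := by
    have : 0 < n := by omega
    exact_mod_cast this
  rw [div_lt_iff₀ hn0] at h1
  have hp := (GI_pos hq h0 ((n : ℤ), 0)).1
  rw [← Real.exp_log hp]
  apply Real.exp_le_exp.2
  have h2 : -Real.log (GI q ρ (0, 0) ((n : ℤ), 0)) < (tau q ρ + ε) * n := h1
  linarith

end Pool.Helper17.OZ
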