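import Pool.Agent.Helper17.OZ.NevDef

/-! Block OZ-L2-B0. -/

namespace Pool.Helper17.OZ

open Pool.Helper49.FK

private theorem gr_mono52 {ω ω' : Finset Edge} (h : ω ⊆ ω') : gr ω ≤ gr ω' := by
  rintro x y ⟨e, he, h1⟩
  exact ⟨e, h he, h1⟩

/-- (B0) The box of radius `s` around a point of `Bs` is contained in `Bp`. -/
theorem lam_sub (K s : ℕ) (P : Finset (ℤ × ℤ)) (x : ℤ × ℤ) {b : ℤ × ℤ} (hb : b ∈ Bs K s P x) :
    Lam b s ⊆ Bp K s P x := by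
  intro z hz
  simp only [Bs, Bp, Lam, Finset.mem_sdiff, Finset.mem_biUnion, Finset.mem_product, Finset.mem_Icc,
    not_exists, not_and] at hb hz ⊢
  obtain ⟨⟨⟨h1, h2⟩, h3, h4⟩, h5⟩ := hb
  obtain ⟨⟨h6, h7⟩, h8, h9⟩ := hz
  refine ⟨⟨⟨?_, ?_⟩, ?_, ?_⟩, fun p hp hz1 hz2 hz3 => ?_⟩
  · push_cast at *; omega
  · push_cast at *; omega
  · push_cast at *; omega
  · push_cast at *; omega
  · refine absurd ?_ (fun h : (p.1 - ((K + 2 * s : ℕ) : ℤ) ≤ b.1 ∧ b.1 ≤ p.1 + ((K + 2 * s : ℕ) : ℤ)) ∧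
      (p.2 - ((K + 2 * s : ℕ) : ℤ) ≤ b.2 ∧ b.2 ≤ p.2 + ((K + 2 * s : ℕ) : ℤ)) =>
        h5 p hp h.1 h.2.1 h.2.2)
    push_cast at *
    omega

/-- (B0b) Increasing. -/
theorem inc_Ex (K s : ℕ) (P : Finset (ℤ × ℤ)) (x : ℤ × ℤ) : Inc (Ex K s P x) := by
  rintro ω ω' h ⟨y, hy, hc⟩
  refine ⟨y, hy, ?_⟩
  unfold Cin Conn at hc ⊢
  refine hc.mono ?_
  exact gr_mono52 (Finset.inter_subset_inter h (Finset.Subset.refl _))

/-- (B0c) `Ex` depends only on the edges inside `Bs`. -/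
theorem dep_Ex (D : Finset (ℤ × ℤ)) (K s : ℕ) (P : Finset (ℤ × ℤ)) (x : ℤ × ℤ) :
    Dep D (edges (Bs K s P x)) (Ex K s P x) := by
  intro ω _ ω' _ h
  unfold Ex Cin
  rw [h]

end Pool.Helper17.OZ
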