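import Pool.Agent.Helper17.OZ.WiA

/-! Block OZ-L2-B1a. -/

namespace Pool.Helper17.OZ

open Pool.Helper49.FK

private theorem closed45 {V : Type*} {G : SimpleGraph V} {x y : V} (h : G.Reachable x y)
    (S : V → Prop) (hx : S x) (hS : ∀ v w, S v → G.Adj v w → S w) : S y := by
  rw [SimpleGraph.reachable_iff_reflTransGen] at h
  induction h with
  | refl => exact hx
  | tail _ h2 ih => exact hS _ _ ih h2

private theorem nd_le_iff45 (x y : ℤ × ℤ) (n : ℤ) :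
    nd x y ≤ n ↔ (x.1 - n ≤ y.1 ∧ y.1 ≤ x.1 + n) ∧ (x.2 - n ≤ y.2 ∧ y.2 ≤ x.2 + n) := by
  unfold nd
  rw [max_le_iff, abs_le, abs_le]
  constructor <;> intro h <;> refine ⟨⟨?_, ?_⟩, ?_, ?_⟩ <;> omega

private theorem mem_Lam45 (x y : ℤ × ℤ) (n : ℕ) : y ∈ Lam x n ↔ nd x y ≤ n := by
  rw [nd_le_iff45]
  simp only [Lam, Finset.mem_product, Finset.mem_Icc]

private theorem nd_comm45 (x y : ℤ × ℤ) : nd x y = nd y x := by
  unfold nd
  rw [abs_sub_comm x.1, abs_sub_comm x.2]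

private theorem adj45 {ω : Finset Edge} {v w : ℤ × ℤ} (h : (gr ω).Adj v w) :
    (v.1 - 1 ≤ w.1 ∧ w.1 ≤ v.1 + 1) ∧ (v.2 - 1 ≤ w.2 ∧ w.2 ≤ v.2 + 1) := by
  obtain ⟨e, he, h1⟩ := h
  rcases h1 with ⟨h1, h2⟩ | ⟨h1, h2⟩
  · subst h1 h2
    unfold tip
    split_ifs <;> refine ⟨⟨?_, ?_⟩, ?_, ?_⟩ <;> dsimp only <;> omega
  · subst h1 h2
    unfold tip
    split_ifs <;> refine ⟨⟨?_, ?_⟩, ?_, ?_⟩ <;> dsimp only <;> omega

private theorem nd_adj45 {ω : Finset Edge} {v w : ℤ × ℤ} (h : (gr ω).Adj v w) (b : ℤ × ℤ) :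
    nd b w ≤ nd b v + 1 := by
  have h1 := adj45 h
  have h2 := (nd_le_iff45 b v (nd b v)).1 le_rfl
  rw [nd_le_iff45]
  refine ⟨⟨?_, ?_⟩, ?_, ?_⟩ <;> omega

/-- A connection which leaves the box of radius `r` around `x` gives an arm. -/
private theorem arm45 {ω : Finset Edge} {x y : ℤ × ℤ} {r : ℕ} (h : Conn ω x y)
    (hy : (r : ℤ) < nd x y) : Arm r x ω := by
  by_contra hA
  have hall : ∀ z, Cin ω (Lam x r) x z → nd x z ≠ r := fun z hz h1 => hA ⟨z, h1, hz⟩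
  have hx0 : nd x x ≤ (r : ℤ) := by
    rw [nd_le_iff45]
    refine ⟨⟨?_, ?_⟩, ?_, ?_⟩ <;> omega
  have key : nd x y ≤ (r : ℤ) ∧ Cin ω (Lam x r) x y := by
    refine closed45 (G := gr ω) h (fun v => nd x v ≤ (r : ℤ) ∧ Cin ω (Lam x r) x v)
      ⟨hx0, SimpleGraph.Reachable.refl _⟩ ?_
    rintro v w ⟨hv1, hv2⟩ hvw
    have hv3 : nd x v ≠ r := hall v hv2
    have hw : nd x w ≤ (r : ℤ) := by
      have := nd_adj45 hvw x
      omega
    refine ⟨hw, ?_⟩
    unfold Cin Conn at hv2 ⊢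
    refine hv2.trans (SimpleGraph.Adj.reachable ?_)
    obtain ⟨e, he, h1⟩ := hvw
    refine ⟨e, ?_, h1⟩
    rw [Finset.mem_inter]
    refine ⟨he, ?_⟩
    unfold edges
    rw [Finset.mem_filter, Finset.mem_product]
    rcases h1 with ⟨h1, h2⟩ | ⟨h1, h2⟩
    · rw [h1, h2]
      exact ⟨⟨(mem_Lam45 _ _ _).2 hv1, Finset.mem_univ _⟩, (mem_Lam45 _ _ _).2 hw⟩
    · rw [h1, h2]
      exact ⟨⟨(mem_Lam45 _ _ _).2 hw, Finset.mem_univ _⟩, (mem_Lam45 _ _ _).2 hv1⟩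
  omega

/-- (B1a) Deterministic: if a point outside `Bp` is connected to a point of `Bs` then `Nev` occurs. Proof: along
the path from `b` the distance to `Bs` (minimum of `nd` over `Bs`) starts with `0`, changes by at most `1` in
one step and ends with more than `s` (`lam_sub`); let `z` be the first vertex with distance `h`; the path from `z`
back to `b` leaves `Lam z (h - 1)` because `nd z b ≥ h`; stop at the last vertex before the first exit. -/
theorem nev_of_conn {K s : ℕ} (hs : 4 ≤ s) {P : Finset (ℤ × ℤ)} {x : ℤ × ℤ} {ω : Finset Edge}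
    {y b : ℤ × ℤ} (hy : y ∉ Bp K s P x) (hb : b ∈ Bs K s P x) (h : Conn ω y b) : Nev K s P x ω := by
  have hne : (Bs K s P x).Nonempty := ⟨b, hb⟩
  -- a vertex connected to `b` with distance exactly `h`
  have hz : ∃ z, Conn ω b z ∧ (∃ b' ∈ Bs K s P x, nd z b' = (s / 2 : ℕ)) ∧
      (∀ b' ∈ Bs K s P x, ((s / 2 : ℕ) : ℤ) ≤ nd z b') := by
    by_contra hno
    have key : Conn ω b y ∧ ∃ b' ∈ Bs K s P x, nd b' y < (s / 2 : ℕ) := by
      refine closed45 (G := gr ω) h.symm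
        (fun v => Conn ω b v ∧ ∃ b' ∈ Bs K s P x, nd b' v < (s / 2 : ℕ)) ?_ ?_
      · refine ⟨SimpleGraph.Reachable.refl _, b, hb, ?_⟩
        have : nd b b ≤ 0 := by
          rw [nd_le_iff45]
          refine ⟨⟨?_, ?_⟩, ?_, ?_⟩ <;> omega
        omega
      · rintro v w ⟨hv1, b', hb', hv2⟩ hvw
        have hw1 : Conn ω b w := by
          unfold Conn at hv1 ⊢
          exact hv1.trans hvw.reachable
        refine ⟨hw1, ?_⟩
        by_contra hw2
        have hw3 : ∀ c ∈ Bs K s P x, ((s / 2 : ℕ) : ℤ) ≤ nd w c := by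
          intro c hc
          by_contra h3
          exact hw2 ⟨c, hc, by rw [nd_comm45]; omega⟩
        refine hno ⟨w, hw1, ⟨b', hb', ?_⟩, hw3⟩
        have h4 := nd_adj45 hvw b'
        have h5 := hw3 b' hb'
        rw [nd_comm45] at h5 ⊢
        omega
    obtain ⟨_, b', hb', h1⟩ := key
    refine hy (lam_sub K s P x hb' ((mem_Lam45 _ _ _).2 ?_))
    omega
  obtain ⟨z, hz1, hz2, hz3⟩ := hz
  refine ⟨z, hz2, hz3, ?_⟩
  refine arm45 (y := b) ?_ ?_
  · unfold Conn at hz1 ⊢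
    exact hz1.symm
  · have := hz3 b hb
    omega

end Pool.Helper17.OZ
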