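import Pool.Agent.Helper17.OZ.WiA
import Pool.Agent.Helper17.OZ.Fk

/-! Block OZ-L2-B1b. -/

namespace Pool.Helper17.OZ

open Pool.Helper49.FK

private theorem gr_mono_h74 {ω ω' : Finset Edge} (h : ω ⊆ ω') : gr ω ≤ gr ω' := by
  rintro x y ⟨e, he, h1⟩
  exact ⟨e, h he, h1⟩

private theorem inc_Arm_h74 (s : ℕ) (x : ℤ × ℤ) : Inc (Arm s x) := by
  rintro ω ω' h ⟨y, hy, hc⟩
  refine ⟨y, hy, ?_⟩
  unfold Cin Conn at hc ⊢
  refine hc.mono ?_
  exact gr_mono_h74 (Finset.inter_subset_inter h (Finset.Subset.refl _))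

private theorem mem_edges_h74 {D : Finset (ℤ × ℤ)} {e : Edge} : e ∈ edges D ↔ e.1 ∈ D ∧ tip e ∈ D := by
  simp [edges]

private theorem pr_nonneg_h74 {q : ℝ} (hq : 1 ≤ q) {r : Edge → ℝ} (h0 : ∀ e, 0 < r e)
    (D : Finset (ℤ × ℤ)) (A : Finset Edge → Prop) : 0 ≤ pr q r D A := by
  classical
  have hw : ∀ ω, 0 ≤ wt q r D ω := fun ω =>
    mul_nonneg (Finset.prod_nonneg fun e _ => (h0 e).le) (pow_nonneg (by linarith) _)
  unfold pr ex
  refine div_nonneg (Finset.sum_nonneg fun ω _ => mul_nonneg (hw ω) ?_)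
    (Finset.sum_nonneg fun ω _ => hw ω)
  dsimp only
  split_ifs <;> norm_num

private theorem prO_nonneg_h74 {q : ℝ} (hq : 1 ≤ q) {r : Edge → ℝ} (h0 : ∀ e, 0 < r e)
    (D : Finset (ℤ × ℤ)) (F : Finset Edge) (A : Finset Edge → Prop) : 0 ≤ prO q r D F A :=
  div_nonneg (pr_nonneg_h74 hq h0 _ _) (pr_nonneg_h74 hq h0 _ _)

private theorem mem_Lam_h74 {x : ℤ × ℤ} {K : ℕ} {z : ℤ × ℤ} : z ∈ Lam x K ↔ nd z x ≤ K := by
  simp only [Lam, nd, Finset.mem_product, Finset.mem_Icc, max_le_iff, abs_le]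
  constructor
  · rintro ⟨⟨h1, h2⟩, h3, h4⟩
    refine ⟨⟨by linarith, by linarith⟩, by linarith, by linarith⟩
  · rintro ⟨⟨h1, h2⟩, h3, h4⟩
    refine ⟨⟨by linarith, by linarith⟩, by linarith, by linarith⟩

private theorem nd_tri_h74 (x y z : ℤ × ℤ) : nd x z ≤ nd x y + nd y z := by
  unfold nd
  have h1 := abs_sub_le x.1 y.1 z.1
  have h2 := abs_sub_le x.2 y.2 z.2
  have h3 := le_max_left |x.1 - y.1| |x.2 - y.2|
  have h4 := le_max_right |x.1 - y.1| |x.2 - y.2|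
  have h5 := le_max_left |y.1 - z.1| |y.2 - z.2|
  have h6 := le_max_right |y.1 - z.1| |y.2 - z.2|
  exact max_le (by linarith) (by linarith)

private theorem nd_comm_h74 (x y : ℤ × ℤ) : nd x y = nd y x := by
  unfold nd
  rw [abs_sub_comm x.1, abs_sub_comm x.2]

private theorem card_Lam_h74 (x : ℤ × ℤ) (K : ℕ) : (Lam x K).card = (2 * K + 1) ^ 2 := by
  unfold Lam
  rw [Finset.card_product, Int.card_Icc, Int.card_Icc, sq]
  congr 1 <;> omega

/-- (B1b) The probability of `Nev` if everything inside `Bs` and everything not inside `Bp` is open. Proof: at most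
`(2 K + 2 s + 1) ^ 2` points `z`; the box `Lam z (h - 1)` is inside `Bp` and disjoint from `Bs`, so the open edges are
not inside this box: `prO_mono`, `arm_le` and a union bound (for `prO`). -/
theorem nev_le {q ρ : ℝ} (hq : 1 ≤ q) {r : Edge → ℝ} (h0 : ∀ e, 0 < r e) (hr : ∀ e, r e ≤ ρ) {κ : ℕ → ℝ}
    (hE : ExpWith q ρ κ) {K s : ℕ} (hs : 4 ≤ s) (D P : Finset (ℤ × ℤ)) (x : ℤ × ℤ) :
    prO q r D ((edges D \ edges (Bp K s P x)) ∪ (edges D ∩ edges (Bs K s P x))) (Nev K s P x) ≤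
      (2 * K + 2 * s + 1) ^ 2 * κ (s / 2 - 1) := by
  classical
  have hρ : 0 < ρ := (h0 ((0, 0), true)).trans_le (hr _)
  have hh1 : 1 ≤ s / 2 - 1 := by omega
  have hκ : 0 ≤ κ (s / 2 - 1) :=
    (prO_nonneg_h74 hq (fun _ => hρ) _ _ _).trans (hE _ hh1)
  set F := (edges D \ edges (Bp K s P x)) ∪ (edges D ∩ edges (Bs K s P x)) with hF
  set Zs : Finset (ℤ × ℤ) := (Lam x (K + s)).filter fun z =>
    (∃ b ∈ Bs K s P x, nd z b = (s / 2 : ℕ)) ∧ (∀ b ∈ Bs K s P x, ((s / 2 : ℕ) : ℤ) ≤ nd z b) with hZs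
  -- each summand
  have hterm : ∀ z ∈ Zs, prO q r D F (Arm (s / 2 - 1) z) ≤ κ (s / 2 - 1) := by
    intro z hz
    obtain ⟨-, ⟨b, hb, hzb⟩, hall⟩ := Finset.mem_filter.1 hz
    have hFs : F ⊆ edges D \ edges (Lam z (s / 2 - 1)) := by
      intro e he
      rw [hF, Finset.mem_union, Finset.mem_sdiff, Finset.mem_inter] at he
      rw [Finset.mem_sdiff]
      have hsub : Lam z (s / 2 - 1) ⊆ Bp K s P x := by
        refine fun w hw => lam_sub K s P x hb ?_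
        rw [mem_Lam_h74] at hw ⊢
        have h1 := nd_tri_h74 w z b
        have h2 : ((s / 2 - 1 : ℕ) : ℤ) + ((s / 2 : ℕ) : ℤ) ≤ s := by omega
        linarith
      rcases he with ⟨h1, h2⟩ | ⟨h1, h2⟩
      · refine ⟨h1, fun h3 => h2 ?_⟩
        rw [mem_edges_h74] at h3 ⊢
        exact ⟨hsub h3.1, hsub h3.2⟩
      · refine ⟨h1, fun h3 => ?_⟩
        rw [mem_edges_h74] at h2 h3
        have h4 := hall _ h2.1
        have h5 := mem_Lam_h74.1 h3.1
        rw [nd_comm_h74] at h5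
        have h6 : ((s / 2 - 1 : ℕ) : ℤ) < ((s / 2 : ℕ) : ℤ) := by omega
        linarith
    exact (prO_mono hq h0 hFs Finset.sdiff_subset (inc_Arm_h74 _ _)).trans
      (arm_le hq h0 hr hE hh1 D z)
  -- union bound
  have hun : pr q r D (fun ω => F ⊆ ω ∧ Nev K s P x ω) ≤
      ∑ z ∈ Zs, pr q r D (fun ω => F ⊆ ω ∧ Arm (s / 2 - 1) z ω) := by
    refine pr_union hq h0 Zs fun ω _ hω => ?_
    obtain ⟨hFω, z, hz1, hz2, hz3⟩ := hω
    refine ⟨z, Finset.mem_filter.2 ⟨?_, hz1, hz2⟩, hFω, hz3⟩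
    obtain ⟨b, hb, hzb⟩ := hz1
    rw [mem_Lam_h74]
    have hb2 : nd b x ≤ K := mem_Lam_h74.1 (Finset.mem_sdiff.1 hb).1
    have h1 := nd_tri_h74 z b x
    have h2 : ((s / 2 : ℕ) : ℤ) ≤ s := by omega
    push_cast
    push_cast at hzb h2
    linarith
  calc prO q r D F (Nev K s P x)
      ≤ (∑ z ∈ Zs, pr q r D (fun ω => F ⊆ ω ∧ Arm (s / 2 - 1) z ω)) / pr q r D (fun ω => F ⊆ ω) := by
        unfold prO
        exact div_le_div_of_nonneg_right hun (pr_nonneg_h74 hq h0 _ _)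
    _ = ∑ z ∈ Zs, prO q r D F (Arm (s / 2 - 1) z) := by
        rw [Finset.sum_div]
        rfl
    _ ≤ ∑ _z ∈ Zs, κ (s / 2 - 1) := Finset.sum_le_sum hterm
    _ = Zs.card * κ (s / 2 - 1) := by rw [Finset.sum_const, nsmul_eq_mul]
    _ ≤ (2 * K + 2 * s + 1) ^ 2 * κ (s / 2 - 1) := by
        refine mul_le_mul_of_nonneg_right ?_ hκ
        have h1 : Zs.card ≤ (2 * (K + s) + 1) ^ 2 :=
          (Finset.card_filter_le _ _).trans (card_Lam_h74 x (K + s)).le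
        have h2 : ((Zs.card : ℕ) : ℝ) ≤ (((2 * (K + s) + 1) ^ 2 : ℕ) : ℝ) := by exact_mod_cast h1
        refine h2.trans (le_of_eq ?_)
        push_cast
        ring

end Pool.Helper17.OZ
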