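import Pool.Agent.Helper17.OZ.WiB
import Pool.Agent.Helper17.OZ.WiC
import Pool.Agent.Helper17.OZ.Exit

/-! Block OZ-L2-B1. -/

namespace Pool.Helper17.OZ

open Pool.Helper49.FK

private theorem wid_gr_mono {ω ω' : Finset Edge} (h : ω ⊆ ω') : gr ω ≤ gr ω' := by
  rintro x y ⟨e, he, h1⟩
  exact ⟨e, h he, h1⟩

private theorem wid_inc_Nev (K s : ℕ) (P : Finset (ℤ × ℤ)) (x : ℤ × ℤ) : Inc (Nev K s P x) := by
  rintro ω ω' h ⟨z, h1, h2, y, hy, hc⟩
  refine ⟨z, h1, h2, y, hy, ?_⟩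
  unfold Cin Conn at hc ⊢
  refine hc.mono ?_
  exact wid_gr_mono (Finset.inter_subset_inter h (Finset.Subset.refl _))

private theorem wid_pr_nonneg {q : ℝ} (hq : 1 ≤ q) {r : Edge → ℝ} (h0 : ∀ e, 0 < r e)
    (D : Finset (ℤ × ℤ)) (A : Finset Edge → Prop) : 0 ≤ pr q r D A := by
  have hw : ∀ ω, 0 ≤ wt q r D ω := by
    intro ω
    unfold wt
    have h1 : (0 : ℝ) ≤ q := by linarith
    exact mul_nonneg (Finset.prod_nonneg fun e _ => (h0 e).le) (pow_nonneg h1 _)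
  unfold pr ex Z
  refine div_nonneg (Finset.sum_nonneg fun ω _ => mul_nonneg (hw ω) ?_)
    (Finset.sum_nonneg fun ω _ => hw ω)
  beta_reduce
  split_ifs <;> norm_num

/-- (B1) Proof: `Ex` is the union of `Ex ∧ Nev` (`prO_step` with `A = Nev`, `H = Ex`, `F = edges D ∩ edges Bs`, and
`nev_le`: at most half of `Ex`) and `Ex ∧ ¬ Nev`, which implies that no point of `D ∖ Bp` is connected to `Bs`
(`nev_of_conn`): `explore` and `exit_free`. -/
theorem exit_wired {q ρ : ℝ} (hq : 1 ≤ q) {r : Edge → ℝ} (h0 : ∀ e, 0 < r e) (hr : ∀ e, r e ≤ ρ) {κ : ℕ → ℝ}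
    (hE : ExpWith q ρ κ) {K s : ℕ} (hK : 1 ≤ K) (hs : 4 ≤ s)
    (hκ : (2 * K + 2 * s + 1) ^ 2 * κ (s / 2 - 1) ≤ 1 / 2) (D P : Finset (ℤ × ℤ)) (x : ℤ × ℤ) :
    prO q r D (edges D \ edges (Bp K s P x)) (Ex K s P x) ≤ 16 * K * Real.exp (-tau q ρ * K) := by
  set F₀ := edges D \ edges (Bp K s P x) with hF₀
  set F := edges D ∩ edges (Bs K s P x) with hF
  set N : Finset Edge → Prop := fun ω => ∀ x' ∈ D, x' ∉ Bp K s P x → ∀ y ∈ Bs K s P x, ¬Conn ω x' y
    with hN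
  have hsub : Bs K s P x ⊆ Bp K s P x := by
    intro b hb
    refine lam_sub K s P x hb ?_
    simp only [Lam, Finset.mem_product, Finset.mem_Icc]
    omega
  have hdep : Dep D F (Ex K s P x) := by
    intro ω hω ω' hω' h
    refine dep_Ex D K s P x ω hω ω' hω' ?_
    have e1 : ∀ ω'' : Finset Edge, ω'' ⊆ edges D → ω'' ∩ edges (Bs K s P x) = ω'' ∩ F := by
      intro ω'' hω''
      rw [hF, ← Finset.inter_assoc, Finset.inter_eq_left.2 hω'']
    rw [e1 ω hω, e1 ω' hω', h]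
  have h1 : prO q r D F₀ (fun ω => Nev K s P x ω ∧ Ex K s P x ω) ≤
      1 / 2 * prO q r D F₀ (Ex K s P x) := by
    have hst := prO_step (D := D) hq h0 (F₀ := F₀) (F := F) Finset.sdiff_subset
      Finset.inter_subset_left (wid_inc_Nev K s P x) hdep
    have hnn : 0 ≤ prO q r D F₀ (Ex K s P x) :=
      div_nonneg (wid_pr_nonneg hq h0 D _) (wid_pr_nonneg hq h0 D _)
    exact hst.trans (mul_le_mul_of_nonneg_right
      ((nev_le hq h0 hr hE hs D P x).trans hκ) hnn)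
  have h2 : prO q r D F₀ (fun ω => N ω ∧ Ex K s P x ω) ≤
      8 * K * Real.exp (-tau q ρ * K) := by
    have hex := explore (D := D) hq h0 hsub (dep_Ex D K s P x)
      (M := 8 * K * Real.exp (-tau q ρ * K)) (fun U _ => exit_free hq h0 hr hK s P U x)
    refine hex.trans ?_
    have h3 : prO q r D F₀ N ≤ 1 := by
      unfold prO
      refine div_le_one_of_le₀ ?_ (wid_pr_nonneg hq h0 D _)
      have := pr_union (D := D) hq h0 ({()} : Finset Unit)
        (A := fun ω => F₀ ⊆ ω ∧ N ω) (B := fun _ ω => F₀ ⊆ ω)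
        (fun ω _ h => ⟨(), Finset.mem_singleton_self _, h.1⟩)
      simpa using this
    have hM : (0 : ℝ) ≤ 8 * K * Real.exp (-tau q ρ * K) := by positivity
    calc 8 * K * Real.exp (-tau q ρ * K) * prO q r D F₀ N
        ≤ 8 * K * Real.exp (-tau q ρ * K) * 1 := mul_le_mul_of_nonneg_left h3 hM
      _ = _ := mul_one _
  have h3 : prO q r D F₀ (Ex K s P x) ≤
      prO q r D F₀ (fun ω => Nev K s P x ω ∧ Ex K s P x ω) +
        prO q r D F₀ (fun ω => N ω ∧ Ex K s P x ω) := by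
    unfold prO
    rw [← add_div]
    refine div_le_div_of_nonneg_right ?_ (wid_pr_nonneg hq h0 D _)
    have := pr_union (D := D) hq h0 (Finset.univ : Finset Bool)
      (A := fun ω => F₀ ⊆ ω ∧ Ex K s P x ω)
      (B := fun b ω => if b = true then F₀ ⊆ ω ∧ Nev K s P x ω ∧ Ex K s P x ω
        else F₀ ⊆ ω ∧ N ω ∧ Ex K s P x ω) ?_
    · simpa using this
    · rintro ω _ ⟨hω1, hω2⟩
      by_cases hnev : Nev K s P x ω
      · exact ⟨true, Finset.mem_univ _, by simpa using ⟨hω1, hnev, hω2⟩⟩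
      · refine ⟨false, Finset.mem_univ _, ?_⟩
        have hNω : N ω := by
          intro x' _ hx' y hy hc
          exact hnev (nev_of_conn hs hx' hy hc)
        simpa using ⟨hω1, hNω, hω2⟩
  linarith

end Pool.Helper17.OZ
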